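import Pool.Agent.Helper53.PT.GoalsB2
import Pool.Agent.Helper70.PT.FI
import Pool.Agent.Helper31.PT.TP
import Pool.Agent.Helper89.PT.SN
import Pool.Agent.Helper61.PT.CH
import Pool.Agent.Helper61.PT.RL
import Pool.Agent.Helper3.PT.FA
import Pool.Agent.Helper86.PT.PROD
import Pool.Agent.Helper56.PT.TAU
import Pool.Agent.Helper87.PT.REST1
import Pool.Agent.Helper37.PT.REST
import Pool.Agent.Helper90.PT.LINE
import Pool.Agent.Helper55.PT.ENODE
import Pool.Agent.Helper16.PT.ECMP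
import Pool.Agent.Helper8.PT.SIG
import Pool.Agent.Helper5.PT.KR
import Pool.Agent.Helper87.PT.KCC
import Pool.Agent.Helper34.PT.KPOS
import Pool.Agent.Helper79.PT.KNEG
import Pool.Agent.Helper38.PT.KSMALL
import Pool.Agent.Helper19.PT.HG
import Pool.Agent.Helper7.PT.E2P
import Pool.Agent.Helper77.PT.ACOV
import Pool.Agent.Helper67.PT.FMG
import Pool.Agent.Helper13.PT.RG
import Pool.Agent.Helper94.PT.NI

/-!
# MP_705522_gt, `q ∈ (2,4)`: the results of part B
-/

namespace Pool.Agent.Helper53.PT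

theorem bFI : GFI := Pool.Agent.Helper70.PT.gFI
theorem bTP : GTP := Pool.Agent.Helper31.PT.gTP
theorem bSN : GSN := Pool.Agent.Helper89.PT.gSN
theorem bCH : GCH := Pool.Agent.Helper61.PT.gCH
theorem bRL : GRL := Pool.Agent.Helper61.PT.gRL
theorem bFA : GFA := Pool.Agent.Helper3.PT.gFA
theorem bAV : GAV := Pool.Agent.Helper3.PT.gAV
theorem bPROD : GPROD := Pool.Agent.Helper86.PT.gPROD
theorem bTAU : GTAU := Pool.Agent.Helper56.PT.gTAU
theorem bREST1 : GREST1 := Pool.Agent.Helper87.PT.gREST1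
theorem bREST : GREST := Pool.Agent.Helper37.PT.gREST
theorem bLINE : GLINE := Pool.Agent.Helper90.PT.gLINE
theorem bENODE : GENODE := Pool.Agent.Helper55.PT.gENODE
theorem bECMP : GECMP := Pool.Agent.Helper16.PT.gECMP
theorem bSIG : GSIG := Pool.Agent.Helper8.PT.gSIG
theorem bKR : GKR := Pool.Agent.Helper5.PT.gKR
theorem bKCC : GKCC := Pool.Agent.Helper87.PT.gKCC
theorem bKPOS : GKPOS := Pool.Agent.Helper34.PT.gKPOS
theorem bKNEG : GKNEG := Pool.Agent.Helper79.PT.gKNEG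
theorem bKSMALL : GKSMALL := Pool.Agent.Helper38.PT.gKSMALL
theorem bHG : GHG := Pool.Agent.Helper19.PT.gHG
theorem bE2P2 : GE2P2 := Pool.Agent.Helper7.PT.gE2P2
theorem bACOV : GACOV := Pool.Agent.Helper77.PT.gACOV
theorem bFMG : GFMG := Pool.Agent.Helper67.PT.gFMG
theorem bRG : GRG := Pool.Agent.Helper13.PT.gRG
theorem bRHO : GRHO := Pool.Agent.Helper13.PT.gRHO
theorem bNI : GNI := Pool.Agent.Helper94.PT.gNI

end Pool.Agent.Helper53.PT
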