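import Pool.Agent.Helper8.PT.MO
import Pool.Agent.Helper69.PT.SER
import Pool.Agent.Helper32.PT.KER
import Pool.Agent.Helper60.PT.LAW
import Pool.Agent.Helper90.PT.BD
import Pool.Agent.Helper93.PT.CX
import Pool.Agent.Helper9.PT.LIP
import Pool.Agent.Helper59.PT.LP
import Pool.Agent.Helper39.PT.HS
import Pool.Agent.Helper87.PT.ROT
import Pool.Agent.Helper40.PT.TAIL
import Pool.Agent.Helper42.PT.DER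
import Pool.Agent.Helper79.PT.PAIR
import Pool.Agent.Helper74.PT.STIR
import Pool.Agent.Helper89.Pq.MOM
import Pool.Agent.Helper65.Pq.C0

/-!
# MP_705522_gt, `q ∈ (2,4)`: the results of part A, without hypotheses
-/

namespace Pool.Agent.Helper53.PT

open MeasureTheory Set Filter Topology
open Pool.Agent.Helper28.NO (mu ph Lf)

theorem aMO : GMO := Pool.Agent.Helper8.PT.gMO

theorem mo_zero {θ : ℝ} (h0 : 0 < θ) (h1 : θ < 1) : mo θ 0 = 1 := (aMO.1 θ h0 h1).1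
theorem mo_one {θ : ℝ} (h0 : 0 < θ) (h1 : θ < 1) : mo θ 1 = 1 := (aMO.1 θ h0 h1).2.1
theorem mo_pos {θ : ℝ} (h0 : 0 < θ) (h1 : θ < 1) (j : ℕ) : 0 < mo θ j := (aMO.1 θ h0 h1).2.2 j

/-- `mo` is nondecreasing in `θ`. -/
theorem mo_mono {θ θ' : ℝ} (h0 : 0 < θ) (h : θ ≤ θ') (h1 : θ' ≤ 1 / 2) (j : ℕ) : mo θ j ≤ mo θ' j := by
  induction j with
  | zero => rw [mo_zero h0 (by linarith), mo_zero (by linarith) (by linarith)]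
  | succ j ih =>
    have hp := mo_pos h0 (by linarith : θ < 1) j
    have hp' := mo_pos (by linarith : 0 < θ') (by linarith : θ' < 1) j
    have hs := mo_pos (by linarith : 0 < θ) (by linarith : θ < 1) (j + 1)
    have hs' := mo_pos (by linarith : 0 < θ') (by linarith : θ' < 1) (j + 1)
    have hr := aMO.2.1 θ θ' h0 h h1 j
    have e1 : mo θ (j + 1) = mo θ (j + 1) / mo θ j * mo θ j := by field_simp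
    have e2 : mo θ' (j + 1) = mo θ' (j + 1) / mo θ' j * mo θ' j := by field_simp
    rw [e1, e2]
    exact mul_le_mul hr ih hp.le (by positivity)

section
variable {θ : ℝ} (h0 : 0 < θ) (h1 : θ < 1 / 2)
include h0 h1

theorem hasDerivAt_f0 (x : ℝ) : HasDerivAt (f0 θ) (-(f1 θ x) / 2) x :=
  (Pool.Agent.Helper69.PT.gSER aMO θ h0 h1).1 x
theorem hasDerivAt_f1 (x : ℝ) : HasDerivAt (f1 θ) (f2 θ x) x :=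
  (Pool.Agent.Helper69.PT.gSER aMO θ h0 h1).2.1 x
theorem hasDerivAt_f2 (x : ℝ) : HasDerivAt (f2 θ) (f3 θ x) x :=
  (Pool.Agent.Helper69.PT.gSER aMO θ h0 h1).2.2.1 x
theorem continuous_f3 : Continuous (f3 θ) := (Pool.Agent.Helper69.PT.gSER aMO θ h0 h1).2.2.2.1
theorem continuous_f0 : Continuous (f0 θ) :=
  continuous_iff_continuousAt.2 fun x => (hasDerivAt_f0 h0 h1 x).continuousAt
theorem continuous_f1 : Continuous (f1 θ) :=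
  continuous_iff_continuousAt.2 fun x => (hasDerivAt_f1 h0 h1 x).continuousAt
theorem continuous_f2 : Continuous (f2 θ) :=
  continuous_iff_continuousAt.2 fun x => (hasDerivAt_f2 h0 h1 x).continuousAt
theorem f0_zero : f0 θ 0 = 1 := (Pool.Agent.Helper69.PT.gSER aMO θ h0 h1).2.2.2.2.1
theorem f1_zero : f1 θ 0 = 1 := (Pool.Agent.Helper69.PT.gSER aMO θ h0 h1).2.2.2.2.2.1
theorem f2_zero : f2 θ 0 = -(mo θ 2) / 6 := (Pool.Agent.Helper69.PT.gSER aMO θ h0 h1).2.2.2.2.2.2.1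
theorem f3_zero : f3 θ 0 = mo θ 3 / 60 := (Pool.Agent.Helper69.PT.gSER aMO θ h0 h1).2.2.2.2.2.2.2

/-- the law (see `GLAW`) -/
theorem aLAW : IsProbabilityMeasure (nu θ) ∧ (∀ᵐ y ∂(nu θ), 0 < y) ∧
  (∀ k : ℕ, Integrable (fun y : ℝ => y ^ k) (nu θ)) ∧ (∀ j : ℕ, ∫ y, y ^ (2 * j) ∂(nu θ) = mo θ j) ∧
  ∫ y, y ^ 3 ∂(nu θ) = m3 θ ∧
  (∀ x, 0 ≤ x → f0 θ x = ∫ y, Real.cos (√x * y) ∂(nu θ) ∧
    f1 θ x = ∫ y, y ^ 2 * Real.sinc (√x * y) ∂(nu θ) ∧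
    f2 θ x = ∫ y, y ^ 4 * k2 (√x * y) ∂(nu θ) ∧ f3 θ x = ∫ y, y ^ 6 * k3 (√x * y) ∂(nu θ) ∧
    f0 θ x = ph (mu (1 / θ)) (√x / sg θ)) ∧
  (∀ l : ℝ, Integrable (fun y => Real.cosh (l * y)) (nu θ) ∧
    ∫ y, Real.cosh (l * y) ∂(nu θ) ≤ Real.exp (l ^ 2 / 2)) :=
  Pool.Agent.Helper60.PT.gLAW aMO Pool.Agent.Helper32.PT.gKER Pool.Agent.Helper89.Pq.gMom θ h0 h1

end

/-- bounds of `f0, f1, f2, f3` (see `GBD`) -/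
theorem aBD {θ : ℝ} (h0 : 0 < θ) (h1 : θ < 1 / 2) {x : ℝ} (hx : 0 ≤ x) :
    |f0 θ x| ≤ 1 ∧ 1 - x / 2 ≤ f0 θ x ∧ f0 θ x ≤ 1 - x / 2 + mo θ 2 * x ^ 2 / 24 ∧
    |f1 θ x| ≤ 1 ∧ √x * |f1 θ x| ≤ 1 ∧ |f2 θ x| ≤ mo θ 2 / 6 ∧ x * |f2 θ x| ≤ 0.55 ∧
    |f3 θ x| ≤ mo θ 3 / 60 ∧ ∀ y, 0 ≤ y → |f3 θ x - f3 θ y| ≤ mo θ 4 / 840 * |x - y| :=
  Pool.Agent.Helper90.PT.gBD aMO Pool.Agent.Helper32.PT.gKER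
    (fun θ h0 h1 => ⟨(aLAW h0 h1).1, (aLAW h0 h1).2.1, (aLAW h0 h1).2.2.1, (aLAW h0 h1).2.2.2.1,
      fun x hx => ⟨((aLAW h0 h1).2.2.2.2.2.1 x hx).1, ((aLAW h0 h1).2.2.2.2.2.1 x hx).2.1,
        ((aLAW h0 h1).2.2.2.2.2.1 x hx).2.2.1, ((aLAW h0 h1).2.2.2.2.2.1 x hx).2.2.2.1⟩⟩)
    θ h0 h1 x hx

/-- convex order -/
theorem aCX {θ θ' : ℝ} (h0 : 0 < θ) (h : θ ≤ θ') (h1 : θ' < 1 / 2) (H : ℝ → ℝ)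
    (hc : ConvexOn ℝ (Ici 0) H) (hH : ContinuousOn H (Ici 0))
    (hg : ∃ (C : ℝ) (N : ℕ), ∀ s, 0 ≤ s → |H s| ≤ C * (1 + s) ^ N) :
    ∫ y, H (y ^ 2) ∂(nu θ) ≤ ∫ y, H (y ^ 2) ∂(nu θ') :=
  Pool.Agent.Helper93.PT.gCX Pool.Agent.Helper89.Pq.gMom θ θ' h0 h h1 H hc hH hg

/-- dependence on `θ` (see `GLIP`) -/
theorem aLIP {θ θ' : ℝ} (h0 : 0 < θ) (h : θ ≤ θ') (h1 : θ' < 1 / 2) {x : ℝ} (hx : 0 ≤ x) :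
    |f0 θ' x - f0 θ x| ≤ x ^ 2 / 24 * (mo θ' 2 - mo θ 2) ∧
    |f0 θ' x - f0 θ x| ≤ 0.146 * (x * √x) * (m3 θ' - m3 θ) ∧
    |f1 θ' x - f1 θ x| ≤ x / 6 * (mo θ' 2 - mo θ 2) ∧
    |f1 θ' x - f1 θ x| ≤ 0.48 * √x * (m3 θ' - m3 θ) ∧
    |f2 θ' x - f2 θ x| ≤ (mo θ' 2 - mo θ 2) / 6 ∧
    |f3 θ' x - f3 θ x| ≤ (mo θ' 3 - mo θ 3) / 60 :=
  Pool.Agent.Helper9.PT.gLIP Pool.Agent.Helper32.PT.gKER
    (fun θ h0 h1 => ⟨(aLAW h0 h1).1, (aLAW h0 h1).2.1, (aLAW h0 h1).2.2.1, (aLAW h0 h1).2.2.2.1,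
      (aLAW h0 h1).2.2.2.2.1,
      fun x hx => ⟨((aLAW h0 h1).2.2.2.2.2.1 x hx).1, ((aLAW h0 h1).2.2.2.2.2.1 x hx).2.1,
        ((aLAW h0 h1).2.2.2.2.2.1 x hx).2.2.1, ((aLAW h0 h1).2.2.2.2.2.1 x hx).2.2.2.1⟩⟩)
    (fun _ _ h0 h h1 H hc hH hg => aCX h0 h h1 H hc hH hg) θ θ' h0 h h1 x hx

/-- the law of `∑ √t_i ε_i Y_i` (see `GLP`) -/
theorem aLP {θ : ℝ} (h0 : 0 < θ) (h1 : θ < 1 / 2) (ι : Type) (S : Finset ι) (t : ι → ℝ)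
    (ht : ∀ i ∈ S, 0 ≤ t i) : ∃ ρ : Measure ℝ, IsProbabilityMeasure ρ ∧
    (∀ ξ : ℝ, ∏ i ∈ S, f0 θ (t i * ξ ^ 2) = ∫ x, Real.cos (ξ * x) ∂ρ) ∧
    Integrable (fun x : ℝ => x ^ 2) ρ ∧ ∫ x, x ^ 2 ∂ρ = ∑ i ∈ S, t i ∧
    ∀ l : ℝ, Integrable (fun x => Real.cosh (l * x)) ρ ∧
      ∫ x, Real.cosh (l * x) ∂ρ ≤ Real.exp (l ^ 2 * (∑ i ∈ S, t i) / 2) :=
  Pool.Agent.Helper59.PT.gLP
    (fun θ h0 h1 => ⟨(aLAW h0 h1).1, (aLAW h0 h1).2.1, (aLAW h0 h1).2.2.1, (aLAW h0 h1).2.2.2.1,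
      fun x hx => ((aLAW h0 h1).2.2.2.2.2.1 x hx).1, (aLAW h0 h1).2.2.2.2.2.2⟩)
    (fun θ h0 h1 => mo_one h0 (by linarith)) θ h0 h1 ι S t ht

/-- sampling formula for `G` (see `GHS`) -/
theorem aHS {θ : ℝ} (h0 : 0 < θ) (h1 : θ < 1 / 2) {n : ℕ} (t : Fin n → ℝ) (ht : Sx t) :
    IntegrableOn (fun ξ => (1 - PP θ t ξ) / ξ ^ 2) (Ioi 0) ∧ (∀ ξ, |PP θ t ξ| ≤ 1) ∧
    Summable (fun i : ℕ => PP θ t (i + 1) / ((i : ℝ) + 1) ^ 2) ∧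
    G θ t ≤ Real.pi ^ 2 / 6 + 1 / 4 - ∑' i : ℕ, PP θ t (i + 1) / ((i : ℝ) + 1) ^ 2 ∧
    Real.pi ^ 2 / 6 + 1 / 4 - ∑' i : ℕ, PP θ t (i + 1) / ((i : ℝ) + 1) ^ 2 - 1e-7 ≤ G θ t :=
  Pool.Agent.Helper39.PT.gHS (fun _ h0 h1 ι S t ht => aLP h0 h1 ι S t ht) θ h0 h1 n t ht

theorem aTAIL {θ : ℝ} (h0 : 1 / 4 ≤ θ) (h1 : θ < 1 / 2) {x : ℝ} (hx : 0 < x) :
    |f0 θ x| ≤ AA θ 0 (tk θ x) ∧ |f0 θ x| ≤ AB θ 0 (tk θ x) ∧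
    |f1 θ x| ≤ AA θ 1 (tk θ x) * tk θ x / x ∧ |f1 θ x| ≤ AB θ 1 (tk θ x) * tk θ x / x ∧
    |f2 θ x| ≤ (AA θ 2 (tk θ x) + AA θ 1 (tk θ x) / tk θ x) * tk θ x ^ 2 / (2 * x ^ 2) ∧
    |f2 θ x| ≤ (AB θ 2 (tk θ x) + AB θ 1 (tk θ x) / tk θ x) * tk θ x ^ 2 / (2 * x ^ 2) :=
  Pool.Agent.Helper40.PT.gTAIL Pool.Agent.Helper87.PT.gROT
    (fun θ h0 h1 => ⟨hasDerivAt_f0 h0 h1, hasDerivAt_f1 h0 h1,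
      fun x hx => ((aLAW h0 h1).2.2.2.2.2.1 x hx).2.2.2.2⟩) θ h0 h1 x hx

theorem aDec : Dec :=
  Pool.Agent.Helper40.PT.gDec (fun _ h0 h1 _ hx => aTAIL h0 h1 hx)
    (fun _ h0 h1 _ hx => (aBD h0 h1 hx).2.2.2.1)

/-- existence of minimisers and the first order condition (see `GDER`) -/
theorem aDER {θ : ℝ} (h0 : 1 / 4 ≤ θ) (h1 : θ < 1 / 2) (n : ℕ) :
    (0 < n → ∃ t : Fin n → ℝ, Sx t ∧ ∀ s : Fin n → ℝ, Sx s → G θ t ≤ G θ s) ∧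
    ∀ (t : Fin n → ℝ), Sx t → (∀ s : Fin n → ℝ, Sx s → G θ t ≤ G θ s) → ∀ i j : Fin n, t j < t i →
      IntegrableOn (fun ξ => (f1 θ (t i * ξ ^ 2) * f0 θ (t j * ξ ^ 2) -
      f0 θ (t i * ξ ^ 2) * f1 θ (t j * ξ ^ 2)) * ∏ l ∈ (Finset.univ.erase i).erase j, f0 θ (t l * ξ ^ 2))
        (Ioi 0) ∧ K θ t i j ≤ 0 :=
  Pool.Agent.Helper42.PT.gDER aDec
    (fun θ h0 h1 => ⟨hasDerivAt_f0 h0 h1, hasDerivAt_f1 h0 h1, f0_zero h0 h1, f1_zero h0 h1⟩)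
    (fun _ h0 h1 _ hx => ⟨(aBD h0 h1 hx).1, (aBD h0 h1 hx).2.1, (aBD h0 h1 hx).2.2.2.1⟩) θ h0 h1 n

theorem aPAIR {θ : ℝ} (h0 : 0 < θ) (h1 : θ < 1 / 2) {a b : ℝ} (ha : 0 ≤ a) (hb : 0 ≤ b) :
    IntegrableOn (fun ξ => (1 - f0 θ (a * ξ ^ 2) * f0 θ (b * ξ ^ 2)) / ξ ^ 2) (Ioi 0) ∧
    ∫ ξ in Ioi (0 : ℝ), (1 - f0 θ (a * ξ ^ 2) * f0 θ (b * ξ ^ 2)) / ξ ^ 2 =
      Real.pi / 2 / sg θ * (a ^ (1 / (2 * θ)) + b ^ (1 / (2 * θ))) ^ θ :=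
  Pool.Agent.Helper79.PT.gPAIR Pool.Agent.Helper65.Pq.gC0
    (fun θ h0 h1 x hx => ((aLAW h0 h1).2.2.2.2.2.1 x hx).2.2.2.2) θ h0 h1 a b ha hb

theorem aSTIR {z w : ℝ} (hz : 32 ≤ z) (hw : 32 ≤ w) :
    |Real.log (Real.Gamma z) - Real.log (Real.Gamma w) - (Lam z - Lam w)| ≤ z⁻¹ ^ 17 + w⁻¹ ^ 17 :=
  Pool.Agent.Helper74.PT.gSTIR z w hz hw

end Pool.Agent.Helper53.PT
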