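import Pool.Agent.Helper53.PT.GoalsD

/-!
# MP_705522_gt, `q ∈ (2,4)`: assembly of the facts about the tables
-/

namespace Pool.Agent.Helper53.PT

open MeasureTheory Set Filter Topology

attribute [local irreducible] N.tPL N.tPU N.tSL N.tSU N.tTL N.tTU N.tST N.tU0 N.tU1 N.tU2 N.tP1 N.tI1 N.tI2
  N.tRH N.tRI N.tLU N.tLL N.tF N.tN0 N.tSG N.tW N.fld N.fld6 N.xgN N.shf

theorem tf_of (hSQ : GSQ) (hEXP : GEXP) (hLN : GLN) (hPOW : GPOW) (hFLD : GFLD) (hGRID : GGRID)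
    (hTB : GTB) (hIXP : GIXP) (hCHF : GCHF) (hUF : GUF) (hFAN : GFAN) (hINT : GINT) (hTAY : GTAY)
    (hFST : GFST) (hIVN : GIVN) (hKAV : GKAV) (hLAM : GLAM) (hSGN : GSGN) (hTNN : GTNN)
    {A : ℕ} {B : N.Base} {I : N.Ix} {θ : ℝ} (hb : BaseFacts A B θ)
    (hix : N.ixOK (N.mkTab B I) = true) : ∃ z, TF (N.mkTab B I) θ z := by
  have tb := hTB hSQ hFLD hGRID A B θ hb
  have ix := hIXP hFLD B I hix
  have ch := hCHF hFLD hGRID A B θ hb tb
  have uf := hUF hFLD hGRID A B I θ hb tb ix ch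
  obtain ⟨⟨z, fa, zl, zr⟩, ni, n0⟩ := hFAN hFLD hGRID A B I θ hb tb ix ch
  have th : TH A B I θ z := ⟨hb, tb, ix, ch, uf, fa, zl, zr, n0⟩
  have i1 := hINT hSQ hFLD hGRID A B I θ z th
  have i2 := hTAY hSQ hFLD hGRID A B I θ z th
  have i3 := hFST hEXP hPOW hGRID hINT hSQ hFLD A B I θ z th
  have i4 := hIVN hFLD hGRID A B I θ z th
  have i5 := hKAV hFLD hGRID A B I θ z th
  have i6 := hLAM hLN hFLD hGRID A B I θ z th
  have i7 := hSGN hLN hEXP hPOW hSQ hFLD hGRID hINT hFST A B I θ z th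
  have i8 := hTNN hTAY hSQ hFLD hGRID hPOW A B I θ z th
  have anti : ∀ k j, k + j ≤ 1152 → N.fld (N.tU0 B) (k + j) ≤ N.fld (N.tU0 B) k := by
    intro k j
    induction j with
    | zero => intro _; exact le_refl _
    | succ j ih => intro h; exact (uf.a0 (k + j) (by omega)).trans (ih (by omega))
  have mono : ∀ k, k ≤ 1152 → B.c0 ≤ N.fld (N.tU0 B) k := by
    intro k hk
    have h := anti k (1152 - k) (by omega)
    rw [show k + (1152 - k) = 1152 by omega, uf.e0] at h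
    exact h
  refine ⟨z, ?_⟩
  exact
    { th0 := hb.th0
      th1 := hb.th1
      fa := fa
      zl := zl
      zr := zr
      i1 := ⟨ix.z1, ix.z7, ix.kzR, ix.RM, ix.MN, ix.N1⟩
      i2 := ⟨ix.RW, ix.WN, ix.RD, ix.DN, ix.W9⟩
      fp := hb.fp
      gn := ⟨ix.g0, ix.g1⟩
      cp := ⟨ix.c0, i7.1.2.1, ix.c1, ix.c1', ix.c2, ix.c2'⟩
      gc := i7.1.1
      cc := i7.1.2.2
      ni := ni
      up0 := i1.1
      lo0 := i1.2.1
      tay := fun p x hp hx => by
        obtain ⟨v, e, h1, h2⟩ := i2 p x hp hx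
        exact ⟨v, e, h1, by have : (0 : ℝ) ≤ 2 / 2 ^ 40 := by positivity
                            linarith⟩
      p1 := i1.2.2
      u0 := uf.u0
      u1 := uf.u1
      u2 := uf.u2
      uc := mono
      mM := ix.M1
      mb := i3.1
      fst := i3.2.1
      pos := i3.2.2.1
      av1 := i4.2.1
      av2 := i4.2.2
      fm := i4.1
      kav := i5.1
      rh0 := i5.2
      lam := i6.1
      ell := i6.2
      sig := i7.2.1
      sgS := i7.2.2.1
      s11 := i7.2.2.2.1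
      s23 := ⟨i7.2.2.2.2.1, i7.2.2.2.2.2⟩
      uu := i3.2.2.2.1
      n0 := i3.2.2.2.2
      tn := i8 }

end Pool.Agent.Helper53.PT
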