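import Pool.Agent.Helper53.PT.AsmC

/-!
# MP_705522_gt, `q ∈ (2,4)`: assembly of the soundness of the checker
-/

namespace Pool.Agent.Helper53.PT

open MeasureTheory Set Filter Topology

theorem chk_split {B : N.Base} {I : N.Ix} {cs : List N.Cl} (h : N.chk B I cs = true) :
    N.ixOK (N.mkTab B I) = true ∧ N.smOK (N.mkTab B I) = true ∧ N.clAll (N.mkTab B I) cs 3 = true := by
  unfold N.chk at h
  cases h1 : N.ixOK (N.mkTab B I) with
  | false => rw [h1] at h; exact absurd h (by simp)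
  | true =>
    cases h2 : N.smOK (N.mkTab B I) with
    | false => rw [h1, h2] at h; exact absurd h (by simp)
    | true =>
      rw [h1, h2] at h
      exact ⟨rfl, rfl, h⟩

/-- Soundness of `chk`. -/
theorem gt_of_chk (hTF : ∀ {A : ℕ} {B : N.Base} {I : N.Ix} {θ : ℝ}, BaseFacts A B θ →
      N.ixOK (N.mkTab B I) = true → ∃ z, TF (N.mkTab B I) θ z)
    (hCLS : ∀ (D : N.Tab) (θ z : ℝ), TF D θ z → N.smOK D = true →
      (∀ c : N.Cl, N.clOK D c = true → ∀ n : ℕ, 3 ≤ n → (c.n = n ∨ (c.n = 0 ∧ 2 ≤ c.NM ∧ c.NM ≤ n)) →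
        ∀ t : Fin n → ℝ, IsMinT θ t → Good t) ∧
      (∀ cs : List N.Cl, N.clAll D cs 3 = true → GT θ))
    {A : ℕ} {B : N.Base} {I : N.Ix} {cs : List N.Cl} {θ : ℝ} (hb : BaseFacts A B θ)
    (h : N.chk B I cs = true) : GT θ := by
  obtain ⟨h1, h2, h3⟩ := chk_split h
  obtain ⟨z, hz⟩ := hTF hb h1
  exact (hCLS _ θ z hz h2).2 cs h3

end Pool.Agent.Helper53.PT
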