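import Pool.Agent.Helper53.PT.GoalsB

/-!
# MP_705522_gt, `q ∈ (2,4)`: goals, part B, two improved forms
-/

namespace Pool.Agent.Helper53.PT

open MeasureTheory Set Filter Topology

/-- (KTAIL2).  As `GKTAIL`, with `S/a1` replaced by `D`: `(I x - I y) ξ² ≤ D (x - y)` for `x = aξ²`,
`y = bξ²`, `ξ ≥ ξs`, because either `I x - I y ≤ (S/x)(x-y)` and `ξ²/x ≤ 1/a1`, or (slopes of concave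
functions, `x ≥ a1 ξ²`, `y ≥ b1 ξ²`) `(I x - I y)/(x-y) ≤ (I(a1ξ²) - I(b1ξ²))/((a1-b1)ξ²) ≤
(S - I(b1ξs²))/((a1-b1)ξ²)`. -/
def GKTAIL2 : Prop := GSIG → ∀ θ z m xW xD yN g c0 c1 c2 S1 S2 : ℝ, ∀ I1 I2 : ℝ → ℝ,
  FA θ z m xW xD yN → FP θ g c0 c1 c2 → FM θ I1 I2 S1 S2 → 0 < c0 → 0 ≤ c1 → g ≤ -Real.log c0 →
  (∀ y, 0 ≤ y → y ≤ 64 → |f0 θ y| ≤ Real.exp (Real.log c0 / 64 * y)) →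
  ∀ (n : ℕ) (t : Fin n → ℝ) (i j : Fin n) (a1 b1 ξs Ra d0 d1 D1 D2 T : ℝ), Sx t → t j < t i →
  (∀ l, t l ≤ t i ∧ t j ≤ t l) → 0 < a1 → a1 ≤ t i → 0 ≤ b1 → b1 ≤ t j → 0 ≤ Ra → Ra * t i ≤ 1 - t i - t j →
  0 < ξs → 64 ≤ a1 * ξs ^ 2 → c0 * (64 / (a1 * ξs ^ 2)) ^ g ≤ d0 →
  c1 * (64 / (a1 * ξs ^ 2)) ^ (g + 1) ≤ d1 → 0 < d0 →
  (S1 ≤ D1 * a1 ∨ (b1 < a1 ∧ S1 - I1 (b1 * ξs ^ 2) ≤ D1 * (a1 - b1))) →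
  (S2 ≤ D2 * a1 ∨ (b1 < a1 ∧ S2 - I2 (b1 * ξs ^ 2) ≤ D2 * (a1 - b1))) → 0 ≤ D1 → 0 ≤ D2 →
  1 < 2 * g * (1 + Ra) → (d1 * D1 / 2 + d0 * D2) * d0 ^ Ra * ξs ≤ T * (2 * g * (1 + Ra) - 1) →
  IntegrableOn (KI θ t i j) (Ioi ξs) ∧ -((t i - t j) * T) ≤ ∫ ξ in Ioi ξs, KI θ t i j ξ

/-- (E2P2): near the pair, replaces `GE2P` (same proof).  Changes: `U16` is only needed as a lower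
bound `-U16 ≤ P(ξ)`, `ξ ≥ 16`; the far region (iv) is absent if `f0 < 0` on `[m,∞)` (then `P > 0` as soon
as `cξ² > z`), and otherwise the bound of `∫_{ξ5}^{ξ6} |P|` uses four steps `ξ5 ≤ ξ7 ≤ ξ8 ≤ ξ9 ≤ ξ6`. -/
def GE2P2 : Prop := GRL → GHG → GPROD → ∀ θ z m xW xD yN g c0 c1 c2 : ℝ, FA θ z m xW xD yN → FP θ g c0 c1 c2 →
  ∀ (n : ℕ) (t : Fin n → ℝ) (i k : Fin n) (a1 a2 e0 M Pm w2 P3 J1 J2 J3 U16 V2u ξ1 ξ2 ξ3 : ℝ) (L : ℕ → ℝ),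
  Sx t → i ≠ k → (∀ l, t l ≤ t i) → 0 < a1 → a1 ≤ t i → t i ≤ a2 → 0 < 1 - t i - t k → 1 - t i - t k ≤ e0 →
  e0 ≤ 0.102 → e0 ≤ a1 → 0 < 1 - a2 - e0 →
  (∀ y, z ≤ y → |f0 θ y| ≤ M) → M ≤ 1 →
  0 < ξ1 → a2 * ξ1 ^ 2 ≤ z → ξ1 ≤ ξ2 → z ≤ (1 - a2 - e0) * ξ2 ^ 2 → a2 * ξ2 ^ 2 ≤ yN →
  0 < ξ3 → e0 * ξ3 ^ 2 ≤ z →
  w2 * (e0 * ξ2 ^ 2) ≤ 1 - Real.exp (-(e0 * ξ2 ^ 2) / 2) →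
  (∀ ξ, ξ1 ≤ ξ → ξ ≤ ξ2 → t k * ξ ^ 2 ≤ z → z ≤ t i * ξ ^ 2 → |f0 θ (t i * ξ ^ 2) * f0 θ (t k * ξ ^ 2)| ≤ Pm) →
  (1 / 2 - w2) * (ξ2 - ξ1) * Pm ≤ J1 → 0 ≤ J2 → 0 ≤ J3 →
  (((∀ x, m ≤ x → f0 θ x < 0) ∧
      (∀ ξ, ξ3 ≤ ξ → |f0 θ (t i * ξ ^ 2) * f0 θ (t k * ξ ^ 2)| ≤ P3) ∧ M * P3 ≤ J3 * (e0 * ξ3)) ∨
   ∃ ξ5 ξ6 ξ7 ξ8 ξ9 P5 P7 P8 P9 : ℝ, ξ2 ≤ ξ5 ∧ a2 * ξ5 ^ 2 ≤ yN ∧ ξ5 ≤ ξ7 ∧ ξ7 ≤ ξ8 ∧ ξ8 ≤ ξ9 ∧ ξ9 ≤ ξ6 ∧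
    64 ≤ (1 - a2 - e0) * ξ6 ^ 2 ∧
    (ξ5 ≤ ξ3 ∨ ((∀ ξ, ξ3 ≤ ξ → |f0 θ (t i * ξ ^ 2) * f0 θ (t k * ξ ^ 2)| ≤ P3) ∧ M * P3 ≤ J3 * (e0 * ξ3))) ∧
    (∀ ξ, ξ5 ≤ ξ → |f0 θ (t i * ξ ^ 2) * f0 θ (t k * ξ ^ 2)| ≤ P5) ∧
    (∀ ξ, ξ7 ≤ ξ → |f0 θ (t i * ξ ^ 2) * f0 θ (t k * ξ ^ 2)| ≤ P7) ∧
    (∀ ξ, ξ8 ≤ ξ → |f0 θ (t i * ξ ^ 2) * f0 θ (t k * ξ ^ 2)| ≤ P8) ∧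
    (∀ ξ, ξ9 ≤ ξ → |f0 θ (t i * ξ ^ 2) * f0 θ (t k * ξ ^ 2)| ≤ P9) ∧
    (P5 * (ξ7 - ξ5) + P7 * (ξ8 - ξ7) + P8 * (ξ9 - ξ8) + P9 * (ξ6 - ξ9) + c0 ^ 2 * ξ6 / (4 * g - 1)) / 2 ≤ J2) →
  (∀ ξ, 16 ≤ ξ → -U16 ≤ f0 θ (t i * ξ ^ 2) * f0 θ (t k * ξ ^ 2)) → 0 ≤ U16 →
  (∀ l : ℕ, 1 ≤ l → l ≤ 15 → L l ≤ f0 θ (t i * (l : ℝ) ^ 2) * f0 θ (t k * (l : ℝ) ^ 2) *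
    ((1 - Real.exp (-(e0 * (l : ℝ) ^ 2) / 2)) / (e0 * (l : ℝ) ^ 2))) →
  G θ ![(1 / 2 : ℝ), 1 / 2] ≤ V2u →
  V2u < (1 / 4 + ∑ l ∈ Finset.Icc 1 15, L l - U16 / (15.5 * e0) - 5e-7 / e0 - J1 - J2 - J3) * (1 + √(1 - e0)) →
  ¬ IsMinT θ t

/-- (NI): `f0 < 0` on `[64,∞)`.  From `Helper40.PT.TAIL` (`f0 = Re Ik/Nn`, `main`, `ph_eq`) and `GROT` (second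
inequality, `k = 0`): `Nn f0(x) ≤ cos(π(q-1)/2) Γ(q-1) t^(-(q-1)) + Γ(2q-1) (t sin(π/(2q)))^(-(2q-1))`,
`t = tk θ x`, and `cos(π(q-1)/2) ≤ -(1 - 1.2338 (q-3)²)` (`cos u ≥ 1 - u²/2`, `u = π(3-q)/2`, `π²/8 ≤ 1.2338`).
The ratio of the second to the first term decreases with `t`. -/
def GNI : Prop := ∀ θ : ℝ, 1 / 4 ≤ θ → θ < 1 / 2 →
  Real.Gamma (2 / θ - 1) * (tk θ 64 * Real.sin (Real.pi * θ / 2)) ^ (-(2 / θ - 1)) <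
    (1 - 1.2338 * (1 / θ - 3) ^ 2) * Real.Gamma (1 / θ - 1) * tk θ 64 ^ (-(1 / θ - 1)) →
  ∀ x, 64 ≤ x → f0 θ x < 0

end Pool.Agent.Helper53.PT
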