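import Pool.Agent.Helper53.PT.Chk
import Pool.Agent.Helper53.PT.GoalsB2

/-!
# MP_705522_gt, `q ∈ (2,4)`: facts about the base data of one `θ` cell

`B : N.Base` is the data of the cell `[(A-h)/8192, (A+h)/8192]`.
-/

namespace Pool.Agent.Helper53.PT

/-- arguments: scale `2^26` -/
noncomputable def aR (x : ℕ) : ℝ := (x : ℝ) / 2 ^ 26

/-- values: scale `2^40` -/
noncomputable def vR (v : ℕ) : ℝ := (v : ℝ) / 2 ^ 40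

/-- the grid -/
noncomputable def xR (k : ℕ) : ℝ := aR (N.xgN k)

/-- What is known about `B` at `θ`; `A/8192` is the centre, `B.T0, B.T1, B.T2` are the tables of
`f0, f1, f2` at the centre. -/
structure BaseFacts (A : ℕ) (B : N.Base) (θ : ℝ) : Prop where
  th0 : 1 / 4 ≤ θ
  th1 : θ < 1 / 2
  tc0 : 1 / 4 ≤ (A : ℝ) / 8192
  tc1 : (A : ℝ) / 8192 < 1 / 2
  h1 : B.h ≤ 64
  t0 : ∀ k, k ≤ 1152 → |f0 ((A : ℝ) / 8192) (xR k) - (vR (N.fld B.T0 k) - 1)| ≤ 2⁻¹ ^ 38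
  t1 : ∀ k, k ≤ 1152 → |f1 ((A : ℝ) / 8192) (xR k) - (vR (N.fld B.T1 k) - 1)| ≤ 2⁻¹ ^ 38
  t2 : ∀ k, k ≤ 1152 → |f2 ((A : ℝ) / 8192) (xR k) - (vR (N.fld B.T2 k) - 1)| ≤ 2⁻¹ ^ 38
  l0 : ∀ x, 0 ≤ x → |f0 θ x - f0 ((A : ℝ) / 8192) x| ≤ x ^ 2 / 24 * vR B.dm2 ∧
    |f0 θ x - f0 ((A : ℝ) / 8192) x| ≤ 0.146 * (x * √x) * vR B.dm3 ∧
    |f0 θ x - f0 ((A : ℝ) / 8192) x| ≤ (B.h : ℝ) / 512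
  l1 : ∀ x, 0 ≤ x → |f1 θ x - f1 ((A : ℝ) / 8192) x| ≤ x / 6 * vR B.dm2 ∧
    |f1 θ x - f1 ((A : ℝ) / 8192) x| ≤ 0.48 * √x * vR B.dm3 ∧
    √x * |f1 θ x - f1 ((A : ℝ) / 8192) x| ≤ (B.h : ℝ) / 512
  l2 : ∀ x, 0 ≤ x → |f2 θ x - f2 ((A : ℝ) / 8192) x| ≤ vR B.dm2 / 6 ∧
    x * |f2 θ x - f2 ((A : ℝ) / 8192) x| ≤ 8.8 * √(vR B.m2R) * ((B.h : ℝ) / 8192)
  m2 : mo θ 2 ≤ vR B.m2R ∧ mo ((A : ℝ) / 8192) 2 ≤ vR B.m2R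
  m3 : mo θ 3 ≤ vR B.m3R ∧ mo ((A : ℝ) / 8192) 3 ≤ vR B.m3R
  m4 : mo θ 4 ≤ vR B.m4R ∧ mo ((A : ℝ) / 8192) 4 ≤ vR B.m4R
  fp : FP θ ((B.gn : ℝ) / 32) (vR B.c0) (vR B.c1) (vR B.c2)
  ni : B.ni = true → ∀ x, 64 ≤ x → f0 θ x < 0

end Pool.Agent.Helper53.PT
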