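import Pool.Agent.Helper53.PT.A

/-!
# MP_705522_gt, `q ∈ (2,4)`: definitions, part B (facts about `f0, f1`, bounds of products)
-/

namespace Pool.Agent.Helper53.PT

open MeasureTheory Set Filter Topology

/-- `f1/f0`. -/
noncomputable def rr (θ x : ℝ) : ℝ := f1 θ x / f0 θ x

/-- `rr' = Wf/f0²`. -/
noncomputable def Wf (θ x : ℝ) : ℝ := f1 θ x ^ 2 / 2 + f0 θ x * f2 θ x

/-- the kernel -/
noncomputable def kr (θ x y : ℝ) : ℝ := f1 θ x * f0 θ y - f0 θ x * f1 θ y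

/-- `-log f0 - x/2` -/
noncomputable def lam (θ x : ℝ) : ℝ := -Real.log (f0 θ x) - x / 2

/-- the integrand of `K` -/
noncomputable def KI (θ : ℝ) {n : ℕ} (t : Fin n → ℝ) (i j : Fin n) (ξ : ℝ) : ℝ :=
  kr θ (t i * ξ ^ 2) (t j * ξ ^ 2) * ∏ l ∈ (Finset.univ.erase i).erase j, f0 θ (t l * ξ ^ 2)

/-- `t` is a minimiser of `G` on the simplex -/
def IsMinT (θ : ℝ) {n : ℕ} (t : Fin n → ℝ) : Prop := Sx t ∧ ∀ s : Fin n → ℝ, Sx s → G θ t ≤ G θ s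

/-- main diagonal or pair -/
def Good {n : ℕ} (t : Fin n → ℝ) : Prop :=
  (∀ i, t i = 1 / (n : ℝ)) ∨ ∃ i j, i ≠ j ∧ t i = 1 / 2 ∧ t j = 1 / 2 ∧ ∀ l, l ≠ i → l ≠ j → t l = 0

/-- THE statement to be proved for every `θ ∈ [1/4,1/2)`. -/
def GT (θ : ℝ) : Prop := ∀ n : ℕ, 2 ≤ n → ∀ t : Fin n → ℝ, IsMinT θ t → Good t

/-- Facts: `z` is the first zero of `f0`, `f1 > 0` on `[0,m)`, `Wf > 0` on `[0,xW]`, `f0 < f1` on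
`(0,xD]`, `f0 < 0` on `(z,yN]`. -/
structure FA (θ z m xW xD yN : ℝ) : Prop where
  th0 : 1 / 4 ≤ θ
  th1 : θ < 1 / 2
  z0 : 0 < z
  zm : z < m
  fz : f0 θ z = 0
  s1 : ∀ x, 0 ≤ x → x < m → 0 < f1 θ x
  W : ∀ x, 0 ≤ x → x ≤ xW → 0 < Wf θ x
  zW : z ≤ xW
  D : ∀ x, m ≤ x → x ≤ xD → f0 θ x < f1 θ x
  zD : z ≤ xD
  N : ∀ x, m ≤ x → x ≤ yN → f0 θ x < 0
  mN : m ≤ yN
  WN : xW ≤ yN
  DN : xD ≤ yN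

/-- Condition for `τ` to be an upper bound of the mean of `j` out of `N` nonnegative numbers
(`N = 0`: the number is not known) which are at most `cap`, with sum in `[m0,m1]` and sum of squares
at most `Q`. -/
def TauOK (N j : ℕ) (cap m0 m1 Q τ : ℝ) : Prop :=
  cap ≤ τ ∨ m1 ≤ j * τ ∨ Q ≤ j * τ ^ 2 ∨
  (j < N ∧ j * Q ≤ m0 ^ 2 ∧ m0 ≤ N * τ ∧ ((N : ℝ) - j) * (N * Q - m0 ^ 2) ≤ j * (N * τ - m0) ^ 2)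

/-- Condition for `U` to bound the product of the `j` factors with argument `> z`: their mean is in
`[yl,Y1]`, the largest is at least `yu`, all are at most `x1`. -/
def UOK (θ z xW : ℝ) (j : ℕ) (yl yu Y1 x1 U : ℝ) : Prop :=
  (j = 1 ∧ ∀ y, z ≤ y → yu ≤ y → y ≤ Y1 → |f0 θ y| ≤ U) ∨
  (∃ M B : ℝ, (∀ y, z ≤ y → |f0 θ y| ≤ M) ∧ (∀ y, z ≤ y → yu ≤ y → |f0 θ y| ≤ B) ∧ M ^ (j - 1) * B ≤ U) ∨
  (x1 ≤ xW ∧ ∃ F : ℝ, (∀ y, z ≤ y → yl ≤ y → y ≤ Y1 → |f0 θ y| ≤ F) ∧ F ^ j ≤ U)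

/-- Condition for `P` to bound the product of the other `N - j` factors (arguments in `[0,z]`, sum of
the arguments at least `μ X0`). -/
def POK (θ z : ℝ) (N j : ℕ) (μ X0 P : ℝ) : Prop :=
  Real.exp (-(μ * X0) / 2) ≤ P ∨ 1 ≤ P ∨
  (j < N ∧ ∃ p : ℝ, 0 ≤ p ∧ (∀ y, 0 ≤ y → μ * X0 ≤ ((N : ℝ) - j) * y → y < z → f0 θ y ≤ p) ∧
    p ^ (N - j) ≤ P)

/-- `B` bounds the products `∏_{i∈S} f0(s_i X)`, `X ∈ [X0,X1]`, from below by `-B` and, if `al`,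
in absolute value: `S` has `N` elements (any number if `N = 0`), `0 ≤ s_i ≤ cap`, `s_i X ≤ x1`,
`∑ s_i ∈ [m0,m1]`, `∑ s_i² ≤ Q`, and some `s_i ≥ ul` unless all `s_i` vanish. -/
def RestB (θ : ℝ) (N : ℕ) (cap m0 m1 Q ul X0 X1 x1 : ℝ) (al : Prop) (B : ℝ) : Prop :=
  ∀ (n : ℕ) (S : Finset (Fin n)) (s : Fin n → ℝ) (X : ℝ), (N = 0 ∨ S.card = N) →
  (∀ i ∈ S, 0 ≤ s i ∧ s i ≤ cap ∧ s i * X ≤ x1) → m0 ≤ ∑ i ∈ S, s i → ∑ i ∈ S, s i ≤ m1 →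
  ∑ i ∈ S, s i ^ 2 ≤ Q → (0 < ∑ i ∈ S, s i → ∃ i ∈ S, ul ≤ s i) → X0 ≤ X → X ≤ X1 →
  -B ≤ ∏ i ∈ S, f0 θ (s i * X) ∧ (al → |∏ i ∈ S, f0 θ (s i * X)| ≤ B)

/-- Power decay beyond `64`. -/
structure FP (θ g c0 c1 c2 : ℝ) : Prop where
  g0 : 1 / 2 ≤ g
  g1 : g ≤ 1
  p0 : ∀ x, 64 ≤ x → |f0 θ x| ≤ c0 * (64 / x) ^ g
  p1 : ∀ x, 64 ≤ x → |f1 θ x| ≤ c1 * (64 / x) ^ (g + 1)
  p2 : ∀ x, 64 ≤ x → |f2 θ x| ≤ c2 * (64 / x) ^ (g + 1)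

/-- Majorants of the variation: `|f0(y) - f0(x)| ≤ (I1 x - I1 y)/2`, `|f1(y) - f1(x)| ≤ I2 x - I2 y`
(`I1`, `I2` the integrals of nonincreasing majorants of `|f1|`, `|f2|`). -/
structure FM (θ : ℝ) (I1 I2 : ℝ → ℝ) (S1 S2 : ℝ) : Prop where
  i1 : I1 0 = 0
  i2 : I2 0 = 0
  c1 : ConcaveOn ℝ (Ici 0) I1
  c2 : ConcaveOn ℝ (Ici 0) I2
  m1 : MonotoneOn I1 (Ici 0)
  m2 : MonotoneOn I2 (Ici 0)
  b1 : ∀ x, 0 ≤ x → I1 x ≤ S1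
  b2 : ∀ x, 0 ≤ x → I2 x ≤ S2
  h1 : ∀ x y, 0 ≤ y → y ≤ x → |f0 θ y - f0 θ x| ≤ (I1 x - I1 y) / 2
  h2 : ∀ x y, 0 ≤ y → y ≤ x → |f1 θ y - f1 θ x| ≤ I2 x - I2 y

/-- the constants of `GTAIL` at `x` -/
noncomputable def ct (θ : ℝ) (k : ℕ) (x : ℝ) : ℝ :=
  if k = 0 then AA θ 0 (tk θ x) else if k = 1 then AA θ 1 (tk θ x) * tk θ x / x
  else (AA θ 2 (tk θ x) + AA θ 1 (tk θ x) / tk θ x) * tk θ x ^ 2 / (2 * x ^ 2)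

end Pool.Agent.Helper53.PT
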