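import Mathlib.Init

/-!
# MP_705522_gt, `q ∈ (2,4)`: the checker (functions on `Nat`, evaluated by the kernel)

Values are represented at scale `2^40`, arguments (`x`, `y`, coordinates `a`, `b`, sums of coordinates)
at scale `2^26`.  Table entries: field `k` of `T` is `(T >>> (44 k)) % 2^44`.  Tables of `f0, f1, f2` hold
`(value + 1) 2^40`.
Everything is written with recursors, `cond` and the `Nat` operations that the kernel evaluates fast.
Only numbers with varying low 32 bits are bound (the kernel hashes literals by these).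
-/

namespace Pool.Agent.Helper53.PT.N

def mx (a b : Nat) : Nat := cond (Nat.ble a b) b a
def mn (a b : Nat) : Nat := cond (Nat.ble a b) a b

/-- evaluate the argument first -/
def frc {α : Type} (n : Nat) (f : Nat → α) : α := Nat.rec (f 0) (fun m _ => f (Nat.succ m)) n

/-- field `k` -/
def fld (T k : Nat) : Nat := Nat.mod (Nat.shiftRight T (Nat.mul 44 k)) 17592186044416
/-- 56 bit fields -/
def fld6 (T k : Nat) : Nat := Nat.mod (Nat.shiftRight T (Nat.mul 56 k)) 72057594037927936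

/-- table of `f 0, .., f (n-1)` -/
def build (f : Nat → Nat) (n : Nat) : Nat :=
  Nat.rec 0 (fun k ih => Nat.add ih (Nat.shiftLeft (f k) (Nat.mul 44 k))) n

/-- suffix maxima: field `n` is `top`, field `k` is `max (field (k+1)) (f k)` -/
def scanMax (f : Nat → Nat) (top n : Nat) : Nat :=
  Nat.rec top (fun j ih => Nat.add (Nat.shiftLeft ih 44)
    (mx (Nat.mod ih 17592186044416) (f (Nat.sub (Nat.sub n 1) j)))) n

def scanMin (f : Nat → Nat) (top n : Nat) : Nat :=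
  Nat.rec top (fun j ih => Nat.add (Nat.shiftLeft ih 44)
    (mn (Nat.mod ih 17592186044416) (f (Nat.sub (Nat.sub n 1) j)))) n

/-- prefix sums (56 bit fields): field `0` is `0`, field `k+1` is `field k + f k` -/
def scanSum (f : Nat → Nat) (n : Nat) : Nat :=
  Nat.rec 0 (fun k ih => Nat.add ih (Nat.shiftLeft (Nat.add (Nat.shiftRight ih (Nat.mul 56 k)) (f k))
    (Nat.mul 56 (Nat.succ k)))) n

/-- prefix minima (and `c`): field `k` is the minimum of `c`, `f 0, .., f k` -/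
def scanPre (f : Nat → Nat) (c n : Nat) : Nat :=
  Nat.rec 0 (fun j ih => Nat.add ih (Nat.shiftLeft
    (mn (cond (Nat.beq j 0) c (Nat.shiftRight ih (Nat.mul 44 (Nat.sub j 1)))) (f j)) (Nat.mul 44 j))) n

/-- all of `p 0, .., p (n-1)` -/
def allB (p : Nat → Bool) (n : Nat) : Bool := Nat.rec true (fun k ih => cond (p k) ih false) n

/-! ### grid: `k/512` to `1/2` (`k = 256`), `1/64` to `8` (`736`), `1/16` to `24` (`992`), `1/4` to `64` (`1152`) -/

/-- log₂ of the cell width (scale `2^26`) -/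
def shf (k : Nat) : Nat := cond (Nat.ble k 255) 17 (cond (Nat.ble k 735) 20 (cond (Nat.ble k 991) 22 24))

def xgN (k : Nat) : Nat := cond (Nat.ble k 255) (Nat.shiftLeft k 17)
  (cond (Nat.ble k 735) (Nat.add 33554432 (Nat.shiftLeft (Nat.sub k 256) 20))
  (cond (Nat.ble k 991) (Nat.add 536870912 (Nat.shiftLeft (Nat.sub k 736) 22))
    (Nat.add 1610612736 (Nat.shiftLeft (Nat.sub k 992) 24))))

/-- cell of `x < 64`: `f k δ s`, `x = xg k + δ`, `δ < 2^s` -/
def onCell {α : Type} (x : Nat) (f : Nat → Nat → Nat → α) : α :=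
  cond (Nat.ble x 33554431) (f (Nat.shiftRight x 17) (Nat.mod x 131072) 17)
  (cond (Nat.ble x 536870911)
    (f (Nat.add 256 (Nat.shiftRight (Nat.sub x 33554432) 20)) (Nat.mod x 1048576) 20)
  (cond (Nat.ble x 1610612735)
    (f (Nat.add 736 (Nat.shiftRight (Nat.sub x 536870912) 22)) (Nat.mod x 4194304) 22)
    (f (Nat.add 992 (Nat.shiftRight (Nat.sub x 1610612736) 24)) (Nat.mod x 16777216) 24)))

/-- index of the cell, at most `1152` -/
def idx (x : Nat) : Nat := cond (Nat.ble 4294967296 x) 1152 (onCell x (fun k _ _ => k))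

/-! ### elementary functions -/

/-- upper bound of `√y` -/
def sqU (y : Nat) : Nat :=
  frc (Nat.shiftLeft 3 (Nat.sub (Nat.shiftRight (Nat.log2 y) 1) 1)) (fun r0 =>
    frc (Nat.succ (Nat.shiftRight (Nat.add r0 (Nat.div y r0)) 1)) (fun r1 =>
    frc (Nat.succ (Nat.shiftRight (Nat.add r1 (Nat.div y r1)) 1)) (fun r2 =>
    frc (Nat.succ (Nat.shiftRight (Nat.add r2 (Nat.div y r2)) 1)) (fun r3 =>
    Nat.succ (Nat.shiftRight (Nat.add r3 (Nat.div y r3)) 1)))))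

/-- lower bound of `√y` -/
def sqL (y : Nat) : Nat := Nat.div y (sqU y)

/-- `1 - r (1 - r/2 (1 - r/3 (.. (1 - r/n))))`, scale `2^40`, `r < 2^37` -/
def eP (r : Nat) (n : Nat) : Nat :=
  Nat.sub 1099511627776 (Nat.shiftRight (Nat.mul r
  (Nat.sub 1099511627776 (Nat.div (Nat.shiftRight (Nat.mul r
  (Nat.sub 1099511627776 (Nat.div (Nat.shiftRight (Nat.mul r
  (Nat.sub 1099511627776 (Nat.div (Nat.shiftRight (Nat.mul r
  (Nat.sub 1099511627776 (Nat.div (Nat.shiftRight (Nat.mul r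
  (Nat.sub 1099511627776 (Nat.div r n))) 40) 5))) 40) 4))) 40) 3))) 40) 2))) 40)

/-- upper bounds of `exp(-i/8)`, `i < 256` -/
def e8U : Nat :=
  Nat.rec 1099511627776 (fun k ih => Nat.add ih (Nat.shiftLeft
    (Nat.succ (Nat.shiftRight (Nat.mul (Nat.shiftRight ih (Nat.mul 44 k)) 970315605869) 40))
    (Nat.mul 44 (Nat.succ k)))) 255

/-- lower bounds of `exp(-i/8)` -/
def e8L : Nat :=
  Nat.rec 1099511627776 (fun k ih => Nat.add ih (Nat.shiftLeft
    (Nat.shiftRight (Nat.mul (Nat.shiftRight ih (Nat.mul 44 k)) 970315605868) 40)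
    (Nat.mul 44 (Nat.succ k)))) 255

/-- upper bound of `exp(-v)` -/
def expUp (v : Nat) : Nat := cond (Nat.ble 35184372088832 v) 1
  (Nat.add 2 (Nat.shiftRight (Nat.mul (fld e8U (Nat.shiftRight v 37)) (Nat.add 2 (eP (Nat.mod v 137438953472) 6))) 40))

/-- lower bound of `exp(-v)`: the polynomial of degree 6 is at most `r^7/5040 < 103` units too big -/
def expLo (v : Nat) : Nat := cond (Nat.ble 35184372088832 v) 0
  (Nat.shiftRight (Nat.mul (fld e8L (Nat.shiftRight v 37)) (Nat.sub (eP (Nat.mod v 137438953472) 6) 110)) 40)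

/-- `2 atanh t` from below (series to `t^27`), `t ≤ 2^40/3` -/
def at2 (t : Nat) : Nat := frc (Nat.shiftRight (Nat.mul t t) 40) (fun u =>
  Nat.shiftRight (Nat.mul (Nat.mul 2 t)
    (Nat.add 1099511627776 (Nat.shiftRight (Nat.mul u
    (Nat.add 366503875925 (Nat.shiftRight (Nat.mul u
    (Nat.add 219902325555 (Nat.shiftRight (Nat.mul u
    (Nat.add 157073089682 (Nat.shiftRight (Nat.mul u
    (Nat.add 122167958641 (Nat.shiftRight (Nat.mul u
    (Nat.add 99955602525 (Nat.shiftRight (Nat.mul u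
    (Nat.add 84577817521 (Nat.shiftRight (Nat.mul u
    (Nat.add 73300775185 (Nat.shiftRight (Nat.mul u
    (Nat.add 64677154575 (Nat.shiftRight (Nat.mul u
    (Nat.add 57869033040 (Nat.shiftRight (Nat.mul u
    (Nat.add 52357696560 (Nat.shiftRight (Nat.mul u
    (Nat.add 47804853381 (Nat.shiftRight (Nat.mul u 43980465111) 40))) 40))) 40))) 40))) 40))) 40))) 40))) 40))) 40))) 40))) 40))) 40))) 40)

/-- lower bound of `-log(v/2^40)`, `0 < v ≤ 2^40` (upper bound: `+ 80`) -/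
def lnL (v : Nat) : Nat := cond (Nat.ble 1099511627776 v) 0
  (frc (Nat.sub 40 (Nat.succ (Nat.log2 v))) (fun e => frc (Nat.shiftLeft v e) (fun w =>
    Nat.add (Nat.mul 762123384785 e)
      (at2 (Nat.div (Nat.shiftLeft (Nat.sub 1099511627776 w) 40) (Nat.add 1099511627776 w))))))

def lnU (v : Nat) : Nat := Nat.add 80 (lnL v)

/-- `v^n` rounded down / up -/
def powL (v n : Nat) : Nat := Nat.rec 1099511627776 (fun _ ih => Nat.shiftRight (Nat.mul ih v) 40) n
def powU (v n : Nat) : Nat := Nat.rec 1099511627776 (fun _ ih => Nat.succ (Nat.shiftRight (Nat.mul ih v) 40)) n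

/-! ### the data of one cell -/

/-- base data: three tables at `θc = A/8192` (from NUM), and upper bounds (scale `2^40`) for `mo 2`
(`m2d`: its variation over the cell), `m3` variation, `mo 2, mo 3, mo 4` at the right end, `FP` constants. -/
structure Base where
  h : Nat
  T0 : Nat
  T1 : Nat
  T2 : Nat
  dm2 : Nat
  dm3 : Nat
  m2R : Nat
  m3R : Nat
  m4R : Nat
  c0 : Nat
  c1 : Nat
  c2 : Nat
  /-- the exponent `g = gn/32` -/
  gn : Nat
  /-- `f0 < 0` beyond `64` -/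
  ni : Bool

/-- indices: `zL = xg kz`, `zR = xg kR`, `m = xg kM`, `yN = xg kN`, `xW`, `xD`, last slope used `kE` -/
structure Ix where
  kz : Nat
  kR : Nat
  kM : Nat
  kN : Nat
  kW : Nat
  kD : Nat
  kE : Nat
  /-- slopes of the convex minorant of `-log f0(y)/y` (40 bit fields, scale `2^30`) and its value at `0` -/
  sl : Nat
  f00 : Nat

/-- `√(xg k)`, scale `2^40` -/
def sxg (k : Nat) : Nat := sqU (Nat.shiftLeft (xgN k) 54)

/-- `e0` at `xg k` -/
def err0 (B : Base) (k : Nat) : Nat := Nat.add 17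
  (mn (Nat.succ (Nat.div (Nat.shiftRight (Nat.mul (Nat.mul (xgN k) (xgN k)) B.dm2) 52) 24))
  (mn (Nat.succ (Nat.div (Nat.mul 146 (Nat.shiftRight (Nat.mul (Nat.mul (xgN k) (sxg k)) B.dm3) 66)) 1000))
    (Nat.shiftLeft B.h 31)))

def err1 (B : Base) (k : Nat) : Nat := Nat.add 17
  (mn (Nat.succ (Nat.div (Nat.shiftRight (Nat.mul (xgN k) B.dm2) 26) 6))
  (mn (Nat.succ (Nat.div (Nat.mul 48 (Nat.shiftRight (Nat.mul (sxg k) B.dm3) 40)) 100))
    (cond (Nat.beq k 0) 1099511627776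
      (Nat.succ (Nat.div (Nat.mul (Nat.shiftLeft B.h 31) (sxg k)) (Nat.shiftLeft (xgN k) 14))))))

/-- `8.8 √m2R dθ` -/
def e2c (B : Base) : Nat := Nat.succ (Nat.div (Nat.mul (Nat.mul 88 B.h) (sqU (Nat.shiftLeft B.m2R 40))) 81920)

def err2 (B : Base) (k : Nat) : Nat := Nat.add 17
  (mn (Nat.succ (Nat.div B.dm2 6))
    (cond (Nat.beq k 0) 1099511627776 (Nat.succ (Nat.div (Nat.shiftLeft (e2c B) 26) (xgN k)))))

def tPL (B : Base) : Nat := build (fun k => Nat.sub (fld B.T0 k) (err0 B k)) 1153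
def tPU (B : Base) : Nat := build (fun k => mn 17592186044415 (Nat.add (fld B.T0 k) (err0 B k))) 1153
def tSL (B : Base) : Nat := build (fun k => Nat.sub (fld B.T1 k) (err1 B k)) 1153
def tSU (B : Base) : Nat := build (fun k => mn 17592186044415 (Nat.add (fld B.T1 k) (err1 B k))) 1153
def tTL (B : Base) : Nat := build (fun k => Nat.sub (fld B.T2 k) (err2 B k)) 1153
def tTU (B : Base) : Nat := build (fun k => mn 17592186044415 (Nat.add (fld B.T2 k) (err2 B k))) 1153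

/-- `max |l - 1| |u - 1|` for offset values -/
def am (l u : Nat) : Nat := mx (Nat.sub 1099511627776 l) (Nat.sub u 1099511627776)

/-- `sup |f2|` on cell `k` -/
def stF (B : Base) (k : Nat) : Nat := frc (shf k) (fun s =>
  mn (Nat.add (mx (am (fld (tTL B) k) (fld (tTU B) k)) (am (fld (tTL B) (Nat.succ k)) (fld (tTU B) (Nat.succ k))))
    (Nat.succ (Nat.div (Nat.shiftRight B.m4R (Nat.sub 55 (Nat.mul 2 s))) 840)))
  (mn (cond (Nat.ble k 287) 1099511627776
      (Nat.succ (Nat.div 4058283696216101355520 (Nat.mul 100 (xgN k)))))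
    (Nat.succ (Nat.div B.m2R 6))))

def tST (B : Base) : Nat := build (stF B) 1152

/-- chord error of `f0`: `h²/16 sup|f2|` -/
def cpF (st s : Nat) : Nat := Nat.succ (Nat.shiftRight st (Nat.sub 56 (Nat.mul 2 s)))
/-- chord error of `f1`: `min (h²/8 mo3/60) (h/2 sup|f2|)` -/
def csF (m3R st s : Nat) : Nat := Nat.succ (mn (Nat.div (Nat.shiftRight m3R (Nat.sub 55 (Nat.mul 2 s))) 60)
  (Nat.shiftRight st (Nat.sub 27 s)))

/-- all derived tables -/
structure Tab where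
  B : Base
  I : Ix
  PL : Nat
  PU : Nat
  SL : Nat
  SU : Nat
  ST : Nat
  U0 : Nat
  U1 : Nat
  U2 : Nat
  P1 : Nat
  I1 : Nat
  I2 : Nat
  RH : Nat
  RI : Nat
  LU : Nat
  LL : Nat
  F : Nat
  N0 : Nat

/-- `sup |f0|` on the cell -/
def u0F (B : Base) (k : Nat) : Nat := mn 1099511627776 (Nat.add (mx (am (fld (tPL B) k) (fld (tPU B) k))
  (am (fld (tPL B) (Nat.succ k)) (fld (tPU B) (Nat.succ k)))) (cpF (fld (tST B) k) (shf k)))
/-- `sup |f1|` on the cell -/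
def u1F (B : Base) (k : Nat) : Nat := mn 1099511627776 (Nat.add (mx (am (fld (tSL B) k) (fld (tSU B) k))
  (am (fld (tSL B) (Nat.succ k)) (fld (tSU B) (Nat.succ k)))) (csF B.m3R (fld (tST B) k) (shf k)))
/-- `sup f1⁺` on the cell -/
def p1F (B : Base) (k : Nat) : Nat := mn 1099511627776 (Nat.sub (Nat.add (mx (fld (tSU B) k) (fld (tSU B) (Nat.succ k)))
  (csF B.m3R (fld (tST B) k) (shf k))) 1099511627776)

def tU0 (B : Base) : Nat := scanMax (u0F B) B.c0 1152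
def tU1 (B : Base) : Nat := scanMax (u1F B) B.c1 1152
def tU2 (B : Base) : Nat := scanMax (fun k => fld (tST B) k) B.c2 1152
def tP1 (B : Base) (kD : Nat) : Nat := scanMax (p1F B) 0 kD
/-- integrals at scale `2^49` -/
def tI1 (B : Base) : Nat := scanSum (fun k => Nat.shiftLeft (fld (tU1 B) k) (Nat.sub (shf k) 17)) 1152
def tI2 (B : Base) : Nat := scanSum (fun k => Nat.shiftLeft (fld (tU2 B) k) (Nat.sub (shf k) 17)) 1152

/-- positive and negative parts of offset values -/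
def pp (v : Nat) : Nat := Nat.sub v 1099511627776
def np (v : Nat) : Nat := Nat.sub 1099511627776 v

/-- `Wf + 1` from below at `xg k`: `f1²/2 + f0 f2` -/
def wLo (B : Base) (k : Nat) : Nat :=
  frc (fld (tPL B) k) (fun a => frc (fld (tPU B) k) (fun b => frc (fld (tTL B) k) (fun c => frc (fld (tTU B) k) (fun d =>
  frc (mx (pp (fld (tSL B) k)) (np (fld (tSU B) k))) (fun s => mn 17592186044415 (
  Nat.sub (Nat.add 1099511627776 (Nat.shiftRight (Nat.add (Nat.shiftRight (Nat.mul s s) 1)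
    (Nat.add (Nat.mul (pp a) (pp c)) (Nat.mul (np b) (np d)))) 40))
    (Nat.succ (Nat.shiftRight (Nat.add (Nat.mul (pp b) (np c)) (Nat.mul (np a) (pp d))) 40))))))))

def tW (B : Base) : Nat := build (wLo B) 993

/-- `sup |Wf''|` on the cell (with `sup |f0|`) -/
def cwF (B : Base) (k : Nat) : Nat := frc (fld (tST B) k) (fun t => Nat.succ (Nat.succ (Nat.add
  (Nat.shiftRight (Nat.mul t t) 41) (Nat.div (Nat.shiftRight (Nat.mul (u0F B k) B.m4R) 40) 840))))

/-- `h²/8 · sup |Wf''|` -/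
def wSl (B : Base) (k : Nat) : Nat := Nat.succ (Nat.shiftRight (cwF B k) (Nat.sub 55 (Nat.mul 2 (shf k))))

/-- `Wf > 0` on cell `k` -/
def wOK (B : Base) (k : Nat) : Bool :=
  Nat.ble (Nat.add 1099511627777 (wSl B k)) (mn (fld (tW B) k) (fld (tW B) (Nat.succ k)))

/-- lower bound `≥ 1` of `f1/f0` at `xg k` (scale `2^40`) -/
def rLo (B : Base) (k : Nat) : Nat :=
  mx 1099511627776 (Nat.div (Nat.shiftLeft (pp (fld (tSL B) k)) 40) (pp (fld (tPU B) k)))

/-- lower bound of `rr'` on the cell, scale `2^36`, at most `250` -/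
def rhoF (B : Base) (k : Nat) : Nat :=
  frc (pp (fld (tPU B) k)) (fun p => frc (rLo B k) (fun r =>
  frc (Nat.shiftRight (Nat.shiftLeft r (shf k)) 26) (fun rh =>
  mn 17179869184000
    (Nat.div (Nat.shiftLeft (Nat.sub (mn (pp (fld (tW B) k)) (Nat.shiftRight (Nat.mul (pp (fld (tW B) (Nat.succ k)))
      (Nat.add 1099511627776 rh)) 40))
      (Nat.succ (Nat.shiftRight (Nat.mul (wSl B k) (Nat.add 1099511627777 rh)) 40))) 76) (Nat.mul p p)))))

def tRH (B : Base) (kz : Nat) : Nat := scanMin (rhoF B) 17179869184000 kz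
/-- scale `2^45` -/
def tRI (B : Base) (kz : Nat) : Nat := scanSum (fun k => Nat.shiftLeft (fld (tRH B kz) k) (Nat.sub (shf k) 17)) kz

def tLU (B : Base) (kz : Nat) : Nat := build (fun k => cond (Nat.beq k 0) 0 (lnU (pp (fld (tPL B) k)))) (Nat.succ kz)
def tLL (B : Base) (kz : Nat) : Nat := build (fun k => cond (Nat.beq k 0) 0 (lnL (pp (fld (tPU B) k)))) (Nat.succ kz)

def slp (I : Ix) (k : Nat) : Nat := Nat.mod (Nat.shiftRight I.sl (Nat.mul 40 k)) 1099511627776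
/-- the convex minorant, 44 bit fields -/
def tF (I : Ix) : Nat := Nat.rec I.f00 (fun k ih => Nat.add ih (Nat.shiftLeft (Nat.add
  (Nat.shiftRight ih (Nat.mul 44 k)) (Nat.shiftLeft (slp I k) (Nat.sub (shf k) 16))) (Nat.mul 44 (Nat.succ k)))) I.kz

/-- prefix minima of `-f0` from `kM`: field `k - kM` bounds `-f0` on `[m, xg (k+1)]` from below -/
def n0F (B : Base) (k : Nat) : Nat := Nat.sub (mn (np (fld (tPU B) k)) (np (fld (tPU B) (Nat.succ k))))
  (cpF (fld (tST B) k) (shf k))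
def tN0 (B : Base) (kM kN : Nat) : Nat := scanPre (fun j => n0F B (Nat.add kM j)) 1099511627776 (Nat.sub kN kM)

def mkTab (B : Base) (I : Ix) : Tab :=
  { B := B, I := I, PL := tPL B, PU := tPU B, SL := tSL B, SU := tSU B, ST := tST B, U0 := tU0 B, U1 := tU1 B,
    U2 := tU2 B, P1 := tP1 B I.kD, I1 := tI1 B, I2 := tI2 B, RH := tRH B I.kz, RI := tRI B I.kz, LU := tLU B I.kz,
    LL := tLL B I.kz, F := tF I, N0 := tN0 B I.kM I.kN }

/-! ### evaluation -/

def zL (D : Tab) : Nat := xgN D.I.kz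
def zR (D : Tab) : Nat := xgN D.I.kR
def mL (D : Tab) : Nat := xgN D.I.kM
def mM (D : Tab) : Nat := fld D.U0 D.I.kM

/-- chord bounds of `f0 + 1`, `x < 64` -/
def up0 (D : Tab) (x : Nat) : Nat := onCell x (fun k d s => Nat.add (Nat.succ (Nat.shiftRight
  (Nat.add (Nat.mul (fld D.PU k) (Nat.sub (Nat.shiftLeft 1 s) d)) (Nat.mul (fld D.PU (Nat.succ k)) d)) s))
  (cpF (fld D.ST k) s))
def lo0 (D : Tab) (x : Nat) : Nat := onCell x (fun k d s => Nat.sub (Nat.shiftRight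
  (Nat.add (Nat.mul (fld D.PL k) (Nat.sub (Nat.shiftLeft 1 s) d)) (Nat.mul (fld D.PL (Nat.succ k)) d)) s)
  (cpF (fld D.ST k) s))

/-- sup of `f1⁺` on `[x, xD]` -/
def p1 (D : Tab) (x : Nat) : Nat := onCell x (fun k d s => cond (Nat.ble D.I.kD k) 0
  (mx (fld D.P1 (Nat.succ k)) (pp (Nat.add (csF D.B.m3R (fld D.ST k) s) (mx (fld D.SU (Nat.succ k))
    (Nat.succ (Nat.shiftRight (Nat.add (Nat.mul (fld D.SU k) (Nat.sub (Nat.shiftLeft 1 s) d))
      (Nat.mul (fld D.SU (Nat.succ k)) d)) s)))))))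

/-- `f0(xg k) - S d/2 - T d²/4`, `S, T` offset (for a point on the left `S` is replaced by `-S`) -/
def tayC {α : Type} (D : Tab) (p k d E S T : Nat) (f : Nat → Nat → α) : α :=
  f (Nat.sub (Nat.add (fld D.B.T0 k) (Nat.add (Nat.shiftRight (Nat.mul (np S) d) (Nat.add 27 p))
        (Nat.shiftRight (Nat.mul (np T) (Nat.mul d d)) (Nat.add 54 (Nat.mul 2 p)))))
      (Nat.add (Nat.shiftRight (Nat.mul (pp S) d) (Nat.add 27 p))
        (Nat.shiftRight (Nat.mul (pp T) (Nat.mul d d)) (Nat.add 54 (Nat.mul 2 p)))))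
    (Nat.add E (Nat.div (Nat.shiftRight (Nat.mul (Nat.mul d (Nat.mul d d)) D.B.m3R) (Nat.add 78 (Nat.mul 3 p))) 720))

/-- Taylor polynomial at the nearest grid point, `x` at scale `2^(26+p)`: `f (value+1) err` -/
def tay {α : Type} (D : Tab) (p x : Nat) (f : Nat → Nat → α) : α := onCell (Nat.shiftRight x p) (fun k _ s =>
  frc (Nat.add 6 (Nat.sub (fld D.PU (Nat.succ k)) (fld D.B.T0 (Nat.succ k)))) (fun E =>
  cond (Nat.ble (Nat.sub x (Nat.shiftLeft (xgN k) p)) (Nat.shiftLeft 1 (Nat.sub (Nat.add s p) 1)))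
    (tayC D p k (Nat.sub x (Nat.shiftLeft (xgN k) p)) E (fld D.B.T1 k) (fld D.B.T2 k) f)
    (tayC D p (Nat.succ k) (Nat.sub (Nat.shiftLeft (xgN (Nat.succ k)) p) x) E
      (Nat.sub 2199023255552 (fld D.B.T1 (Nat.succ k))) (fld D.B.T2 (Nat.succ k)) f)))

def tayU (D : Tab) (x : Nat) : Nat := tay D 0 x Nat.add
def tayL (D : Tab) (x : Nat) : Nat := tay D 0 x Nat.sub

/-- `|f0(y)| ≤ fst x0 x1` for `z ≤ y`, `x0 ≤ y ≤ x1` -/
def fst (D : Tab) (x0 x1 : Nat) : Nat := cond (Nat.ble x1 (zL D)) 0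
  (cond (Nat.ble x1 (mL D)) (np (lo0 D x1)) (mn (mM D) (fld D.U0 (idx (mx x0 (zL D))))))

/-- `f0⁺` at `y`, zero beyond `zR` -/
def pos0 (D : Tab) (y : Nat) : Nat := cond (Nat.ble (zR D) y) 0 (pp (up0 D y))

/-- `I(x) 2^66` -/
def iV (I U : Nat) (x : Nat) : Nat := cond (Nat.ble 4294967296 x) (Nat.shiftLeft (fld6 I 1152) 17)
  (onCell x (fun k d _ => Nat.add (Nat.shiftLeft (fld6 I k) 17) (Nat.mul d (fld U k))))

/-- slope of the majorant between `y` and `x` -/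
def avg (I U y x : Nat) : Nat := cond (cond (Nat.ble x (Nat.add y 8388607)) true (Nat.ble 4294967296 x)) (fld U (idx y))
  (Nat.succ (Nat.div (Nat.sub (iV I U x) (iV I U y)) (Nat.sub x y)))

/-- `R(x) 2^62` -/
def rV (D : Tab) (x : Nat) : Nat := onCell x (fun k d _ => Nat.add (Nat.shiftLeft (fld6 D.RI k) 17) (Nat.mul d (fld D.RH k)))

/-- upper bound of `lam`, `x ≤ zL` -/
def lamU (D : Tab) (x : Nat) : Nat := onCell x (fun k d s => Nat.sub (Nat.succ (Nat.shiftRight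
  (Nat.add (Nat.mul (fld D.LU k) (Nat.sub (Nat.shiftLeft 1 s) d)) (Nat.mul (fld D.LU (Nat.succ k)) d)) s))
  (Nat.shiftLeft x 13))

/-- the convex minorant of `-log f0(y)/y` -/
def ell (D : Tab) (y : Nat) : Nat := frc (mn (idx y) D.I.kE) (fun k =>
  Nat.add (fld D.F k) (Nat.shiftRight (Nat.mul (slp D.I k) (Nat.sub y (xgN k))) 16))

/-! ### decay -/

/-- lower bound of `-log (c (64/x)^(gn/32))`, `x ≥ 64` -/
def lC (c gn x : Nat) : Nat := Nat.add (lnL c)
  (Nat.shiftRight (Nat.mul gn (lnL (Nat.succ (Nat.div 4722366482869645213696 x)))) 5)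

/-- break points -/
def brN (r : Nat) : Nat := Nat.shiftLeft (Nat.mod (Nat.shiftRight
  1575043320485491477781541564460691175742560334950634423299 (Nat.mul 8 r)) 256) 26

/-- bound of `|f0|` between `max z (brN (r-1))` and `brN r` -/
def segV (D : Tab) (r : Nat) : Nat := mx 1 (cond (Nat.ble (brN r) (mL D)) (np (lo0 D (brN r)))
    (mn (mM D) (fld D.U0 (idx (mx (zL D) (cond (Nat.beq r 0) 0 (brN (Nat.sub r 1))))))))

def segF (D : Tab) (r : Nat) : Nat := cond (Nat.ble (brN r) (zL D)) 549755813888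
  (Nat.div (Nat.shiftLeft (lnL (segV D r)) 26) (brN r))

/-- `|f0(y)| ≤ c0^(y/64)` there -/
def segC (D : Tab) (r : Nat) : Bool := cond (Nat.ble (brN r) (zL D)) true (cond (Nat.ble (segV D r) D.B.c0) true
  (Nat.ble (Nat.succ (Nat.shiftRight (lnU D.B.c0) 6)) (segF D r)))

/-- `|f0(y)| ≤ exp(-σ y)` for `y ≤ brN r`: 24 fields -/
def tSG (D : Tab) : Nat := scanPre
  (fun r => cond (Nat.beq r 23) (mn (segF D r) (Nat.shiftRight (lnL D.B.c0) 6)) (segF D r)) 549755813888 24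

/-- `σ(Y)` -/
def sig (D : Tab) (Y : Nat) : Nat := cond (Nat.ble Y 4294967296)
  (Nat.rec (fun _ => 0) (fun _ ih r => cond (Nat.ble Y (brN r)) (fld (tSG D) r) (ih (Nat.succ r))) 24 0)
  (mn (fld (tSG D) 23) (Nat.div (Nat.shiftLeft (lC D.B.c0 D.B.gn Y) 26) Y))

/-- `σ` with moreover `|f0(y)| ≤ exp(-σ Y)` for `y ≥ Y` -/
def sigS (D : Tab) (Y : Nat) : Nat := cond (Nat.ble 4294967296 Y) (sig D Y)
  (mn (sig D Y) (Nat.div (Nat.shiftLeft (lnL (fld D.U0 (idx Y))) 26) Y))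

/-- bound of `|f0|` on `[x,∞)` -/
def uu (D : Tab) (x : Nat) : Nat := cond (Nat.ble 4294967296 x) (expUp (lC D.B.c0 D.B.gn x)) (fld D.U0 (idx x))

/-- `x + y`, but `0` if `x = 0` (sums that became negative stay `0`) -/
def addS (x y : Nat) : Nat := cond (Nat.beq x 0) 0 (Nat.add x y)

/-! ### sums at the diagonals -/

/-- `2^40 (1 + T_n)`, `T_n ≤ ∑_i f0(i²/n)^n/i²` -/
def tn (D : Tab) (n : Nat) : Nat :=
  Nat.sub (Nat.rec 1099511627776 (fun i ih => frc (Nat.mul (Nat.succ i) (Nat.succ i)) (fun X =>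
    tay D 14 (Nat.div (Nat.shiftLeft X 40) n) (fun v e => frc (Nat.sub v e) (fun l =>
    cond (Nat.beq (Nat.mod n 2) 0)
      (addS ih (Nat.div (powL (mx (pp l) (np (Nat.add v e))) n) X))
      (cond (Nat.ble 1099511627776 l) (addS ih (Nat.div (powL (pp l) n) X))
        (Nat.sub ih (Nat.succ (Nat.div (powU (np l) n) X)))))))) 11)
  (cond (Nat.beq (Nat.mod n 2) 0) 0
    (Nat.succ (Nat.div (Nat.mul 9 (powU (fld D.U0 (idx (Nat.div 9663676416 n))) n)) 100)))

def tt (D : Tab) (n : Nat) : Nat := mx (tn D 2) (tn D (mn n 60))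

/-! ### bound of the remaining product -/

/-- `m X`, `X = X64/64` -/
def mulL (m X : Nat) : Nat := Nat.shiftRight (Nat.mul m X) 6
def mulU (m X : Nat) : Nat := Nat.shiftRight (Nat.add (Nat.mul m X) 63) 6

def tau (N j cap m0 m1 Q : Nat) : Nat :=
  frc (mn cap (mn (Nat.succ (Nat.div m1 j)) (sqU (Nat.succ (Nat.div Q j))))) (fun t =>
  cond (Nat.ble N j) t (cond (Nat.ble (Nat.mul j Q) (Nat.mul m0 m0))
    (mn t (Nat.succ (Nat.div (Nat.add m0 (sqU (Nat.succ (Nat.div (Nat.mul (Nat.sub N j)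
      (Nat.sub (Nat.mul N Q) (Nat.mul m0 m0))) j)))) N))) t))

/-- one `j` (number of arguments beyond `z`); `Mp = M^(j-1)` -/
def restJ (D : Tab) (N cap m0 m1 Q ul X0 X1 x1 j Mp best : Nat) : Nat :=
  frc (tau N j cap m0 m1 Q) (fun t => frc (mulU t X1) (fun tX =>
  cond (Nat.ble tX (zL D)) best
  (frc (mx (zL D) (cond (Nat.ble N j) (cond (Nat.beq N j) (Nat.div (mulL m0 X0) j) 0)
      (Nat.div (Nat.sub (mulL m0 X0) (Nat.mul (Nat.sub N j) (zR D))) j))) (fun yl =>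
  frc (mx yl (mulL ul X0)) (fun yu =>
  frc (cond (Nat.beq j 1) (fst D yu tX)
    (frc (Nat.succ (Nat.shiftRight (Nat.mul Mp (mn (mM D) (fld D.U0 (idx yu)))) 40)) (fun u0 =>
      cond (Nat.ble x1 (xgN D.I.kW)) (mn u0 (powU (fst D yl tX) j)) u0))) (fun U =>
  cond (Nat.ble U best) best
  (frc (Nat.sub m0 (Nat.mul j t)) (fun rm =>
  mx best (Nat.succ (Nat.shiftRight (Nat.mul U
    (cond (Nat.beq N j) 1099511627776
    (frc (expUp (Nat.shiftLeft (mulL rm X0) 13)) (fun E => cond (Nat.ble N j) E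
      (mn E (powU (pos0 D (Nat.div (mulL rm X0) (Nat.sub N j))) (Nat.sub N j))))))) 40))))))))))

/-- bound of the product of the others -/
def rst (D : Tab) (al : Bool) (N cap m0 m1 Q ul X0 X1 x1 : Nat) : Nat :=
  Nat.rec (motive := fun _ => Nat → Nat → Nat → Nat) (fun _ Mp best => mx best Mp)
    (fun _ ih j Mp best => frc (Nat.succ (Nat.shiftRight (Nat.mul Mp (mM D)) 40)) (fun Mj =>
      cond (Nat.ble Mj best) best
      (cond (Nat.ble (mulU m1 X1) (Nat.mul j (zL D))) best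
      (cond (Nat.ble (Nat.succ N) j) (cond (Nat.beq N 0)
          (cond (cond al true (Nat.beq (Nat.mod j 2) 1))
            (frc (restJ D N cap m0 m1 Q ul X0 X1 x1 j Mp best) (fun b => ih (Nat.succ j) Mj b))
            (ih (Nat.succ j) Mj best)) best)
        (cond (cond al true (Nat.beq (Nat.mod j 2) 1))
          (frc (restJ D N cap m0 m1 Q ul X0 X1 x1 j Mp best) (fun b => ih (Nat.succ j) Mj b))
          (ih (Nat.succ j) Mj best)))))) 40 1 1099511627776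
    (cond al (expUp (Nat.shiftLeft (mulL m0 X0) 13)) 0)

/-! ### energy test -/

def one : Nat := 1099511627776
def oneA : Nat := 67108864

/-- bound of `∏ f0(t_l X)`, `X` integer; `N = n-1` or `0` -/
def eNode (D : Tab) (N a1 a2 u v X : Nat) : Nat :=
  mx (frc (mx a1 u) (fun a => cond (Nat.ble (zR D) (Nat.mul a X)) 0
      (Nat.succ (Nat.shiftRight (Nat.mul (pp (tayU D (Nat.mul a X)))
        (expUp (Nat.shiftRight (Nat.mul (Nat.mul (Nat.sub oneA a) X) (ell D (Nat.mul u X))) 26))) 40))))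
    (frc (Nat.mul a2 X) (fun y2 => cond (Nat.ble y2 (zL D)) 0
      (Nat.succ (Nat.shiftRight (Nat.mul (fst D (Nat.mul a1 X) y2)
        (rst D (cond (Nat.ble y2 (xgN D.I.kN)) false true) N (mn a2 (Nat.sub oneA a1)) (Nat.sub oneA a2) (Nat.sub oneA a1)
          (Nat.mul (Nat.sub oneA a1) v) u (Nat.mul 64 X) (Nat.mul 64 X) y2)) 40))))

/-- `∑_{i ≤ 8} eNode/i²` -/
def eSum (D : Tab) (N a1 a2 u v : Nat) : Nat :=
  Nat.rec 0 (fun i ih => frc (Nat.mul (Nat.succ i) (Nat.succ i)) (fun X =>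
    Nat.add ih (Nat.succ (Nat.div (eNode D N a1 a2 u v X) X)))) 8

/-- `∑_{9 ≤ i ≤ 15} exp(-σ X)/X + 0.0646 exp(-256 σS)` -/
def eTail (D : Tab) (a2 : Nat) : Nat :=
  Nat.rec (Nat.succ (Nat.div (Nat.mul 646 (expUp (Nat.mul 256 (sigS D (Nat.mul 256 a2))))) 10000))
    (fun i ih => frc (Nat.mul (Nat.add 9 i) (Nat.add 9 i)) (fun X =>
      Nat.add ih (Nat.succ (Nat.div (expUp (Nat.mul X (sig D (Nat.mul a2 X)))) X)))) 7

/-- number for comparison: `n`, or `≥ NM` and `≥ 1 + m0/v` -/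
def nE (n NM a2 v : Nat) : Nat := cond (Nat.beq n 0) (mx NM (Nat.succ (Nat.div (Nat.add (Nat.sub oneA a2) (Nat.sub v 1)) v))) n

/-- energy test for `u (1-a) ≤ ∑ t_l² ≤ v (1-a)`; `110000 = 1e-7` -/
def eOK (D : Tab) (n NM a1 a2 u v tl : Nat) : Bool :=
  Nat.ble (Nat.add (Nat.add one (Nat.add tl 110000)) (Nat.succ (eSum D (Nat.sub n 1) a1 a2 u v)))
    (tt D (nE n NM a2 v))

/-! ### three coordinates -/

/-- least spread corner: `f A B C` (`1/3` rounded down) -/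
def corner {α : Type} (a1 b2 : Nat) (f : Nat → Nat → Nat → α) : α :=
  frc (Nat.sub oneA (Nat.add a1 b2)) (fun c =>
  cond (Nat.ble b2 c) (cond (Nat.ble c a1) (f a1 b2 c)
      (cond (Nat.ble (Nat.mul 3 b2) oneA) (frc (Nat.shiftRight (Nat.sub oneA b2) 1) (fun h => f h b2 h))
        (f 22369621 22369621 22369621)))
    (cond (Nat.ble (Nat.sub oneA a1) (Nat.mul 2 a1)) (frc (Nat.shiftRight (Nat.sub oneA a1) 1) (fun h => f a1 h h))
      (f 22369621 22369621 22369621)))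

/-- bounds for one factor on `[x0,x1]`: `f sign low high`, sign `0` positive, `1` negative, `2` unknown -/
def fac {α : Type} (D : Tab) (x0 x1 : Nat) (f : Nat → Nat → Nat → α) : α :=
  cond (Nat.ble x1 (zL D)) (f 0 (pp (lo0 D x1)) (pp (up0 D x0)))
  (cond (cond (Nat.ble (zR D) x0) (Nat.ble x1 (xgN D.I.kN)) false)
    (f 1 (cond (Nat.ble x1 (xgN D.I.kW)) (mn (np (up0 D x0)) (np (up0 D x1))) 0) (fst D x0 x1))
    (f 2 0 (mx (cond (Nat.ble (zR D) x0) 0 (pp (up0 D x0))) (fst D x0 x1))))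

/-- adds an upper bound of (product of the three factors)`/X` to `ih` -/
def e3Node (D : Tab) (a1 a2 b1 b2 cl ch A B C X ih : Nat) : Nat :=
  cond (Nat.ble (Nat.mul a2 X) (zL D))
    (Nat.add ih (Nat.succ (Nat.div (Nat.succ (Nat.shiftRight (Nat.mul (Nat.succ (Nat.shiftRight
      (Nat.mul (pp (tayU D (Nat.mul A X))) (pp (tayU D (Nat.mul B X)))) 40)) (pp (tayU D (Nat.mul C X)))) 40)) X)))
    (fac D (Nat.mul a1 X) (Nat.mul a2 X) (fun s1 l1 h1 => fac D (Nat.mul b1 X) (Nat.mul b2 X) (fun s2 l2 h2 =>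
      fac D (Nat.mul cl X) (Nat.mul ch X) (fun s3 l3 h3 =>
      cond (cond (Nat.ble s1 1) (cond (Nat.ble s2 1) (cond (Nat.ble s3 1)
          (Nat.beq (Nat.mod (Nat.add s1 (Nat.add s2 s3)) 2) 1) false) false) false)
        (Nat.sub ih (Nat.div (Nat.shiftRight (Nat.mul (Nat.mul l1 l2) l3) 80) X))
        (Nat.add ih (Nat.succ (Nat.div (Nat.succ (Nat.shiftRight (Nat.mul (Nat.mul h1 h2) h3) 80)) X)))))))

/-- bound of `|f0|` on `[x,∞)`, constant beyond `64` -/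
def u64 (D : Tab) (x : Nat) : Nat := cond (Nat.ble 4294967296 x) D.B.c0 (fld D.U0 (idx x))

/-- tail with products of three -/
def tail3 (D : Tab) (a1 b1 cl : Nat) : Nat :=
  Nat.rec (Nat.succ (Nat.div (Nat.mul 646 (Nat.succ (Nat.shiftRight (Nat.mul (Nat.mul (uu D (Nat.mul 256 a1))
      (uu D (Nat.mul 256 b1))) (uu D (Nat.mul 256 cl))) 80))) 10000))
    (fun i ih => frc (Nat.mul (Nat.add 9 i) (Nat.add 9 i)) (fun X =>
      Nat.add ih (Nat.succ (Nat.div (Nat.shiftRight (Nat.mul (Nat.mul (u64 D (Nat.mul a1 X)) (u64 D (Nat.mul b1 X)))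
        (u64 D (Nat.mul cl X))) 80) X)))) 7

/-- the cell is empty or the energy test holds (`n = 3`) -/
def e3OK (D : Tab) (a1 a2 b1 b2 tl : Nat) : Bool :=
  frc (mx b1 (Nat.sub oneA (Nat.add a2 b2))) (fun cl => frc (mn a2 (Nat.sub oneA (Nat.add a1 b1))) (fun ch =>
  cond (Nat.ble (Nat.succ ch) cl) true
  (corner a1 b2 (fun A B C =>
    Nat.ble (Nat.add (mn tl (tail3 D a1 b1 cl)) (Nat.add 110000
      (Nat.rec one (fun i ih => frc (Nat.mul (Nat.succ i) (Nat.succ i)) (fun X =>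
        e3Node D a1 a2 b1 b2 cl ch A B C X ih)) 8)))
      (tt D 3)))))

/-! ### kernel test -/

/-- nodes `ξ = xiN/8` -/
def xiN (md k : Nat) : Nat := cond (Nat.beq md 0)
  (cond (Nat.ble k 40) k (cond (Nat.ble k 52) (Nat.mul 2 (Nat.sub k 20)) (cond (Nat.ble k 68) (Nat.mul 4 (Nat.sub k 36))
    (cond (Nat.ble k 76) (Nat.mul 16 (Nat.sub k 60)) (Nat.mul 32 (Nat.sub k 68))))))
  (cond (Nat.ble k 64) k (cond (Nat.ble k 80) (Nat.mul 2 (Nat.sub k 32)) (cond (Nat.ble k 88) (Nat.mul 4 (Nat.sub k 56))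
    (cond (Nat.ble k 96) (Nat.mul 16 (Nat.sub k 80)) (Nat.mul 32 (Nat.sub k 88))))))

/-- `∑ lam(t_l X) ≤ kC`; `x2 = a2 X1 ≤ zL`, `y1 = b1 X1` -/
def kC (D : Tab) (n a2 b1 x2 y1 : Nat) : Nat := cond (Nat.beq n 0)
  (Nat.succ (Nat.div (Nat.shiftLeft (lamU D x2) 26) a2))
  (Nat.succ (Nat.div (Nat.add (Nat.mul (Nat.sub (Nat.mul n a2) oneA) (lamU D y1))
    (Nat.mul (Nat.sub oneA (Nat.mul n b1)) (lamU D x2))) (Nat.sub a2 b1)))

/-- slope of `rr` between `bX` and `aX`, scale `2^36`; `x = a1 X0`, `y = b1 X0` -/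
def kAv (D : Tab) (x y : Nat) : Nat := mx (fld D.RH (mn (idx y) (Nat.sub D.I.kz 1)))
  (cond (Nat.ble x y) 0 (Nat.div (Nat.sub (rV D x) (rV D y)) (Nat.sub x y)))

/-- positive node: `w av exp(-C - mq/2)`, scale `2^40` -/
def kPos (D : Tab) (n a1 a2 b1 m0 m1 x2 : Nat) : Nat :=
  frc (Nat.mul m0 m0) (fun X0 => frc (Nat.mul m1 m1) (fun X1 =>
  frc (Nat.sub (Nat.mul X1 m1) (Nat.mul X0 m0)) (fun w =>
  Nat.div (Nat.shiftRight (Nat.mul (Nat.mul w (kAv D (mulL a1 X0) (mulL b1 X0)))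
    (expLo (Nat.add (kC D n a2 b1 x2 (mulU b1 X1))
      (Nat.succ (Nat.div (Nat.shiftLeft (Nat.mul 3 (Nat.sub (Nat.mul (Nat.mul X1 X1) m1) (Nat.mul (Nat.mul X0 X0) m0))) 40)
        (Nat.mul 640 w)))))) 36) 1536)))

/-- negative node: `w E B` -/
def kNeg (D : Tab) (N a1 a2 b1 b2 R0 R1 Q m0 m1 x2 : Nat) : Nat :=
  frc (Nat.mul m0 m0) (fun X0 => frc (Nat.mul m1 m1) (fun X1 =>
  frc (mx (mulL a1 X0) (zL D)) (fun x => frc (mulL b1 X0) (fun y => frc (mulU b2 X1) (fun y2 =>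
  frc (cond (Nat.ble x2 (xgN D.I.kD)) (cond (Nat.ble y2 (zL D)) 1 (cond (Nat.ble x2 (xgN D.I.kW)) 1 0)) 0) (fun par =>
  frc (Nat.add (Nat.succ (Nat.shiftRight (Nat.mul (cond (Nat.beq par 1) (p1 D x) (fld D.U1 (idx x)))
        (avg D.I1 D.U1 y x)) 41))
    (Nat.add (Nat.succ (Nat.shiftRight (Nat.mul (fst D x x2) (avg D.I2 D.U2 y x)) 40))
      (cond (cond (Nat.beq par 1) (cond (Nat.ble y2 (zL D)) false (cond (Nat.ble x2 (mL D)) false true)) false)
        (Nat.succ (Nat.shiftRight (Nat.mul (fld D.U1 D.I.kM) (fld D.U1 D.I.kM)) 41)) 0))) (fun E =>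
  Nat.succ (Nat.div (Nat.shiftRight (Nat.mul (Nat.mul (Nat.sub (Nat.mul X1 m1) (Nat.mul X0 m0)) E)
    (rst D (Nat.beq par 0) N a2 R0 R1 Q 0 X0 X1 x2)) 40) 1536))))))))

/-- `2^60 +` lower bound of the integral over `[0, xiN Kn/8]`, divided by `a - b` -/
def kSum (D : Tab) (n md a1 a2 b1 b2 R0 R1 Q Kn : Nat) : Nat :=
  Nat.rec 1152921504606846976 (fun k ih => frc (xiN md k) (fun m0 => frc (xiN md (Nat.succ k)) (fun m1 =>
    frc (mulU a2 (Nat.mul m1 m1)) (fun x2 =>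
    cond (Nat.ble x2 (zL D)) (addS ih (kPos D n a1 a2 b1 m0 m1 x2))
      (Nat.sub ih (kNeg D (Nat.sub n 2) a1 a2 b1 b2 R0 R1 Q m0 m1 x2)))))) Kn

/-- bound of the slope factor in the tail; `S` at scale `2^49` -/
def kD (I U S a1 b1 X : Nat) : Nat := mn (Nat.succ (Nat.div (Nat.shiftLeft S 17) a1))
  (cond (Nat.ble a1 b1) 4611686018427387904
    (Nat.succ (Nat.div (Nat.sub (Nat.shiftLeft S 17) (iV I U (mulL b1 X))) (Nat.sub a1 b1))))

def kS1 (D : Tab) : Nat := Nat.add (fld6 D.I1 1152) (Nat.succ (Nat.div (Nat.shiftLeft D.B.c1 20) D.B.gn))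
def kS2 (D : Tab) : Nat := Nat.add (fld6 D.I2 1152) (Nat.succ (Nat.div (Nat.shiftLeft D.B.c2 20) D.B.gn))

/-- tail beyond `ξ = m/8` (`a1 ξ² ≥ 64`), `2^60` if it fails -/
def kTail (D : Tab) (n a1 a2 b1 b2 m : Nat) : Nat :=
  frc (Nat.mul m m) (fun X => frc (mulL a1 X) (fun xs =>
  frc (Nat.div (Nat.shiftLeft (cond (Nat.beq n 0) (Nat.sub oneA (Nat.mul 2 a2)) (Nat.sub oneA (Nat.add a2 b2))) 40) a2) (fun Ra =>
  frc (Nat.shiftRight (Nat.mul D.B.gn (Nat.add one Ra)) 4) (fun ex1 =>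
  cond (cond (Nat.ble 4294967296 xs) (Nat.ble (Nat.add one 1000000) ex1) false)
    (frc (lC D.B.c0 D.B.gn xs) (fun l0 => frc (lC D.B.c1 (Nat.add D.B.gn 32) xs) (fun l1 =>
    frc (Nat.add (Nat.succ (Nat.shiftRight (Nat.mul (expUp l1) (kD D.I1 D.U1 (kS1 D) a1 b1 X)) 41))
      (Nat.succ (Nat.shiftRight (Nat.mul (expUp l0) (kD D.I2 D.U2 (kS2 D) a1 b1 X)) 40))) (fun A =>
    Nat.succ (Nat.div (Nat.shiftLeft (Nat.succ (Nat.shiftRight (Nat.mul (Nat.mul A (expUp (Nat.shiftRight (Nat.mul l0 Ra) 40))) m) 43)) 40)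
      (Nat.sub ex1 one))))))
    1152921504606846976))))

/-- kernel test on `[a1,a2] × [b1,b2]`, `t* ≤ t0` -/
def kOK (D : Tab) (n md a1 a2 b1 b2 t0 Kn : Nat) : Bool :=
  cond (Nat.ble a2 b1) false
  (frc (kTail D n a1 a2 b1 b2 (xiN md Kn)) (fun T => cond (Nat.ble 1152921504606846976 T) false
    (Nat.ble (Nat.add 1152921504606846977 T)
    (kSum D n md a1 a2 b1 b2 (Nat.sub oneA (Nat.add a2 b2)) (Nat.sub oneA (Nat.add a1 b1))
      (Nat.sub (Nat.mul (Nat.sub oneA a1) t0) (Nat.mul b1 b1)) Kn))))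

/-! ### near the pair -/

/-- `2^40 (π²/6 + 1/4 - T_2)` from above -/
def v2u (D : Tab) : Nat := Nat.sub 3183013668145 (tn D 2)

/-- lower bound of `|f0|` on `[x0,x1]` (both beyond `zR`) -/
def mnA (D : Tab) (x0 x1 : Nat) : Nat :=
  cond (Nat.ble x1 (xgN D.I.kW)) (mn (np (tayU D x0)) (np (tayU D x1)))
  (cond (cond (Nat.ble (mL D) x0) (Nat.ble (Nat.succ x1) (xgN D.I.kN)) false)
    (fld D.N0 (Nat.sub (idx x1) D.I.kM)) 0)

/-- upper bound of `|f0|` on `[x0,x1]` -/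
def mxA (D : Tab) (x0 x1 : Nat) : Nat :=
  cond (Nat.ble (zR D) x0) (uu D x0) (mx (pp (up0 D x0)) (fst D x0 x1))

/-- lower bound (offset accumulation) of `∑_{i ≤ 15} P(i) w(i)` -/
def pSum (D : Tab) (a1 a2 cm c2 e0 : Nat) : Nat :=
  Nat.rec one (fun i ih => frc (Nat.mul (Nat.succ i) (Nat.succ i)) (fun X =>
    frc (Nat.mul a2 X) (fun x => frc (Nat.mul c2 X) (fun y =>
    cond (cond (Nat.ble x (zL D)) (Nat.ble y (zL D)) false)
      (addS ih (Nat.shiftRight (Nat.mul (Nat.shiftRight (Nat.mul (pp (tayL D x)) (pp (tayL D y))) 40)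
        (Nat.div (Nat.shiftLeft (Nat.sub one (expUp (Nat.shiftLeft (Nat.mul e0 X) 13))) 26) (Nat.mul e0 X))) 40))
    (cond (cond (cond (Nat.ble (zR D) (Nat.mul a1 X)) (Nat.ble (zR D) (Nat.mul cm X)) false)
        (cond D.B.ni true (cond (Nat.ble x (xgN D.I.kN)) (Nat.ble y (xgN D.I.kN)) false)) false)
      (addS ih (Nat.shiftRight (Nat.mul (Nat.shiftRight (Nat.mul (mnA D (Nat.mul a1 X) x) (mnA D (Nat.mul cm X) y)) 40)
        (Nat.div (Nat.shiftLeft (Nat.sub one (expUp (Nat.shiftLeft (Nat.mul e0 X) 13))) 26) (Nat.mul e0 X))) 40))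
      (Nat.sub ih (Nat.succ (Nat.shiftRight (Nat.mul (Nat.succ (Nat.shiftRight (Nat.mul (mxA D (Nat.mul a1 X) x) (mxA D (Nat.mul cm X) y)) 40))
        (Nat.succ (Nat.div (Nat.shiftLeft (Nat.sub one (expLo (Nat.shiftLeft (Nat.mul e0 X) 13))) 26) (Nat.mul e0 X)))) 40)))))))) 15

/-- one of the four pieces of `∫ |P|` beyond `yN`: `P` at `ξ` times the step (scale `2^40`) -/
def pPiece (D : Tab) (a1 cm xi st : Nat) : Nat := frc (Nat.shiftRight (Nat.mul xi xi) 26) (fun X =>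
  Nat.succ (Nat.shiftRight (Nat.mul (Nat.succ (Nat.shiftRight (Nat.mul (u64 D (Nat.shiftRight (Nat.mul a1 X) 26))
    (u64 D (Nat.shiftRight (Nat.mul cm X) 26))) 40)) st) 26))

/-- near the pair: every `t` with `a ∈ [a1,a2]` and another coordinate `≥ 1 - a - e0` is excluded unless the sum is `1` -/
def pOK (D : Tab) (a1 a2 e0 : Nat) : Bool :=
  frc (Nat.sub oneA (Nat.add a2 e0)) (fun cm => frc (Nat.sub oneA a1) (fun c2 =>
  -- ξ1 ≤ √(zL/a2), ξ2 ≥ √(zR/cm), scale 2^26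
  frc (sqL (Nat.div (Nat.shiftLeft (zL D) 52) a2)) (fun x1 =>
  frc (sqU (Nat.succ (Nat.div (Nat.shiftLeft (zR D) 52) cm))) (fun x2 =>
  frc (Nat.succ (Nat.shiftRight (Nat.mul x2 x2) 26)) (fun X2 => frc (Nat.shiftRight (Nat.mul x1 x1) 26) (fun X1 =>
  frc (Nat.succ (Nat.shiftRight (Nat.mul e0 X2) 26)) (fun v2 =>
  frc (Nat.div (Nat.shiftLeft (Nat.sub one (expUp (Nat.shiftLeft (Nat.sub v2 2) 13))) 26) v2) (fun w2 =>
  frc (Nat.succ (Nat.shiftRight (Nat.mul (fst D (Nat.shiftRight (Nat.mul a1 X1) 26) (Nat.succ (Nat.shiftRight (Nat.mul a2 X2) 26)))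
    (pos0 D (Nat.shiftRight (Nat.mul cm X1) 26))) 40)) (fun Pm =>
  frc (Nat.succ (Nat.shiftRight (Nat.mul (Nat.mul (Nat.sub 549755813888 w2) (Nat.sub x2 x1)) Pm) 66)) (fun J1 =>
  -- ξ3 ≤ √(zL/e0)
  frc (sqL (Nat.div (Nat.shiftLeft (zL D) 52) e0)) (fun x3 =>
  frc (Nat.shiftRight (Nat.mul x3 x3) 26) (fun X3 =>
  frc (Nat.succ (Nat.shiftRight (Nat.mul (uu D (Nat.shiftRight (Nat.mul a1 X3) 26)) (uu D (Nat.shiftRight (Nat.mul cm X3) 26))) 40)) (fun P3 =>
  frc (Nat.succ (Nat.div (Nat.shiftLeft (Nat.mul (mM D) P3) 12) (Nat.mul e0 x3))) (fun J3 =>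
  frc (mx x2 (sqL (Nat.div (Nat.shiftLeft (xgN D.I.kN) 52) a2))) (fun x5 =>
  frc (mx x5 (sqU (Nat.succ (Nat.div 19342813113834066795298816 cm)))) (fun x6 =>
  frc (Nat.succ (Nat.shiftRight (Nat.sub x6 x5) 2)) (fun st =>
  frc (cond D.B.ni J3 (Nat.add (cond (Nat.ble x5 x3) 0 J3)
    (Nat.shiftRight (Nat.add 2 (Nat.add (Nat.add (pPiece D a1 cm x5 st) (pPiece D a1 cm (Nat.add x5 st) st))
      (Nat.add (Nat.add (pPiece D a1 cm (Nat.add x5 (Nat.mul 2 st)) st) (pPiece D a1 cm (Nat.add x5 (Nat.mul 3 st)) st))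
        (Nat.succ (Nat.div (Nat.mul 8 (Nat.succ (Nat.shiftRight (Nat.mul (Nat.mul D.B.c0 D.B.c0) (Nat.add x6 4)) 66))) (Nat.sub D.B.gn 8)))))) 1))) (fun J =>
  frc (cond D.B.ni 0 (Nat.succ (Nat.div (Nat.succ (Nat.shiftRight (Nat.mul (uu D (Nat.mul 256 a1)) (uu D (Nat.mul 256 cm))) 13))
    (Nat.mul 31 e0)))) (fun U =>
  cond (cond (Nat.ble (Nat.shiftRight (Nat.mul a2 X2) 26) (Nat.sub (xgN D.I.kN) 2))
      (cond (Nat.ble (Nat.mul e0 1000) (Nat.mul 102 oneA)) (cond (Nat.ble e0 a1) (cond (Nat.ble (zR D) (Nat.mul 256 cm))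
        (cond (Nat.ble 1 cm) (cond (Nat.ble 1 x1) (Nat.ble 1 x3) false) false) false) false) false) false)
    (Nat.ble (Nat.shiftLeft (Nat.add (v2u D) 2) 40)
      (Nat.mul (Nat.sub (Nat.add 274877906944 (pSum D a1 a2 cm c2 e0)) (Nat.add one (Nat.add J1 (Nat.add J (Nat.add U
          (Nat.succ (Nat.div 36893500637184 e0)))))))
        (Nat.add one (sqL (Nat.shiftLeft (Nat.sub oneA e0) 54))))) false)))))))))))))))))))

/-! ### coverage -/

/-- one interval of the largest coordinate: right end (units `1/1024`), `ε0` (same units, `0`: none),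
break points of `t*` (units `2^-14`, decreasing), cells of the smallest coordinate:
`512 b2 + type`, `b2` in units `1/1024`, type `0` void, `1` E3, `128 + Kn` kernel test mode `0`,
`256 + Kn` mode `1` -/
structure AC where
  a2 : Nat
  ep : Nat
  v0 : Nat
  vs : List Nat
  bs : List Nat

/-- a class: `n` (`0`: all `n ≥ NM`), first left end `A0` -/
structure Cl where
  n : Nat
  NM : Nat
  A0 : Nat
  cells : List AC

/-- `1/n` rounded up (`1` if `n = 0`) -/
def invU (n : Nat) : Nat := cond (Nat.beq n 0) oneA (Nat.succ (Nat.div oneA n))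

/-- one cell of the smallest coordinate -/
def bOK (D : Tab) (n a1 a2 t0 tl b1 b2 ty : Nat) : Bool :=
  cond (Nat.beq ty 0)
    (cond (Nat.ble (Nat.mul (Nat.sub n 1) b2) (Nat.sub oneA a2)) (cond (Nat.ble 3 n)
      (frc (Nat.sub oneA a2) (fun m0 => Nat.ble (Nat.succ (Nat.mul (Nat.mul (Nat.sub n 2) t0) m0))
        (Nat.add (Nat.mul (Nat.sub m0 b2) (Nat.sub m0 b2)) (Nat.mul (Nat.sub n 2) (Nat.mul b2 b2))))) false) false)
  (cond (Nat.beq ty 1) (cond (Nat.beq n 3) (e3OK D a1 a2 b1 b2 tl) false)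
  (cond (Nat.ble ty 255) (kOK D n 0 a1 a2 b1 b2 t0 (Nat.sub ty 128)) (kOK D n 1 a1 a2 b1 b2 t0 (Nat.sub ty 256))))

/-- cells from `b` on -/
def bAll (D : Tab) (n a1 a2 t0 tl : Nat) : List Nat → Nat → Bool
  | [], b => cond (Nat.beq n 0) (Nat.ble a2 b)
      (cond (Nat.ble oneA (Nat.mul n b)) true (Nat.ble (Nat.sub oneA a1) (Nat.mul (Nat.sub n 1) b)))
  | c :: cs, b => cond (bOK D n a1 a2 t0 tl b (mn (Nat.shiftLeft (Nat.shiftRight c 9) 16) (invU n)) (Nat.mod c 512))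
      (bAll D n a1 a2 t0 tl cs (mn (Nat.shiftLeft (Nat.shiftRight c 9) 16) (invU n))) false

/-- energy chain from `v` down, then the `b` cells -/
def vAll (D : Tab) (n NM a1 a2 ep tl : Nat) (bs : List Nat) : List Nat → Nat → Bool
  | [], v => cond (cond (Nat.beq n 0) (Nat.beq v 0) (Nat.ble (Nat.mul (Nat.sub n 1) v) (Nat.sub oneA a2))) true
      (bAll D n a1 a2 v tl bs (cond (Nat.beq n 3) ep 0))
  | u :: us, v => cond (eOK D n NM a1 a2 (Nat.shiftLeft u 12) v tl)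
      (vAll D n NM a1 a2 ep tl bs us (Nat.shiftLeft u 12)) false

/-- one interval for the largest coordinate -/
def aOK (D : Tab) (n NM a1 a2 ep v0 : Nat) (vs bs : List Nat) : Bool :=
  cond (cond (Nat.beq ep 0) (Nat.ble (mn a2 (Nat.sub oneA a1)) v0)
    (cond (cond (Nat.ble (Nat.mul 2 ep) (Nat.sub oneA a2)) (frc (Nat.sub oneA a1) (fun m1 =>
      Nat.ble (mn (mn a2 m1) (Nat.succ (Nat.div (Nat.add (Nat.mul (Nat.sub m1 ep) (Nat.sub m1 ep)) (Nat.mul ep ep)) m1))) v0)) false)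
      (pOK D a1 a2 ep) false))
    (vAll D n NM a1 a2 ep (eTail D a2) bs vs v0) false

def acAll (D : Tab) (n NM : Nat) : List AC → Nat → Bool
  | [], A => Nat.beq A 1024
  | x :: xs, A => cond (cond (Nat.ble (Nat.succ A) x.a2)
        (aOK D n NM (mx (Nat.shiftLeft A 16) (cond (Nat.beq n 0) 0 (Nat.div oneA n))) (Nat.shiftLeft x.a2 16)
          (Nat.shiftLeft x.ep 16) (Nat.shiftLeft x.v0 12) x.vs x.bs) false) (acAll D n NM xs x.a2) false

def clOK (D : Tab) (c : Cl) : Bool :=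
  cond (cond (Nat.ble 1 c.A0) (cond (Nat.beq c.n 0) (Nat.ble c.A0 8) (Nat.ble (Nat.mul c.n c.A0) 1024)) false)
    (acAll D c.n c.NM c.cells c.A0) false

/-- the classes are `3, 4, .., k` and `≥ k+1` -/
def clAll (D : Tab) : List Cl → Nat → Bool
  | [], _ => false
  | c :: cs, k => cond (Nat.beq c.n 0) (cond (Nat.beq c.NM k) (cond (Nat.ble 4 k) (clOK D c) false) false)
      (cond (Nat.beq c.n k) (cond (clOK D c) (clAll D cs (Nat.succ k)) false) false)

/-- checks of the indices and of the convex minorant -/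
def ixOK (D : Tab) : Bool :=
  cond (cond (Nat.ble (Nat.succ D.I.kz) D.I.kR) (cond (Nat.ble D.I.kR D.I.kM) (cond (Nat.ble (Nat.succ D.I.kM) D.I.kN)
    (cond (Nat.ble D.I.kN 1152) (cond (Nat.ble D.I.kR D.I.kW) (cond (Nat.ble D.I.kW D.I.kN) (cond (Nat.ble D.I.kR D.I.kD)
    (cond (Nat.ble D.I.kD D.I.kN) (cond (Nat.ble D.I.kW 992) (cond (Nat.ble 100 D.I.kz)
      (cond (Nat.ble D.I.kz 736) (cond D.B.ni (Nat.beq D.I.kN 1152) true) false) false) false) false) false) false) false) false)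
      false) false) false)
  (cond (cond (allB (fun k => Nat.ble 1099512676352 (fld D.PL k)) (Nat.succ D.I.kz)) (Nat.ble (Nat.succ (fld D.PU D.I.kR)) one) false)
  (cond (allB (fun k => Nat.ble (Nat.succ (Nat.add one (csF D.B.m3R (fld D.ST k) (shf k))))
      (mn (fld D.SL k) (fld D.SL (Nat.succ k)))) D.I.kM)
  (cond (allB (wOK D.B) D.I.kW)
  (cond (allB (fun j => frc (Nat.add D.I.kM j) (fun k => frc (Nat.add (csF D.B.m3R (fld D.ST k) (shf k)) (cpF (fld D.ST k) (shf k))) (fun e =>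
      cond (Nat.ble (Nat.succ (Nat.add e (fld D.PU k))) (fld D.SL k))
        (Nat.ble (Nat.succ (Nat.add e (fld D.PU (Nat.succ k)))) (fld D.SL (Nat.succ k))) false))) (Nat.sub D.I.kD D.I.kM))
  (cond (allB (fun j => frc (Nat.add D.I.kM j) (fun k =>
      Nat.ble (Nat.succ (Nat.add (mx (fld D.PU k) (fld D.PU (Nat.succ k))) (cpF (fld D.ST k) (shf k)))) one)) (Nat.sub D.I.kN D.I.kM))
  (cond (cond (Nat.ble (Nat.succ D.I.kE) D.I.kz) (Nat.ble D.I.f00 549755813888) false)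
  (cond (cond (Nat.beq (fld D.F 0) D.I.f00) (allB (fun k => Nat.beq (fld D.F (Nat.succ k))
      (Nat.add (fld D.F k) (Nat.shiftLeft (slp D.I k) (Nat.sub (shf k) 16)))) D.I.kz) false)
  (cond (allB (fun k => Nat.ble (slp D.I k) (slp D.I (Nat.succ k))) (Nat.sub D.I.kz 1))
  (cond (allB (fun k => frc (Nat.mul (xgN (Nat.succ k)) (fld D.F (Nat.succ k))) (fun y =>
      cond (Nat.ble y (Nat.shiftLeft (fld D.LL (Nat.succ k)) 26))
        (Nat.ble y (Nat.shiftLeft (Nat.add (fld D.LL k) (Nat.shiftRight (rLo D.B k) (Nat.sub 27 (shf k)))) 26)) false)) D.I.kz)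
  (cond (Nat.ble (Nat.add (Nat.shiftLeft (fld D.F D.I.kE) 16) (Nat.mul (slp D.I D.I.kE) (Nat.sub (Nat.mul 2 (zR D)) (xgN D.I.kE))))
      (Nat.shiftLeft (rLo D.B D.I.kz) 15))
  (cond (cond (Nat.ble (Nat.succ (mM D)) one) (cond (Nat.ble 16 D.B.gn) (cond (Nat.ble D.B.gn 32)
      (Nat.ble (Nat.shiftLeft D.B.gn 35) (lnL D.B.c0)) false) false) false)
    (cond (cond (Nat.ble 1 D.B.c0) (cond (Nat.ble 1 D.B.c1) (cond (Nat.ble D.B.c1 one) (cond (Nat.ble 1 D.B.c2)
        (Nat.ble D.B.c2 one) false) false) false) false)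
    (cond (Nat.ble (Nat.succ (Nat.shiftRight (lnU D.B.c0) 6)) 549755813888) (allB (segC D) 24) false)
    false) false) false) false) false) false) false) false) false) false) false) false) false

/-- conditions for `KSMALL` -/
def smOK (D : Tab) : Bool := frc (fld (tSG D) 11) (fun s1 =>
  cond (cond (Nat.ble one (Nat.mul 25 s1)) (cond (Nat.ble one (Nat.mul 50 (fld (tSG D) 23)))
      (cond (Nat.ble 167772160 (zL D)) (Nat.ble (zR D) 1073741824) false) false) false)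
  (Nat.ble (Nat.add 2 (Nat.mul (Nat.mul 12800 (Nat.succ (Nat.shiftRight (zR D) 26)))
      (expUp (Nat.shiftRight (Nat.mul (Nat.mul 126 s1) (zL D)) 26))))
    (Nat.shiftRight (Nat.mul (fld D.RH 0) (expLo (Nat.mul 128 (lamU D 8388608)))) 36)) false)

/-- everything for one `θ` cell -/
def chk (B : Base) (I : Ix) (cs : List Cl) : Bool :=
  cond (ixOK (mkTab B I)) (cond (smOK (mkTab B I)) (clAll (mkTab B I) cs 3) false) false

end Pool.Agent.Helper53.PT.N
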