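import Pool.Agent.Helper53.Pq.Goals

/-!
# MP_705522_gt, `4/3 < p < 2` (`q = p/(p-1) ∈ (2,4)`, `θ = 1/q ∈ (1/4,1/2)`): definitions

`Y` is the random variable with density `∝ |y|^(q-2) exp(-|y|^q)`, scaled to UNIT VARIANCE.
`mo θ j = E Y^(2j)`, `f0 θ x = E cos(√x Y)`, `f1 = -2 f0'`, `f2 = f1'`, `f3 = f2'` (entire functions
of `x`, given by their power series), `G θ t = ∫_0^∞ (1 - ∏ f0(t_i ξ²)) dξ/ξ²`.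
-/

namespace Pool.Agent.Helper53.PT

open MeasureTheory Set
open Pool.Agent.Helper28.NO (mu ph Lf)

/-- `E Y^(2j)` (`E Y² = 1`). -/
noncomputable def mo (θ : ℝ) (j : ℕ) : ℝ :=
  Real.Gamma (1 + (2 * (j : ℝ) - 1) * θ) / Real.Gamma (1 - θ) *
    (Real.Gamma (1 - θ) / Real.Gamma (1 + θ)) ^ j

/-- `E |Y|³`. -/
noncomputable def m3 (θ : ℝ) : ℝ :=
  Real.Gamma (1 + 2 * θ) / Real.Gamma (1 - θ) * (Real.Gamma (1 - θ) / Real.Gamma (1 + θ)) ^ (3 / 2 : ℝ)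

/-- The standard deviation of `Y` when it is scaled to `E |Y| = 1` (the scaling of `mu`). -/
noncomputable def sg (θ : ℝ) : ℝ := √(Real.Gamma (1 + θ) * Real.Gamma (1 - θ))

/-- The law of `|Y|`, unit variance. -/
noncomputable def nu (θ : ℝ) : Measure ℝ := (mu (1 / θ)).map (fun y => y / sg θ)

noncomputable def f0 (θ x : ℝ) : ℝ := ∑' j : ℕ, (-1) ^ j * (mo θ j / (2 * j).factorial) * x ^ j

noncomputable def f1 (θ x : ℝ) : ℝ :=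
  ∑' j : ℕ, (-1) ^ j * (mo θ (j + 1) / (2 * j + 1).factorial) * x ^ j

noncomputable def f2 (θ x : ℝ) : ℝ :=
  ∑' j : ℕ, (-1) ^ (j + 1) * (((j : ℝ) + 1) * mo θ (j + 2) / (2 * j + 3).factorial) * x ^ j

noncomputable def f3 (θ x : ℝ) : ℝ :=
  ∑' j : ℕ, (-1) ^ j * (((j : ℝ) + 1) * ((j : ℝ) + 2) * mo θ (j + 3) / (2 * j + 5).factorial) * x ^ j

/-- `P(ξ) = ∏ f0(t_i ξ²)` -/
noncomputable def PP (θ : ℝ) {n : ℕ} (t : Fin n → ℝ) (ξ : ℝ) : ℝ := ∏ i, f0 θ (t i * ξ ^ 2)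

noncomputable def G (θ : ℝ) {n : ℕ} (t : Fin n → ℝ) : ℝ :=
  ∫ ξ in Ioi (0 : ℝ), (1 - PP θ t ξ) / ξ ^ 2

/-- The simplex. -/
def Sx {n : ℕ} (t : Fin n → ℝ) : Prop := (∀ i, 0 ≤ t i) ∧ ∑ i, t i = 1

/-- `G` at the main diagonal of `ℝ^n`. -/
noncomputable def V (θ : ℝ) (n : ℕ) : ℝ := G θ (fun _ : Fin n => 1 / (n : ℝ))

/-- `K_ij = ∫ (f1(t_i ξ²) f0(t_j ξ²) - f0(t_i ξ²) f1(t_j ξ²)) ∏_{l ≠ i,j} f0(t_l ξ²) dξ`. -/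
noncomputable def K (θ : ℝ) {n : ℕ} (t : Fin n → ℝ) (i j : Fin n) : ℝ :=
  ∫ ξ in Ioi (0 : ℝ), (f1 θ (t i * ξ ^ 2) * f0 θ (t j * ξ ^ 2) -
    f0 θ (t i * ξ ^ 2) * f1 θ (t j * ξ ^ 2)) * ∏ l ∈ (Finset.univ.erase i).erase j, f0 θ (t l * ξ ^ 2)

/-- `κ2(w) = d/dv sinc(√v)` at `v = w²`: `(w cos w - sin w)/(2 w³)`. -/
noncomputable def k2 (w : ℝ) : ℝ := -(1 / 2) * ∫ s in (0 : ℝ)..1, s ^ 2 * Real.sinc (s * w)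

/-- `κ3 = d/dv κ2`. -/
noncomputable def k3 (w : ℝ) : ℝ := -(1 / 2) * ∫ s in (0 : ℝ)..1, s ^ 4 * k2 (s * w)

/-- `κ4 = d/dv κ3`. -/
noncomputable def k4 (w : ℝ) : ℝ := -(1 / 2) * ∫ s in (0 : ℝ)..1, s ^ 6 * k3 (s * w)

end Pool.Agent.Helper53.PT
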