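import Pool.Agent.Helper53.PT.GoalsC
import Pool.Agent.Helper53.PT.B

/-!
# MP_705522_gt: the zero and the signs (packet FAN)
-/

namespace Pool.Agent.Helper53.PT.FN

open Set

attribute [local irreducible] N.tPL N.tPU N.tSL N.tSU N.tTL N.tTU N.tST N.tU0 N.tU1 N.tU2 N.tP1 N.tI1 N.tI2
  N.tRH N.tRI N.tLU N.tLL N.tF N.tSG N.tW N.fld N.fld6 N.xgN N.shf N.cpF N.csF N.wSl N.scanPre

theorem xR_lt (hG : GGRID) {j k : ℕ} (h : j < k) (hk : k ≤ 1152) : xR j < xR k := by
  unfold xR aR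
  have : (N.xgN j : ℝ) < N.xgN k := by exact_mod_cast hG.2.2.2.1 j k h hk
  exact div_lt_div_of_pos_right this (by positivity)

theorem xR_le (hG : GGRID) {j k : ℕ} (h : j ≤ k) (hk : k ≤ 1152) : xR j ≤ xR k := by
  rcases h.eq_or_lt with rfl | h
  · exact le_rfl
  · exact (xR_lt hG h hk).le

theorem xR_zero (hG : GGRID) : xR 0 = 0 := by
  unfold xR aR
  rw [hG.1]
  norm_num

theorem xR_top (hG : GGRID) : xR 1152 = 64 := by
  unfold xR aR
  rw [hG.2.1]
  norm_num

/-- position in a cell -/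
theorem par (hG : GGRID) {k : ℕ} (hk : k < 1152) {y : ℝ} (h1 : xR k ≤ y) (h2 : y ≤ xR (k + 1)) :
    ∃ l : ℝ, 0 ≤ l ∧ l ≤ 1 ∧ y = (1 - l) * xR k + l * xR (k + 1) := by
  have h := xR_lt hG (Nat.lt_succ_self k) hk
  have h' : 0 < xR (k + 1) - xR k := sub_pos.2 h
  refine ⟨(y - xR k) / (xR (k + 1) - xR k), div_nonneg (by linarith) h'.le,
    (div_le_one h').2 (by linarith), ?_⟩
  field_simp
  ring

/-- the cell of a point -/
theorem find (hG : GGRID) {j K : ℕ} (hj : j < K) (hK : K ≤ 1152) {y : ℝ} (h1 : xR j ≤ y) (h2 : y ≤ xR K) :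
    ∃ k, j ≤ k ∧ k < K ∧ xR k ≤ y ∧ y ≤ xR (k + 1) := by
  induction K with
  | zero => omega
  | succ K ih =>
    by_cases h : xR K ≤ y
    · exact ⟨K, by omega, Nat.lt_succ_self K, h, h2⟩
    · push Not at h
      have hj' : j < K := by
        by_contra hc
        have : j = K := by omega
        rw [this] at h1
        linarith
      obtain ⟨k, a, b, c, d⟩ := ih hj' (by omega) h.le
      exact ⟨k, a, by omega, c, d⟩

theorem vR_lt {a b : ℕ} (h : a < b) : vR a < vR b := by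
  unfold vR
  have : (a : ℝ) < b := by exact_mod_cast h
  exact div_lt_div_of_pos_right this (by positivity)

theorem vR_le {a b : ℕ} (h : a ≤ b) : vR a ≤ vR b := by
  unfold vR
  have : (a : ℝ) ≤ b := by exact_mod_cast h
  exact div_le_div_of_nonneg_right this (by positivity)

theorem vR_add (a b : ℕ) : vR (a + b) = vR a + vR b := by unfold vR; push_cast; ring

theorem vR_one : vR (2 ^ 40) = 1 := by unfold vR; norm_num

theorem np_eq (v : ℕ) : N.np v = 2 ^ 40 - v := by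
  have : N.np v = 1099511627776 - v := rfl
  rw [this]
  norm_num

theorem mn_eq (a b : ℕ) : N.mn a b = min a b := by
  unfold N.mn
  by_cases h : a ≤ b
  · rw [Nat.ble_eq_true_of_le h, min_eq_left h]; rfl
  · have : Nat.ble a b = false := by
      rw [← Bool.not_eq_true, Nat.ble_eq]; exact h
    rw [this, min_eq_right (not_le.1 h).le]; rfl

section
variable {A : ℕ} {B : N.Base} {I : N.Ix} {θ : ℝ} (hG : GGRID) (tb : TBF B θ) (ix : IxP B I) (ch : CHF B θ)
include hG tb ix ch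

theorem s1c {k : ℕ} (hk : k < I.kM) {y : ℝ} (h1 : xR k ≤ y) (h2 : y ≤ xR (k + 1)) : 0 < f1 θ y := by
  have hk2 : k < 1152 := by have := ix.MN; have := ix.N1; omega
  obtain ⟨l, l0, l1, rfl⟩ := par hG hk2 h1 h2
  have a := (abs_le.1 (ch.c1 k hk2 l l0 l1)).1
  obtain ⟨b1, b2⟩ := ix.s1 k hk
  have c1 := vR_lt b1
  have c2 := vR_lt b2
  rw [vR_add, vR_one] at c1 c2
  have d1 := tb.sl k hk2.le
  have d2 := tb.sl (k + 1) hk2
  generalize vR (N.csF B.m3R (N.fld (N.tST B) k) (N.shf k)) = e at *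
  have e1 : (1 - l) * e ≤ (1 - l) * f1 θ (xR k) := mul_le_mul_of_nonneg_left (by linarith) (by linarith)
  rcases l0.eq_or_lt with rfl | l0
  · linarith
  · have e2 : l * e < l * f1 θ (xR (k + 1)) := mul_lt_mul_of_pos_left (by linarith) l0
    linarith

theorem wc {k : ℕ} (hk : k < I.kW) {y : ℝ} (h1 : xR k ≤ y) (h2 : y ≤ xR (k + 1)) : 0 < Wf θ y := by
  have hk9 := ix.W9
  have hk2 : k < 1152 := by omega
  obtain ⟨l, l0, l1, rfl⟩ := par hG hk2 h1 h2
  have a := ch.w1 k hk2 l l0 l1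
  obtain ⟨b1, b2⟩ := ix.W k hk
  have c1 := vR_lt b1
  have c2 := vR_lt b2
  rw [vR_add, vR_one] at c1 c2
  have d1 := ch.w0 k (by omega)
  have d2 := ch.w0 (k + 1) (by omega)
  generalize vR (N.wSl B k) = e at *
  have e1 : (1 - l) * e ≤ (1 - l) * Wf θ (xR k) := mul_le_mul_of_nonneg_left (by linarith) (by linarith)
  rcases l0.eq_or_lt with rfl | l0
  · linarith
  · have e2 : l * e < l * Wf θ (xR (k + 1)) := mul_lt_mul_of_pos_left (by linarith) l0
    linarith

theorem dc {k : ℕ} (hk : I.kM ≤ k) (hk' : k < I.kD) {y : ℝ} (h1 : xR k ≤ y) (h2 : y ≤ xR (k + 1)) :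
    f0 θ y < f1 θ y := by
  have hk2 : k < 1152 := by have := ix.DN; have := ix.N1; omega
  obtain ⟨l, l0, l1, rfl⟩ := par hG hk2 h1 h2
  have a := (abs_le.1 (ch.c1 k hk2 l l0 l1)).1
  have a' := (abs_le.1 (ch.c0 k hk2 l l0 l1)).2
  obtain ⟨b1, b2⟩ := ix.D k hk hk'
  have c1 := vR_lt b1
  have c2 := vR_lt b2
  rw [vR_add, vR_add] at c1 c2
  have d1 := tb.sl k hk2.le
  have d2 := tb.sl (k + 1) hk2
  have d3 := tb.pu k hk2.le
  have d4 := tb.pu (k + 1) hk2
  generalize vR (N.csF B.m3R (N.fld (N.tST B) k) (N.shf k)) = e at *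
  generalize vR (N.cpF (N.fld (N.tST B) k) (N.shf k)) = e' at *
  have e1 : (1 - l) * (e + e') ≤ (1 - l) * (f1 θ (xR k) - f0 θ (xR k)) :=
    mul_le_mul_of_nonneg_left (by linarith) (by linarith)
  rcases l0.eq_or_lt with rfl | l0
  · linarith
  · have e2 : l * (e + e') < l * (f1 θ (xR (k + 1)) - f0 θ (xR (k + 1))) :=
      mul_lt_mul_of_pos_left (by linarith) l0
    linarith

theorem nc {k : ℕ} (hk : I.kM ≤ k) (hk' : k < I.kN) {y : ℝ} (h1 : xR k ≤ y) (h2 : y ≤ xR (k + 1)) :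
    vR (N.n0F B k) ≤ -f0 θ y ∧ 0 < -f0 θ y := by
  have hk2 : k < 1152 := by have := ix.N1; omega
  obtain ⟨l, l0, l1, rfl⟩ := par hG hk2 h1 h2
  have a' := (abs_le.1 (ch.c0 k hk2 l l0 l1)).2
  obtain ⟨b1, b2⟩ := ix.N0 k hk hk'
  have c1 := vR_lt b1
  have c2 := vR_lt b2
  rw [vR_add, vR_one] at c1 c2
  have d3 := tb.pu k hk2.le
  have d4 := tb.pu (k + 1) hk2
  have hn : vR (N.n0F B k) ≤ min (1 - vR (N.fld (N.tPU B) k)) (1 - vR (N.fld (N.tPU B) (k + 1))) -
      vR (N.cpF (N.fld (N.tST B) k) (N.shf k)) := by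
    have e0 : N.n0F B k = min (2 ^ 40 - N.fld (N.tPU B) k) (2 ^ 40 - N.fld (N.tPU B) (k + 1)) -
        N.cpF (N.fld (N.tST B) k) (N.shf k) := by
      unfold N.n0F
      rw [mn_eq, np_eq, np_eq]
      rfl
    have e1 : N.n0F B k + N.cpF (N.fld (N.tST B) k) (N.shf k) + N.fld (N.tPU B) k ≤ 2 ^ 40 := by
      rw [e0]; omega
    have e2 : N.n0F B k + N.cpF (N.fld (N.tST B) k) (N.shf k) + N.fld (N.tPU B) (k + 1) ≤ 2 ^ 40 := by
      rw [e0]; omega
    have f1 := vR_le e1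
    have f2 := vR_le e2
    rw [vR_add, vR_add, vR_one] at f1 f2
    rw [le_sub_iff_add_le, le_min_iff]
    exact ⟨by linarith, by linarith⟩
  generalize vR (N.cpF (N.fld (N.tST B) k) (N.shf k)) = e' at *
  have hm : min (1 - vR (N.fld (N.tPU B) k)) (1 - vR (N.fld (N.tPU B) (k + 1))) - e' ≤
      -f0 θ ((1 - l) * xR k + l * xR (k + 1)) := by
    have g1 := min_le_left (1 - vR (N.fld (N.tPU B) k)) (1 - vR (N.fld (N.tPU B) (k + 1)))
    have g2 := min_le_right (1 - vR (N.fld (N.tPU B) k)) (1 - vR (N.fld (N.tPU B) (k + 1)))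
    generalize min (1 - vR (N.fld (N.tPU B) k)) (1 - vR (N.fld (N.tPU B) (k + 1))) = M at *
    have h3 : (1 - l) * M ≤ (1 - l) * -f0 θ (xR k) := mul_le_mul_of_nonneg_left (by linarith) (by linarith)
    have h4 : l * M ≤ l * -f0 θ (xR (k + 1)) := mul_le_mul_of_nonneg_left (by linarith) l0
    linarith
  refine ⟨hn.trans hm, lt_of_lt_of_le ?_ hm⟩
  rw [sub_pos, lt_min_iff]
  exact ⟨by linarith, by linarith⟩

theorem neg {y : ℝ} (h1 : xR I.kM ≤ y) (h2 : y ≤ xR I.kN) : f0 θ y < 0 := by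
  obtain ⟨k, a, b, c, d⟩ := find hG ix.MN ix.N1 h1 h2
  have := (nc hG tb ix ch a b c d).2
  linarith

end

theorem _root_.Pool.Agent.Helper53.PT.gFAN : GFAN := by
  intro hF hG A B I θ hb tb ix ch
  have hn : ∀ y, xR I.kM ≤ y → y ≤ xR I.kN → f0 θ y < 0 := fun y h1 h2 => neg hG tb ix ch h1 h2
  have k1 := ix.kzR
  have k2 := ix.RM
  have k3 := ix.MN
  have k4 := ix.N1
  have k5 := ix.RW
  have k6 := ix.WN
  have k7 := ix.RD
  have k8 := ix.DN
  have k9 := ix.z1
  have hs : ∀ x, 0 ≤ x → x < xR I.kM → 0 < f1 θ x := by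
    intro x h0 h1
    obtain ⟨k, _, b, c, d⟩ := find hG (j := 0) (K := I.kM) (by omega) (by omega) (by rw [xR_zero hG]; exact h0) h1.le
    exact s1c hG tb ix ch b c d
  have hW : ∀ x, 0 ≤ x → x ≤ xR I.kW → 0 < Wf θ x := by
    intro x h0 h1
    obtain ⟨k, _, b, c, d⟩ := find hG (j := 0) (K := I.kW) (by omega) (by omega) (by rw [xR_zero hG]; exact h0) h1
    exact wc hG tb ix ch b c d
  have hf1m : 0 ≤ f1 θ (xR I.kM) := by
    have hm : xR (I.kM - 1) < xR I.kM := xR_lt hG (by omega) (by omega)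
    have h := s1c hG tb ix ch (k := I.kM - 1) (by omega) (y := xR I.kM) hm.le
      (by rw [show I.kM - 1 + 1 = I.kM by omega])
    exact h.le
  have hD : ∀ x, xR I.kM ≤ x → x ≤ xR I.kD → f0 θ x < f1 θ x := by
    intro x h0 h1
    rcases lt_or_ge I.kM I.kD with h | h
    · obtain ⟨k, a, b, c, d⟩ := find hG h (by omega) h0 h1
      exact dc hG tb ix ch a b c d
    · have h2 := xR_le hG h (by omega)
      have h3 : x = xR I.kM := le_antisymm (h1.trans h2) h0
      rw [h3]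
      exact lt_of_lt_of_le (hn _ le_rfl (xR_le hG k3.le k4)) hf1m
  refine ⟨?_, ?_, ?_⟩
  · have hz : 0 < f0 θ (xR I.kz) := by
      have h1 := tb.pl I.kz (by omega)
      have h2 := vR_le (ix.pl I.kz le_rfl)
      rw [vR_add, vR_one] at h2
      have h3 : 0 < vR (2 ^ 20) := by unfold vR; positivity
      linarith
    have hr : f0 θ (xR I.kR) < 0 := by
      have h1 := tb.pu I.kR (by omega)
      have h2 := vR_lt ix.pu
      rw [vR_one] at h2
      linarith
    have hzL : 0 < xR I.kz := by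
      rw [← xR_zero hG]
      exact xR_lt hG (by omega) (by omega)
    obtain ⟨z, z1, z2, fa⟩ := bFA θ (xR I.kz) (xR I.kR) (xR I.kM) (xR I.kW) (xR I.kD) (xR I.kN) hb.th0 hb.th1
      hzL (xR_lt hG k1 (by omega)) (xR_le hG k2 (by omega)) hz hr hs hW (xR_le hG k5 (by omega)) hD
      (xR_le hG k7 (by omega)) hn (xR_le hG k3.le k4) (xR_le hG k6 k4) (xR_le hG k8 k4)
    exact ⟨z, fa, z1, z2⟩
  · intro hni x hx
    rcases le_total x 64 with h | h
    · exact hn x hx (by rw [ix.ni hni, xR_top hG]; exact h)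
    · exact hb.ni hni x h
  · intro k hk hk' y h1 h2
    obtain ⟨i, a, b, c, d⟩ := find hG (j := I.kM) (K := k + 1) (by omega) (by omega) h1 h2
    have h3 := (nc hG tb ix ch a (by omega) c d).1
    refine le_trans (vR_le ?_) h3
    have hP := hF.2.2.2.2.2.1 (fun j => N.n0F B (Nat.add I.kM j)) 1099511627776 (Nat.sub I.kN I.kM) (by norm_num)
    have e0 : N.tN0 B I.kM I.kN = N.scanPre (fun j => N.n0F B (Nat.add I.kM j)) 1099511627776
      (Nat.sub I.kN I.kM) := rfl
    rw [e0]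
    have hle : ∀ d, i - I.kM + d < I.kN - I.kM → N.fld (N.scanPre (fun j => N.n0F B (Nat.add I.kM j)) 1099511627776
        (Nat.sub I.kN I.kM)) (i - I.kM + d) ≤ N.n0F B i := by
      intro d
      induction d with
      | zero =>
        intro h4
        rw [add_zero] at h4 ⊢
        rw [hP (i - I.kM) h4]
        refine (min_le_right _ _).trans (le_of_eq ?_)
        show N.n0F B (I.kM + (i - I.kM)) = _
        rw [show I.kM + (i - I.kM) = i by omega]
      | succ d ih =>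
        intro h4
        rw [← add_assoc] at h4 ⊢
        rw [hP (i - I.kM + d + 1) h4]
        refine (min_le_left _ _).trans ?_
        rw [if_neg (by omega), Nat.add_sub_cancel]
        exact ih (by omega)
    have h5 := hle (k - i) (by omega)
    rwa [show i - I.kM + (k - i) = k - I.kM by omega] at h5

end Pool.Agent.Helper53.PT.FN
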