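import Pool.Agent.Helper53.PT.Link

/-!
# MP_705522_gt: minimal projections from the theorem on `G`
-/

namespace Pool.Agent.Helper53.PT

open MeasureTheory Set Filter Topology
open Pool.Agent.Helper28.NO (mu muZ ph Lf Lf_scale ph_abs ph_zero)
open Pool.Agent.Helper7.Proj (Bp projVol Zd phi)

/-- the ratio `vol(B_p^n | u^⊥)/vol(B_p^(n-1))` for a main diagonal `u` -/
noncomputable def JJ (p : ℝ) (n : ℕ) : ℝ :=
  2 * Real.Gamma (1 / p) / (Real.pi * √(n : ℝ)) *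
    ∫ s in Ioi (0 : ℝ), (1 - phi (p / (p - 1)) s ^ n) / s ^ 2

theorem qZd {p : ℝ} (hp : 1 < p) : p / (p - 1) * Zd (p / (p - 1)) = Real.Gamma (1 / p) := by
  have h1 : 0 < p - 1 := by linarith
  have hq : 0 < p / (p - 1) := div_pos (by linarith) h1
  have h2 : -1 < p / (p - 1) - 2 := by
    have : 1 < p / (p - 1) := by rw [lt_div_iff₀ h1]; linarith
    linarith
  have h := integral_rpow_mul_exp_neg_rpow (p := p / (p - 1)) (q := p / (p - 1) - 2) hq h2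
  unfold Zd
  rw [h]
  have e : (p / (p - 1) - 2 + 1) / (p / (p - 1)) = 1 / p := by
    field_simp
    ring
  rw [e, ← mul_assoc, mul_one_div_cancel hq.ne', one_mul]

theorem ph_mu {q : ℝ} (hq : 2 < q) (t : ℝ) : ph (mu q) t = phi q (q * Zd q * t) := by
  obtain ⟨_, _, _, _, _, h⟩ := Pool.Agent.Helper88.NO.goalD1 q hq
  rw [h]
  unfold ph mu
  rw [integral_map (by fun_prop) (by fun_prop)]
  congr 1
  ext z
  ring_nf

theorem q_gt {p : ℝ} (hp : 1 < p) (hp2 : p < 2) : 2 < p / (p - 1) := by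
  rw [lt_div_iff₀ (by linarith)]; linarith

/-- value at a main diagonal -/
theorem vol_main {p : ℝ} (hp : 1 < p) (hp2 : p < 2) {n : ℕ} (u : EuclideanSpace ℝ (Fin (n + 1)))
    (h1 : ‖u‖ = 1) (hu : ∀ i, |u i| = 1 / √((n + 1 : ℕ) : ℝ)) :
    projVol p (n + 1) u = (volume : Measure (EuclideanSpace ℝ (Fin n))).real (Bp p n) *
      JJ p (n + 1) := by
  rw [Pool.Agent.Helper63.Pq.gVol p hp hp2 n u h1]
  congr 1
  have hq := q_gt hp hp2
  have hN : (0 : ℝ) < √((n + 1 : ℕ) : ℝ) := Real.sqrt_pos.2 (by positivity)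
  have hG : 0 < Real.Gamma (1 / p) := Real.Gamma_pos_of_pos (by positivity)
  have hprob : IsProbabilityMeasure (mu (p / (p - 1))) := (Pool.Agent.Helper53.Pq.mu_basic hq).1
  set c : ℝ := Real.Gamma (1 / p) / √((n + 1 : ℕ) : ℝ) with hc
  have hc0 : 0 < c := by positivity
  have e1 : (fun t => ∏ i, ph (mu (p / (p - 1))) (u i * t)) =
      fun t => phi (p / (p - 1)) (c * t) ^ (n + 1) := by
    ext t
    have : ∀ i, ph (mu (p / (p - 1))) (u i * t) = phi (p / (p - 1)) (c * t) := by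
      intro i
      rw [← ph_abs, hu, ph_mu hq, qZd hp, hc]
      ring_nf
    rw [Finset.prod_congr rfl fun i _ => this i, Finset.prod_const, Finset.card_univ,
      Fintype.card_fin]
  have h0 : phi (p / (p - 1)) 0 = 1 := by
    have := ph_mu hq 0
    rw [mul_zero] at this
    rw [← this, ph_zero]
  have e2 := Lf_scale (fun t => phi (p / (p - 1)) t ^ (n + 1)) (β := c) hc0.le
    (by simp only [h0, one_pow])
  rw [e1]
  refine e2.trans ?_
  unfold Lf JJ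
  rw [c0_eq, hc]
  have hpi := Real.pi_pos
  field_simp

/-- value at a pair diagonal -/
theorem vol_pair {p : ℝ} (hp : 1 < p) (hp2 : p < 2) {n : ℕ} (u : EuclideanSpace ℝ (Fin (n + 1)))
    (h1 : ‖u‖ = 1) {i j : Fin (n + 1)} (hij : i ≠ j) (hi : |u i| = 1 / √2) (hj : |u j| = 1 / √2) :
    projVol p (n + 1) u = (volume : Measure (EuclideanSpace ℝ (Fin n))).real (Bp p n) *
      (2 : ℝ) ^ (1 / 2 - 1 / p) := by
  rw [Pool.Agent.Helper63.Pq.gVol p hp hp2 n u h1,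
    Pool.Agent.Helper53.Pq.Lf_crit (q_gt hp hp2) (fun i => u i) hij hi hj
      (Pool.Agent.Helper53.Pq.sum_sq_eq_one h1)]
  congr 2
  have : p ≠ 0 := by linarith
  have : p - 1 ≠ 0 := by linarith
  field_simp
  ring

theorem V_pos {p : ℝ} (hp : 1 < p) (n : ℕ) :
    0 < (volume : Measure (EuclideanSpace ℝ (Fin n))).real (Bp p n) :=
  ENNReal.toReal_pos (Pool.Agent.Helper28.NO.Bp_pos (by linarith) n).ne'
    ((Pool.Agent.Helper28.NO.Bp_compact (by linarith) n).measure_lt_top).ne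

/-- the unit vector with squares `t` -/
noncomputable def sv {n : ℕ} (t : Fin n → ℝ) : EuclideanSpace ℝ (Fin n) :=
  WithLp.toLp 2 (fun i => √(t i))

theorem sv_sq {n : ℕ} {t : Fin n → ℝ} (ht : Sx t) : (fun i => sv t i ^ 2) = t := by
  ext i
  exact Real.sq_sqrt (ht.1 i)

theorem sv_norm {n : ℕ} {t : Fin n → ℝ} (ht : Sx t) : ‖sv t‖ = 1 := by
  rw [EuclideanSpace.norm_eq, Real.sqrt_eq_one, ← ht.2]
  refine Finset.sum_congr rfl fun i _ => ?_
  rw [Real.norm_eq_abs, sq_abs]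
  exact Real.sq_sqrt (ht.1 i)

theorem sx_sq {n : ℕ} {u : EuclideanSpace ℝ (Fin (n + 1))} (hu : ‖u‖ = 1) : Sx (fun i => u i ^ 2) :=
  ⟨fun i => sq_nonneg _, Pool.Agent.Helper53.Pq.sum_sq_eq_one hu⟩

theorem th_bounds {p : ℝ} (hp : 4 / 3 ≤ p) (hp2 : p < 2) :
    1 / 4 ≤ (p - 1) / p ∧ (p - 1) / p < 1 / 2 := by
  have hp0 : 0 < p := by linarith
  exact ⟨by rw [div_le_div_iff₀ (by norm_num) hp0]; linarith,
    by rw [div_lt_div_iff₀ hp0 (by norm_num)]; linarith⟩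

/-- comparison of volumes is comparison of `G` -/
theorem vol_le_iff {p : ℝ} (hp : 1 < p) (hp2 : p < 2) {n : ℕ} {u v : EuclideanSpace ℝ (Fin (n + 1))}
    (hu : ‖u‖ = 1) (hv : ‖v‖ = 1) : projVol p (n + 1) u ≤ projVol p (n + 1) v ↔
      G ((p - 1) / p) (fun i => u i ^ 2) ≤ G ((p - 1) / p) (fun i => v i ^ 2) := by
  rw [vol_eq hp hp2 u hu, vol_eq hp hp2 v hv]
  have hV := V_pos hp n
  have h0 : 0 < (p - 1) / p := div_pos (by linarith) (by linarith)
  have h1 : (p - 1) / p < 1 := by rw [div_lt_one (by linarith)]; linarith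
  have hs := sg_pos h0 h1
  have hpi := Real.pi_pos
  rw [mul_le_mul_iff_right₀ hV, mul_le_mul_iff_right₀ (by positivity)]

/-- a minimiser is a pair diagonal or a main diagonal -/
theorem min_good {p : ℝ} (hp : 4 / 3 ≤ p) (hp2 : p < 2) (hGT : GT ((p - 1) / p)) {n : ℕ} (hn : 1 ≤ n)
    {u : EuclideanSpace ℝ (Fin (n + 1))} (hu : ‖u‖ = 1)
    (hmin : ∀ v : EuclideanSpace ℝ (Fin (n + 1)), ‖v‖ = 1 → projVol p (n + 1) u ≤ projVol p (n + 1) v) :
    (∀ i, |u i| = 1 / √((n + 1 : ℕ) : ℝ)) ∨ ∃ i j, i ≠ j ∧ |u i| = 1 / √2 ∧ |u j| = 1 / √2 := by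
  have hp1 : 1 < p := by linarith
  have hm : IsMinT ((p - 1) / p) (fun i => u i ^ 2) := by
    refine ⟨sx_sq hu, fun s hs => ?_⟩
    have h := (vol_le_iff hp1 hp2 hu (sv_norm hs)).1 (hmin _ (sv_norm hs))
    rwa [sv_sq hs] at h
  have habs : ∀ (i : Fin (n + 1)) (x : ℝ), 0 ≤ x → u i ^ 2 = 1 / x → |u i| = 1 / √x := by
    intro i x hx h
    rw [← Real.sqrt_sq_eq_abs, h, Real.sqrt_div zero_le_one, Real.sqrt_one]
  rcases hGT (n + 1) (by omega) _ hm with h | ⟨i, j, hij, hi, hj, _⟩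
  · exact Or.inl fun i => habs i _ (by positivity) (h i)
  · exact Or.inr ⟨i, j, hij, habs i 2 (by norm_num) hi, habs j 2 (by norm_num) hj⟩

/-- existence of minimisers -/
theorem exists_min {p : ℝ} (hp : 4 / 3 ≤ p) (hp2 : p < 2) (n : ℕ) :
    ∃ u : EuclideanSpace ℝ (Fin (n + 1)), ‖u‖ = 1 ∧
      ∀ v : EuclideanSpace ℝ (Fin (n + 1)), ‖v‖ = 1 → projVol p (n + 1) u ≤ projVol p (n + 1) v := by
  have hp1 : 1 < p := by linarith
  obtain ⟨h0, h1⟩ := th_bounds hp hp2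
  obtain ⟨t, ht, hmin⟩ := (aDER h0 h1 (n + 1)).1 (by omega)
  refine ⟨sv t, sv_norm ht, fun v hv => ?_⟩
  rw [vol_le_iff hp1 hp2 (sv_norm ht) hv, sv_sq ht]
  exact hmin _ (sx_sq hv)

end Pool.Agent.Helper53.PT
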