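import Pool.Agent.Helper53.PT.Fin1
import Pool.Agent.Helper28.NO.Vol
import Pool.Agent.Helper27.NO.J
import Pool.Agent.Helper27.NO.R2
import Pool.Agent.Helper31.NO.W
import Pool.Agent.Helper33.NO.D3a
import Pool.Agent.Helper35.NO.D3b
import Pool.Agent.Helper50.NO.PackB
import Pool.Agent.Helper75.NO.I
import Pool.Agent.Helper77.NO.R1
import Pool.Agent.Helper88.NO.D12
import Pool.Agent.Helper88.NO.D4
import Pool.Agent.Helper90.NO.AG
import Pool.Agent.Helper90.NO.T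
import Pool.Agent.Helper96.NO.E1
import Pool.Agent.Helper96.NO.R345
import Pool.Agent.Helper53.Pq.Final
import Pool.Agent.Helper89.Pq.MOM
import Pool.Agent.Helper88.Pq.M4
import Pool.Agent.Helper45.Pq.TV
import Pool.Agent.Helper86.Pq.B4
import Pool.Agent.Helper82.Pq.NUM
import Pool.Agent.Helper65.Pq.C0
import Pool.Agent.Helper56.Pq.FN
import Pool.Agent.Helper69.Pq.A1
import Pool.Agent.Helper6.Pq.HB
import Pool.Agent.Helper37.Pq.E2
import Pool.Agent.Helper73.Pq.LL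
import Pool.Agent.Helper11.Pq.QQ
import Pool.Agent.Helper67.Pq.IAB
import Pool.Agent.Helper13.Pq.I1
import Pool.Agent.Helper19.Pq.IID
import Pool.Agent.Helper61.Pq.IIS
import Pool.Agent.Helper58.Pq.NEAR
import Pool.Agent.Helper77.Pq.DD
import Pool.Agent.Helper63.Pq.AGVOL
import Pool.Agent.Helper25.Pq.CLT

/-!
# MP_705522_gt: the range `1 < p ≤ 4/3`, and the main diagonal for `p > 4/3` and large dimension
-/

namespace Pool.Agent.Helper53.PT

open MeasureTheory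
open Pool.Agent.Helper7.Proj (Bp projVol)

/-- The packets for `q ≥ 6`. -/
theorem packets : Pool.Agent.Helper28.NO.Pk2 where
  P :=
    { I := Pool.Agent.Helper75.NO.goalI Pool.Agent.Helper27.NO.goalExp Pool.Agent.Helper27.NO.goalJ
      W := Pool.Agent.Helper31.NO.gw
      AG := Pool.Agent.Helper90.NO.goalAG
      T := Pool.Agent.Helper90.NO.goalT
      B := Pool.Agent.Helper50.NO.goalB
      R1 := Pool.Agent.Helper77.NO.goalR1
      R2 := Pool.Agent.Helper27.NO.goalR2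
      R3 := Pool.Agent.Helper96.NO.goalR3
      R4 := Pool.Agent.Helper96.NO.goalR4
      R5 := Pool.Agent.Helper96.NO.goalR5 }
  D1 := Pool.Agent.Helper88.NO.goalD1
  base := Pool.Agent.Helper88.NO.goalD4 Pool.Agent.Helper88.NO.goalD1 Pool.Agent.Helper88.NO.goalD2
    Pool.Agent.Helper33.NO.goalD3a Pool.Agent.Helper35.NO.goalD3b
  E1 := Pool.Agent.Helper96.NO.goalE1
  D := Pool.Agent.Helper13.Proj.pktD
  E := Pool.Agent.Helper85.ProjE.pktE

/-- The packets for `4 ≤ q ≤ 6`. -/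
theorem packetsQ : Pool.Agent.Helper53.Pq.Pk where
  num := Pool.Agent.Helper82.Pq.gNum
  c0 := Pool.Agent.Helper65.Pq.gC0
  fn := Pool.Agent.Helper56.Pq.gFn Pool.Agent.Helper65.Pq.gC0
  a1 := Pool.Agent.Helper69.Pq.gA1
  hb := Pool.Agent.Helper6.Pq.gH
  e2 := Pool.Agent.Helper37.Pq.gE2
  ll := Pool.Agent.Helper73.Pq.gLL
  qq := Pool.Agent.Helper11.Pq.gQ
  ia := Pool.Agent.Helper67.Pq.gIa
  ib := Pool.Agent.Helper67.Pq.gIb
  i1 := Pool.Agent.Helper13.Pq.gI1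
  iid := Pool.Agent.Helper19.Pq.gIIdir
  iis := Pool.Agent.Helper61.Pq.gIIsc
  law := Pool.Agent.Helper58.Pq.gLaw
  near := Pool.Agent.Helper58.Pq.gNear
  dd := Pool.Agent.Helper77.Pq.gD
  ag := Pool.Agent.Helper63.Pq.gAGr

theorem packetsF : Pool.Agent.Helper53.Pq.PkF where
  main := Pool.Agent.Helper53.Pq.goalMain packetsQ
  b4 := Pool.Agent.Helper86.Pq.gB4 Pool.Agent.Helper89.Pq.gMom Pool.Agent.Helper88.Pq.gM4
    Pool.Agent.Helper45.Pq.gTV
  vol := Pool.Agent.Helper63.Pq.gVol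
  clt := Pool.Agent.Helper25.Pq.gCLT Pool.Agent.Helper82.Pq.gNum Pool.Agent.Helper65.Pq.gC0
    Pool.Agent.Helper89.Pq.gMom

/-- `1 < p ≤ 4/3` -/
theorem low {p : ℝ} (hp : 1 < p) (hp2 : p ≤ 4 / 3) {n : ℕ} (u : EuclideanSpace ℝ (Fin (n + 1)))
    (hu : ‖u‖ = 1) :
    (volume : Measure (EuclideanSpace ℝ (Fin n))).real (Bp p n) * (2 : ℝ) ^ (1 / 2 - 1 / p) ≤
      projVol p (n + 1) u ∧
    (projVol p (n + 1) u =
      (volume : Measure (EuclideanSpace ℝ (Fin n))).real (Bp p n) * (2 : ℝ) ^ (1 / 2 - 1 / p) →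
      ∃ i j, i ≠ j ∧ |u i| = 1 / √2 ∧ |u j| = 1 / √2) := by
  have hV := V_pos hp n
  rcases le_total p (6 / 5) with h | h
  · obtain ⟨h1, h2⟩ := Pool.Agent.Helper28.NO.final packets hp h n u hu
    rw [mul_comm]
    exact ⟨h1, fun e => (h2 hV).1 e⟩
  · obtain ⟨h1, h2⟩ := Pool.Agent.Helper53.Pq.final packetsF h hp2 n u hu
    rw [mul_comm]
    exact ⟨h1, fun e => (h2 hV).1 e⟩

/-- a pair diagonal -/
theorem exists_pair {m : ℕ} (hm : 1 ≤ m) : ∃ w : EuclideanSpace ℝ (Fin (m + 1)), ‖w‖ = 1 ∧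
    ∃ i j, i ≠ j ∧ |w i| = 1 / √2 ∧ |w j| = 1 / √2 := by
  have hne : (0 : Fin (m + 1)) ≠ Fin.last m := by
    intro h
    have := congrArg Fin.val h
    simp at this
    omega
  refine ⟨EuclideanSpace.single 0 (1 / √2) + EuclideanSpace.single (Fin.last m) (1 / √2), ?_,
    0, Fin.last m, hne, ?_, ?_⟩
  · rw [EuclideanSpace.norm_eq, Real.sqrt_eq_one]
    rw [← Finset.sum_subset (Finset.subset_univ ({0, Fin.last m} : Finset (Fin (m + 1))))]
    · rw [Finset.sum_pair hne]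
      simp [hne, hne.symm]
      norm_num
    · intro k _ hk
      simp only [Finset.mem_insert, Finset.mem_singleton, not_or] at hk
      simp [hk.1, hk.2]
  · simp [hne]
  · simp [hne.symm]

/-- a main diagonal -/
theorem exists_main (m : ℕ) : ∃ w : EuclideanSpace ℝ (Fin (m + 1)), ‖w‖ = 1 ∧
    ∀ i, |w i| = 1 / √((m + 1 : ℕ) : ℝ) := by
  have hn1 : (0 : ℝ) < ((m + 1 : ℕ) : ℝ) := by positivity
  refine ⟨WithLp.toLp 2 (fun _ => 1 / √((m + 1 : ℕ) : ℝ)), ?_, fun i => ?_⟩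
  · rw [EuclideanSpace.norm_eq, Real.sqrt_eq_one]
    show ∑ i : Fin (m + 1), ‖1 / √((m + 1 : ℕ) : ℝ)‖ ^ 2 = 1
    simp only [Real.norm_eq_abs, sq_abs, div_pow, one_pow, Real.sq_sqrt hn1.le]
    rw [Finset.sum_const, Finset.card_univ, Fintype.card_fin, nsmul_eq_mul]
    field_simp
  · show |1 / √((m + 1 : ℕ) : ℝ)| = _
    exact abs_of_nonneg (by positivity)

/-- for `p > 4/3` the main diagonal beats the pair diagonal in large dimension -/
theorem cltJ {p : ℝ} (hp : 4 / 3 < p) (hp2 : p < 2) : ∃ n0 : ℕ, ∀ n : ℕ, n0 ≤ n →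
    JJ p (n + 1) < (2 : ℝ) ^ (1 / 2 - 1 / p) := by
  have hp1 : 1 < p := by linarith
  obtain ⟨n0, h0⟩ := Pool.Agent.Helper53.Pq.sharp packetsF hp hp2
  refine ⟨n0 + 1, fun n hn => ?_⟩
  obtain ⟨u, hu, i, j, hij, hi, hj⟩ := exists_pair (m := n) (by omega)
  obtain ⟨v, hv, hvi, hlt⟩ := h0 n (by omega) u hu ⟨i, j, hij, hi, hj⟩
  have hfu := Pool.Agent.Helper28.NO.proj_finite (by linarith : 0 < p) (n + 1) u
  have hfv := Pool.Agent.Helper28.NO.proj_finite (by linarith : 0 < p) (n + 1) v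
  have h1 : projVol p (n + 1) v < projVol p (n + 1) u := by
    unfold projVol Measure.real
    exact (ENNReal.toReal_lt_toReal hfv hfu).2 hlt
  rw [vol_pair hp1 hp2 u hu hij hi hj, vol_main hp1 hp2 v hv (fun i => by
    rw [hvi]; push_cast; rfl)] at h1
  exact lt_of_mul_lt_mul_left h1 (V_pos hp1 n).le

/-- the complete answer, real form (dimension `n + 1 ≥ 2`) -/
theorem full (hGT : ∀ θ : ℝ, 1 / 4 ≤ θ → θ < 1 / 2 → GT θ) {p : ℝ} (hp : 1 < p) (hp2 : p < 2) {n : ℕ}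
    (hn : 1 ≤ n) :
    (∃ u : EuclideanSpace ℝ (Fin (n + 1)), ‖u‖ = 1 ∧ projVol p (n + 1) u =
      (volume : Measure (EuclideanSpace ℝ (Fin n))).real (Bp p n) *
        min ((2 : ℝ) ^ (1 / 2 - 1 / p)) (JJ p (n + 1))) ∧
    ∀ u : EuclideanSpace ℝ (Fin (n + 1)), ‖u‖ = 1 →
      (volume : Measure (EuclideanSpace ℝ (Fin n))).real (Bp p n) *
        min ((2 : ℝ) ^ (1 / 2 - 1 / p)) (JJ p (n + 1)) ≤ projVol p (n + 1) u ∧
      (projVol p (n + 1) u = (volume : Measure (EuclideanSpace ℝ (Fin n))).real (Bp p n) *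
        min ((2 : ℝ) ^ (1 / 2 - 1 / p)) (JJ p (n + 1)) ↔
        (((∃ i j, i ≠ j ∧ |u i| = 1 / √2 ∧ |u j| = 1 / √2) ∧
          (2 : ℝ) ^ (1 / 2 - 1 / p) ≤ JJ p (n + 1)) ∨
        ((∀ i, |u i| = 1 / √((n + 1 : ℕ) : ℝ)) ∧ JJ p (n + 1) ≤ (2 : ℝ) ^ (1 / 2 - 1 / p)))) := by
  have hV := V_pos hp n
  set V := (volume : Measure (EuclideanSpace ℝ (Fin n))).real (Bp p n) with hVd
  set c := (2 : ℝ) ^ (1 / 2 - 1 / p) with hc
  set J := JJ p (n + 1) with hJ
  obtain ⟨w, hw, i0, j0, hij0, hi0, hj0⟩ := exists_pair hn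
  obtain ⟨w', hw', hm'⟩ := exists_main n
  have ew := vol_pair hp hp2 w hw hij0 hi0 hj0
  have ew' := vol_main hp hp2 w' hw' hm'
  rw [← hVd] at ew ew'
  rw [← hc] at ew
  rw [← hJ] at ew'
  -- lower bound and the equality cases
  have key : ∀ u : EuclideanSpace ℝ (Fin (n + 1)), ‖u‖ = 1 → V * min c J ≤ projVol p (n + 1) u ∧
      (projVol p (n + 1) u = V * min c J →
        (∀ i, |u i| = 1 / √((n + 1 : ℕ) : ℝ)) ∨ ∃ i j, i ≠ j ∧ |u i| = 1 / √2 ∧ |u j| = 1 / √2) := by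
    rcases le_total p (4 / 3) with h | h
    · have hcJ : c ≤ J := by
        have := (low hp h w' hw').1
        rw [ew'] at this
        exact le_of_mul_le_mul_left this hV
      rw [min_eq_left hcJ]
      intro u hu
      obtain ⟨h1, h2⟩ := low hp h u hu
      exact ⟨h1, fun e => Or.inr (h2 e)⟩
    · obtain ⟨b0, b1⟩ := th_bounds h hp2
      have hG := hGT _ b0 b1
      obtain ⟨u0, hu0, hmin0⟩ := exists_min h hp2 n
      have e0 : projVol p (n + 1) u0 = V * min c J := by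
        apply le_antisymm
        · rcases le_total c J with hcJ | hcJ
          · rw [min_eq_left hcJ, ← ew]; exact hmin0 w hw
          · rw [min_eq_right hcJ, ← ew']; exact hmin0 w' hw'
        · rcases min_good h hp2 hG hn hu0 hmin0 with hm | ⟨i, j, hij, hi, hj⟩
          · rw [vol_main hp hp2 u0 hu0 hm]
            exact mul_le_mul_of_nonneg_left (min_le_right _ _) hV.le
          · rw [vol_pair hp hp2 u0 hu0 hij hi hj]
            exact mul_le_mul_of_nonneg_left (min_le_left _ _) hV.le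
      intro u hu
      refine ⟨e0 ▸ hmin0 u hu, fun e => ?_⟩
      exact min_good h hp2 hG hn hu fun v hv => by rw [e, ← e0]; exact hmin0 v hv
  refine ⟨?_, fun u hu => ⟨(key u hu).1, fun e => ?_, fun h => ?_⟩⟩
  · rcases le_total c J with hcJ | hcJ
    · exact ⟨w, hw, by rw [min_eq_left hcJ]; exact ew⟩
    · exact ⟨w', hw', by rw [min_eq_right hcJ]; exact ew'⟩
  · rcases (key u hu).2 e with hm | ⟨i, j, hij, hi, hj⟩
    · right
      refine ⟨hm, ?_⟩
      rw [vol_main hp hp2 u hu hm] at e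
      have e5 : J = min c J := mul_left_cancel₀ hV.ne' e
      exact e5.trans_le (min_le_left _ _)
    · left
      refine ⟨⟨i, j, hij, hi, hj⟩, ?_⟩
      rw [vol_pair hp hp2 u hu hij hi hj] at e
      have e5 : c = min c J := mul_left_cancel₀ hV.ne' e
      exact e5.trans_le (min_le_right _ _)
  · rcases h with ⟨⟨i, j, hij, hi, hj⟩, hcJ⟩ | ⟨hm, hcJ⟩
    · rw [min_eq_left hcJ]
      exact vol_pair hp hp2 u hu hij hi hj
    · rw [min_eq_right hcJ]
      exact vol_main hp hp2 u hu hm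

end Pool.Agent.Helper53.PT
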