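import Pool.Agent.Helper53.PT.Fin2
import Pool.Agent.Helper7.Proj.Main

/-!
# MP_705522_gt: volume of the ball, comparison of the two candidates
-/

namespace Pool.Agent.Helper53.PT

open MeasureTheory
open Pool.Agent.Helper7.Proj (Bp projVol)

/-- volume of `B_p^n` -/
theorem vol_ball {p : ℝ} (hp : 1 ≤ p) (n : ℕ) :
    (volume : Measure (EuclideanSpace ℝ (Fin (n + 1)))) {x | ∑ i, |x i| ^ p ≤ 1} =
      ENNReal.ofReal ((2 * Real.Gamma (1 / p + 1)) ^ (n + 1) / Real.Gamma (((n + 1 : ℕ) : ℝ) / p + 1)) := by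
  have hp0 : 0 < p := by linarith
  have h := MeasureTheory.volume_sum_rpow_le (Fin (n + 1)) hp 1
  rw [ENNReal.ofReal_one, one_pow, one_mul, Fintype.card_fin] at h
  rw [← h, ← (PiLp.volume_preserving_toLp (Fin (n + 1))).measure_preimage]
  · congr 1
    ext x
    simp only [Set.mem_preimage, Set.mem_setOf_eq]
    have h0 : 0 ≤ ∑ i, |x i| ^ p := Finset.sum_nonneg fun i _ => Real.rpow_nonneg (abs_nonneg _) _
    constructor
    · intro h1
      exact Real.rpow_le_one h0 h1 (by positivity)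
    · intro h1
      by_contra hcon
      exact absurd h1 (not_le.2 (Real.one_lt_rpow (not_le.1 hcon) (by positivity)))
  · refine (IsClosed.measurableSet ?_).nullMeasurableSet
    refine isClosed_le ?_ continuous_const
    refine continuous_finset_sum _ fun i _ => ?_
    exact (continuous_abs.comp (by fun_prop)).rpow_const fun _ => Or.inr hp0.le

/-- a main diagonal of `ℝ^n`, `n ≥ 3`, is not a pair diagonal -/
theorem main_not_pair {n : ℕ} (hn : 2 ≤ n) {u : EuclideanSpace ℝ (Fin (n + 1))}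
    (hm : ∀ i, |u i| = 1 / √((n + 1 : ℕ) : ℝ)) {i : Fin (n + 1)} (hi : |u i| = 1 / √2) : False := by
  rw [hm, one_div, one_div, inv_inj, Real.sqrt_inj (by positivity) (by norm_num)] at hi
  have : n + 1 = 2 := by exact_mod_cast hi
  omega

theorem lt_low {p : ℝ} (hp : 1 < p) (hp2 : p ≤ 4 / 3) {n : ℕ} (hn : 2 ≤ n) :
    (2 : ℝ) ^ (1 / 2 - 1 / p) < JJ p (n + 1) := by
  obtain ⟨w, hw, hm⟩ := exists_main n
  obtain ⟨h1, h2⟩ := low hp hp2 w hw
  have e := vol_main hp (by linarith) w hw hm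
  have hV := V_pos hp n
  rw [e] at h1 h2
  refine lt_of_le_of_ne (le_of_mul_le_mul_left h1 hV) fun h => ?_
  obtain ⟨i, _, _, hi, _⟩ := h2 (by rw [h])
  exact main_not_pair hn hm hi

theorem near_two : ∃ p₀ : ℝ, 1 < p₀ ∧ p₀ < 2 ∧ ∀ p : ℝ, p₀ < p → p < 2 → ∀ n : ℕ, 2 ≤ n →
    JJ p (n + 1) < (2 : ℝ) ^ (1 / 2 - 1 / p) := by
  obtain ⟨p₀, h1, h2, h⟩ := Pool.Agent.Helper7.Proj.mainENN
  refine ⟨p₀, h1, h2, fun p hp hp2 n hn => ?_⟩
  have hp1 : 1 < p := by linarith
  obtain ⟨w, hw, i, j, hij, hi, hj⟩ := exists_pair (m := n) (by omega)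
  obtain ⟨w', hw', hm'⟩ := exists_main n
  have hfin := Pool.Agent.Helper28.NO.proj_finite (by linarith : 0 < p) (n + 1)
  have k := h p hp hp2 (n + 1) (by omega)
  have hV := V_pos hp1 n
  have ew := vol_pair hp1 hp2 w hw hij hi hj
  have ew' := vol_main hp1 hp2 w' hw' hm'
  have a1 : JJ p (n + 1) ≤ (2 : ℝ) ^ (1 / 2 - 1 / p) := by
    have h3 := (k w' hw').2 (fun i => by rw [hm']) w hw
    have h4 : projVol p (n + 1) w' ≤ projVol p (n + 1) w :=
      (ENNReal.toReal_le_toReal (hfin w') (hfin w)).2 h3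
    rw [ew, ew'] at h4
    exact le_of_mul_le_mul_left h4 hV
  refine lt_of_le_of_ne a1 fun he => ?_
  have h3 : ∀ i, |w i| = 1 / √((n + 1 : ℕ) : ℝ) := by
    refine (k w hw).1 fun v hv => ?_
    have h4 := (k w' hw').2 (fun i => by rw [hm']) v hv
    have h5 : projVol p (n + 1) w' ≤ projVol p (n + 1) v :=
      (ENNReal.toReal_le_toReal (hfin w') (hfin v)).2 h4
    have h6 : projVol p (n + 1) w ≤ projVol p (n + 1) v := by
      rw [ew, ← he, ← ew']; exact h5
    exact (ENNReal.toReal_le_toReal (hfin w) (hfin v)).1 h6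
  exact main_not_pair hn h3 hi

theorem eq_two {p : ℝ} (hp : 1 < p) (hp2 : p < 2) : JJ p 2 = (2 : ℝ) ^ (1 / 2 - 1 / p) := by
  obtain ⟨w, hw, hm⟩ := exists_main 1
  have e := vol_main hp hp2 w hw hm
  have e2 := vol_pair hp hp2 w hw (i := 0) (j := 1) (by decide) (by rw [hm]; norm_num)
    (by rw [hm]; norm_num)
  rw [e] at e2
  exact mul_left_cancel₀ (V_pos hp 1).ne' e2

end Pool.Agent.Helper53.PT
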