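import Pool.Agent.Helper53.PT.Fin3

/-!
# MP_705522_gt: the two candidates in terms of `V θ n`
-/

namespace Pool.Agent.Helper53.PT

open MeasureTheory Set
open Pool.Agent.Helper7.Proj (Bp projVol)

/-- `V θ 2`, the value at a pair diagonal (explicit) -/
theorem V_two {θ : ℝ} (h0 : 0 < θ) (h1 : θ < 1 / 2) :
    V θ 2 = Real.pi / 2 / sg θ * (2 : ℝ) ^ (θ - 1 / 2) := by
  have h := (aPAIR h0 h1 (a := 1 / 2) (b := 1 / 2) (by norm_num) (by norm_num)).2
  have e1 : V θ 2 = ∫ ξ in Ioi (0 : ℝ), (1 - f0 θ (1 / 2 * ξ ^ 2) * f0 θ (1 / 2 * ξ ^ 2)) / ξ ^ 2 := by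
    unfold V G PP
    simp only [Fin.prod_univ_two, Nat.cast_ofNat]
  rw [e1, h]
  congr 1
  rw [← two_mul, Real.mul_rpow (by norm_num) (by positivity), ← Real.rpow_mul (by norm_num),
    one_div, Real.inv_rpow (by norm_num), ← Real.rpow_neg (by norm_num),
    ← Real.rpow_add (by norm_num)]
  congr 1
  field_simp
  ring

/-- the main diagonal ratio in terms of `V` -/
theorem JJ_V {p : ℝ} (hp : 1 < p) (hp2 : p < 2) (n : ℕ) :
    JJ p (n + 1) = 2 / Real.pi * sg ((p - 1) / p) * V ((p - 1) / p) (n + 1) := by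
  obtain ⟨w, hw, hm⟩ := exists_main n
  have e1 := vol_main hp hp2 w hw hm
  rw [vol_eq hp hp2 w hw] at e1
  have e2 := mul_left_cancel₀ (V_pos hp n).ne' e1
  rw [← e2]
  unfold V
  congr 2
  ext i
  have h1 := hm i
  have h2 : (|w i|) ^ 2 = 1 / ((n + 1 : ℕ) : ℝ) := by
    rw [h1, div_pow, one_pow, Real.sq_sqrt (by positivity)]
  rwa [sq_abs] at h2

/-- the pair ratio in terms of `V` -/
theorem pair_V {p : ℝ} (hp : 1 < p) (hp2 : p < 2) :
    (2 : ℝ) ^ (1 / 2 - 1 / p) = 2 / Real.pi * sg ((p - 1) / p) * V ((p - 1) / p) 2 := by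
  have hp0 : 0 < p := by linarith
  have h0 : 0 < (p - 1) / p := div_pos (by linarith) hp0
  have h1 : (p - 1) / p < 1 / 2 := by rw [div_lt_div_iff₀ hp0 (by norm_num)]; linarith
  rw [V_two h0 h1]
  have hs := sg_pos h0 (by linarith : (p - 1) / p < 1)
  have hpi := Real.pi_pos
  have e : (p - 1) / p - 1 / 2 = 1 / 2 - 1 / p := by field_simp; ring
  rw [e]
  field_simp

/-- comparison of the two ratios is comparison of `V θ n` and `V θ 2` -/
theorem lt_iff_V {p : ℝ} (hp : 1 < p) (hp2 : p < 2) {n : ℕ} (hn : 1 ≤ n) :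
    ((2 : ℝ) ^ (1 / 2 - 1 / p) < JJ p n ↔ V ((p - 1) / p) 2 < V ((p - 1) / p) n) ∧
    (JJ p n < (2 : ℝ) ^ (1 / 2 - 1 / p) ↔ V ((p - 1) / p) n < V ((p - 1) / p) 2) := by
  obtain ⟨m, rfl⟩ : ∃ m, n = m + 1 := ⟨n - 1, by omega⟩
  have hp0 : 0 < p := by linarith
  have h0 : 0 < (p - 1) / p := div_pos (by linarith) hp0
  have h1 : (p - 1) / p < 1 / 2 := by rw [div_lt_div_iff₀ hp0 (by norm_num)]; linarith
  have hs := sg_pos h0 (by linarith : (p - 1) / p < 1)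
  have hpi := Real.pi_pos
  rw [JJ_V hp hp2, pair_V hp hp2]
  exact ⟨mul_lt_mul_iff_right₀ (by positivity), mul_lt_mul_iff_right₀ (by positivity)⟩

/-- `θ ≤ 1/4` (`p ≤ 4/3`): the pair diagonal is better than the main diagonal -/
theorem V_low {θ : ℝ} (h0 : 0 < θ) (h1 : θ ≤ 1 / 4) {n : ℕ} (hn : 3 ≤ n) : V θ 2 < V θ n := by
  obtain ⟨m, rfl⟩ : ∃ m, n = m + 1 := ⟨n - 1, by omega⟩
  have h2 : 0 < 1 - θ := by linarith
  have hp : 1 < 1 / (1 - θ) := by rw [lt_div_iff₀ h2]; linarith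
  have hp2 : 1 / (1 - θ) ≤ 4 / 3 := by rw [div_le_div_iff₀ h2 (by norm_num)]; linarith
  have e : (1 / (1 - θ) - 1) / (1 / (1 - θ)) = θ := by
    have := h2.ne'
    field_simp
    ring
  have h := (lt_iff_V hp (by linarith) (n := m + 1) (by omega)).1.1 (lt_low hp hp2 (by omega))
  rwa [e] at h

end Pool.Agent.Helper53.PT
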