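import Pool.Agent.Helper53.PT.GoalsC

/-!
# MP_705522_gt: the grid
-/

namespace Pool.Agent.Helper53.PT.GR

theorem cd {α : Type} (a b : ℕ) (x y : α) : cond (Nat.ble a b) x y = if a ≤ b then x else y := by
  by_cases h : a ≤ b
  · rw [Nat.ble_eq_true_of_le h, if_pos h]; rfl
  · have : Nat.ble a b = false := by
      rw [← Bool.not_eq_true, Nat.ble_eq]; exact h
    rw [this, if_neg h]; rfl

theorem shl (a b : ℕ) : Nat.shiftLeft a b = a * 2 ^ b := Nat.shiftLeft_eq a b
theorem shr (a b : ℕ) : Nat.shiftRight a b = a / 2 ^ b := Nat.shiftRight_eq_div_pow a b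
theorem nadd (a b : ℕ) : Nat.add a b = a + b := rfl
theorem nsub (a b : ℕ) : Nat.sub a b = a - b := rfl
theorem nmod (a b : ℕ) : Nat.mod a b = a % b := rfl

theorem shf_eq (k : ℕ) : N.shf k = if k ≤ 255 then 17 else if k ≤ 735 then 20 else if k ≤ 991 then 22 else 24 := by
  unfold N.shf
  rw [cd, cd, cd]

theorem xg_eq (k : ℕ) : N.xgN k = if k ≤ 255 then k * 131072 else if k ≤ 735 then 33554432 + (k - 256) * 1048576
    else if k ≤ 991 then 536870912 + (k - 736) * 4194304 else 1610612736 + (k - 992) * 16777216 := by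
  unfold N.xgN
  rw [cd, cd, cd, shl, shl, shl, shl, nadd, nadd, nadd, nsub, nsub, nsub]
  norm_num

theorem on_eq {α : Type} (x : ℕ) (f : ℕ → ℕ → ℕ → α) : N.onCell x f =
    if x ≤ 33554431 then f (x / 131072) (x % 131072) 17
    else if x ≤ 536870911 then f (256 + (x - 33554432) / 1048576) (x % 1048576) 20
    else if x ≤ 1610612735 then f (736 + (x - 536870912) / 4194304) (x % 4194304) 22
    else f (992 + (x - 1610612736) / 16777216) (x % 16777216) 24 := by
  unfold N.onCell
  rw [cd, cd, cd, shr, shr, shr, shr, nadd, nadd, nadd, nsub, nsub, nsub, nmod, nmod, nmod, nmod]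
  norm_num

theorem idx_eq (x : ℕ) : N.idx x = if 4294967296 ≤ x then 1152 else
    if x ≤ 33554431 then x / 131072
    else if x ≤ 536870911 then 256 + (x - 33554432) / 1048576
    else if x ≤ 1610612735 then 736 + (x - 536870912) / 4194304
    else 992 + (x - 1610612736) / 16777216 := by
  unfold N.idx
  rw [cd, on_eq]

theorem step {k : ℕ} (hk : k < 1152) :
    N.xgN (k + 1) = N.xgN k + 2 ^ N.shf k ∧ 17 ≤ N.shf k ∧ N.shf k ≤ 24 := by
  rw [shf_eq, xg_eq, xg_eq]
  by_cases h1 : k ≤ 255
  · rw [if_pos h1, if_pos h1]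
    refine ⟨?_, by norm_num, by norm_num⟩
    by_cases h2 : k + 1 ≤ 255
    · rw [if_pos h2]; norm_num; omega
    · rw [if_neg h2, if_pos (by omega)]; norm_num; omega
  · rw [if_neg h1, if_neg h1, if_neg (by omega : ¬ k + 1 ≤ 255)]
    by_cases h2 : k ≤ 735
    · rw [if_pos h2, if_pos h2]
      refine ⟨?_, by norm_num, by norm_num⟩
      by_cases h3 : k + 1 ≤ 735
      · rw [if_pos h3]; norm_num; omega
      · rw [if_neg h3, if_pos (by omega)]; norm_num; omega
    · rw [if_neg h2, if_neg h2, if_neg (by omega : ¬ k + 1 ≤ 735)]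
      by_cases h3 : k ≤ 991
      · rw [if_pos h3, if_pos h3]
        refine ⟨?_, by norm_num, by norm_num⟩
        by_cases h4 : k + 1 ≤ 991
        · rw [if_pos h4]; norm_num; omega
        · rw [if_neg h4]; norm_num; omega
      · rw [if_neg h3, if_neg h3, if_neg (by omega : ¬ k + 1 ≤ 991)]
        refine ⟨?_, by norm_num, by norm_num⟩
        norm_num; omega

theorem cellp {x : ℕ} (hx : x < 2 ^ 32) : ∃ k d : ℕ, k < 1152 ∧ d < 2 ^ N.shf k ∧ x = N.xgN k + d ∧
    N.idx x = k ∧ ∀ (α : Type) (f : ℕ → ℕ → ℕ → α), N.onCell x f = f k d (N.shf k) := by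
  have hx' : x < 4294967296 := by norm_num at hx; exact hx
  by_cases h1 : x ≤ 33554431
  · have hs : N.shf (x / 131072) = 17 := by rw [shf_eq, if_pos (by omega)]
    refine ⟨x / 131072, x % 131072, by omega, ?_, ?_, ?_, fun α f => ?_⟩
    · rw [hs]; norm_num; omega
    · rw [xg_eq, if_pos (by omega)]; omega
    · rw [idx_eq, if_neg (by omega), if_pos h1]
    · rw [hs, on_eq, if_pos h1]
  · by_cases h2 : x ≤ 536870911
    · have hs : N.shf (256 + (x - 33554432) / 1048576) = 20 := by
        rw [shf_eq, if_neg (by omega), if_pos (by omega)]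
      refine ⟨256 + (x - 33554432) / 1048576, x % 1048576, by omega, ?_, ?_, ?_, fun α f => ?_⟩
      · rw [hs]; norm_num; omega
      · rw [xg_eq, if_neg (by omega), if_pos (by omega)]; omega
      · rw [idx_eq, if_neg (by omega), if_neg h1, if_pos h2]
      · rw [hs, on_eq, if_neg h1, if_pos h2]
    · by_cases h3 : x ≤ 1610612735
      · have hs : N.shf (736 + (x - 536870912) / 4194304) = 22 := by
          rw [shf_eq, if_neg (by omega), if_neg (by omega), if_pos (by omega)]
        refine ⟨736 + (x - 536870912) / 4194304, x % 4194304, by omega, ?_, ?_, ?_, fun α f => ?_⟩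
        · rw [hs]; norm_num; omega
        · rw [xg_eq, if_neg (by omega), if_neg (by omega), if_pos (by omega)]; omega
        · rw [idx_eq, if_neg (by omega), if_neg h1, if_neg h2, if_pos h3]
        · rw [hs, on_eq, if_neg h1, if_neg h2, if_pos h3]
      · have hs : N.shf (992 + (x - 1610612736) / 16777216) = 24 := by
          rw [shf_eq, if_neg (by omega), if_neg (by omega), if_neg (by omega)]
        refine ⟨992 + (x - 1610612736) / 16777216, x % 16777216, by omega, ?_, ?_, ?_, fun α f => ?_⟩
        · rw [hs]; norm_num; omega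
        · rw [xg_eq, if_neg (by omega), if_neg (by omega), if_neg (by omega)]; omega
        · rw [idx_eq, if_neg (by omega), if_neg h1, if_neg h2, if_neg h3]
        · rw [hs, on_eq, if_neg h1, if_neg h2, if_neg h3]

theorem mono {j k : ℕ} (h : j < k) (hk : k ≤ 1152) : N.xgN j < N.xgN k := by
  obtain ⟨d, rfl⟩ : ∃ d, k = j + 1 + d := ⟨k - j - 1, by omega⟩
  clear h
  induction d with
  | zero =>
    have := (step (k := j) (by omega)).1
    rw [add_zero, this]
    exact Nat.lt_add_of_pos_right (by positivity)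
  | succ d ih =>
    have h1 := ih (by omega)
    have h2 := (step (k := j + 1 + d) (by omega)).1
    rw [← add_assoc, h2]
    exact lt_of_lt_of_le h1 (Nat.le_add_right _ _)

theorem top : N.xgN 1152 = 2 ^ 32 := by rw [xg_eq]; norm_num

theorem big {x : ℕ} (hx : 2 ^ 32 ≤ x) : N.idx x = 1152 := by
  rw [idx_eq, if_pos (by norm_num at hx; exact hx)]

theorem _root_.Pool.Agent.Helper53.PT.gGRID : GGRID := by
  refine ⟨by rw [xg_eq]; norm_num, top, fun k hk => step hk, fun j k h hk => mono h hk, fun x hx => cellp hx,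
    fun x hx => big hx, fun x => ?_, fun k hk => ?_⟩
  · by_cases hx : x < 2 ^ 32
    · obtain ⟨k, d, _, _, h1, h2, _⟩ := cellp hx
      rw [h2, h1]
      omega
    · rw [big (not_lt.1 hx), top]
      exact not_lt.1 hx
  · rcases hk.eq_or_lt with rfl | hk
    · exact big top.ge
    · have h0 : N.xgN k < 2 ^ 32 := by rw [← top]; exact mono hk le_rfl
      obtain ⟨k', d, hk', hd, h1, h2, _⟩ := cellp h0
      rw [h2]
      rcases lt_trichotomy k k' with h | h | h
      · have := mono h hk'.le
        omega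
      · exact h.symm
      · have h3 : N.xgN (k' + 1) ≤ N.xgN k := by
          rcases (Nat.succ_le_of_lt h).eq_or_lt with h4 | h4
          · rw [show k' + 1 = k from h4]
          · exact (mono h4 hk.le).le
        have h5 := (step hk').1
        omega

end Pool.Agent.Helper53.PT.GR
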