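import Pool.Agent.Helper53.PT.Cert.All
import Pool.Agent.Helper63.P705.Snd
import Pool.Agent.Helper63.P705.NR.Final
import Pool.Agent.Helper20.PT.TB
import Pool.Agent.Helper75.PT.SGN
import Pool.Agent.Helper72.PT.E3N
import Pool.Agent.Helper95.PT.KT
import Pool.Agent.Helper60.PT.POKS
import Pool.Agent.Helper53.PT.GRID
import Pool.Agent.Helper53.PT.FAN

/-!
# MP_705522_gt: minimisers of `G` for all `θ ∈ [1/4, 1/2)`
-/

namespace Pool.Agent.Helper53.PT

theorem sound (hG : GGRID) (hF : GFAN) : Sound := fun _ _ _ _ _ hb h =>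
  Pool.Agent.Helper63.P705.Snd.sGT hG Pool.Agent.Helper20.PT.gTB hF Pool.Agent.Helper75.PT.gSGN
    Pool.Agent.Helper72.PT.gE3N Pool.Agent.Helper95.PT.gKT Pool.Agent.Helper60.PT.gPOKS hb h

/-- Every minimiser of `G θ` on the simplex is a main diagonal or a pair diagonal. -/
theorem gt_all : ∀ θ : ℝ, 1 / 4 ≤ θ → θ < 1 / 2 → GT θ := by
  intro θ h0 h1
  rcases le_total θ (4016 / 8192 : ℝ) with h | h
  · exact gt_mid (sound gGRID gFAN) (by linarith) h
  · exact Pool.Agent.Helper63.P705.NR.near θ (by linarith) h1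

end Pool.Agent.Helper53.PT
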