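import Pool.Agent.Helper53.PT.Fin4
import Pool.Agent.Helper53.PT.Full

/-!
# MP_705522_gt: monotonicity in the dimension
-/

namespace Pool.Agent.Helper53.PT

open MeasureTheory Set
open Pool.Agent.Helper7.Proj (Bp projVol)

/-- `(1/m, …, 1/m, 0, …, 0)` -/
noncomputable def sm (m n : ℕ) : Fin n → ℝ := fun i => if i.val < m then 1 / (m : ℝ) else 0

theorem card_lt {m n : ℕ} (h : m ≤ n) : (Finset.univ.filter (fun i : Fin n => i.val < m)).card = m := by
  rw [Fin.card_filter_val_lt, min_eq_right h]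

theorem sm_sx {m n : ℕ} (h0 : 0 < m) (h : m ≤ n) : Sx (sm m n) := by
  refine ⟨fun i => ?_, ?_⟩
  · unfold sm
    split_ifs
    · positivity
    · exact le_rfl
  · unfold sm
    rw [Finset.sum_ite, Finset.sum_const, Finset.sum_const_zero, card_lt h, add_zero, nsmul_eq_mul]
    have : (m : ℝ) ≠ 0 := by positivity
    field_simp

theorem sm_G {θ : ℝ} (h0 : 0 < θ) (h1 : θ < 1 / 2) {m n : ℕ} (h : m ≤ n) : G θ (sm m n) = V θ m := by
  unfold V G
  congr 1
  ext ξ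
  congr 2
  unfold PP sm
  have e : ∀ i : Fin n, f0 θ ((if i.val < m then 1 / (m : ℝ) else 0) * ξ ^ 2) =
      if i.val < m then f0 θ (1 / (m : ℝ) * ξ ^ 2) else 1 := by
    intro i
    split_ifs
    · rfl
    · rw [zero_mul, f0_zero h0 h1]
  rw [Finset.prod_congr rfl fun i _ => e i, Finset.prod_ite, Finset.prod_const, Finset.prod_const_one,
    card_lt h, mul_one, Finset.prod_const, Finset.card_univ, Fintype.card_fin]

theorem sm_not_good {m n : ℕ} (h3 : 3 ≤ m) (h : m < n) : ¬ Good (sm m n) := by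
  rintro (hg | ⟨i, j, _, hi, _, _⟩)
  · have h1 := hg ⟨m, h⟩
    unfold sm at h1
    rw [if_neg (by simp)] at h1
    have hn0 : (0 : ℝ) < n := by exact_mod_cast (by omega : 0 < n)
    have : (0 : ℝ) < 1 / (n : ℝ) := by positivity
    linarith
  · unfold sm at hi
    split_ifs at hi
    · have h2 : (3 : ℝ) ≤ m := by exact_mod_cast h3
      have h4 : 1 / (m : ℝ) ≤ 1 / 3 := one_div_le_one_div_of_le (by norm_num) h2
      linarith
    · linarith

/-- value at a pair -/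
theorem G_pair {θ : ℝ} (h0 : 0 < θ) (h1 : θ < 1 / 2) {n : ℕ} {t : Fin n → ℝ} {i j : Fin n} (hij : i ≠ j)
    (hi : t i = 1 / 2) (hj : t j = 1 / 2) (hl : ∀ l, l ≠ i → l ≠ j → t l = 0) : G θ t = V θ 2 := by
  unfold V G
  congr 1
  ext ξ
  congr 2
  unfold PP
  rw [← Finset.prod_subset (Finset.subset_univ ({i, j} : Finset (Fin n))), Finset.prod_pair hij, hi, hj,
    Fin.prod_univ_two]
  · norm_num
  · intro k _ hk
    simp only [Finset.mem_insert, Finset.mem_singleton, not_or] at hk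
    rw [hl k hk.1 hk.2, zero_mul, f0_zero h0 h1]

/-- If the main diagonal of `ℝ^m` is at least as good as the pair diagonal then the main diagonal of
`ℝ^n`, `n > m ≥ 3`, is strictly better. -/
theorem V_anti {θ : ℝ} (h0 : 1 / 4 ≤ θ) (h1 : θ < 1 / 2) {m n : ℕ} (h3 : 3 ≤ m) (h : m < n)
    (hm : V θ m ≤ V θ 2) : V θ n < V θ m := by
  have hθ : 0 < θ := by linarith
  obtain ⟨t, ht, hmin⟩ := (aDER h0 h1 n).1 (by omega)
  have hs := sm_sx (m := m) (n := n) (by omega) h.le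
  have hle : G θ t ≤ V θ m := by rw [← sm_G hθ h1 h.le]; exact hmin _ hs
  have hlt : G θ t < V θ m := by
    refine lt_of_le_of_ne hle fun he => ?_
    refine sm_not_good h3 h (gt_all θ h0 h1 n (by omega) (sm m n) ⟨hs, fun s hs' => ?_⟩)
    rw [sm_G hθ h1 h.le, ← he]
    exact hmin s hs'
  rcases gt_all θ h0 h1 n (by omega) t ⟨ht, hmin⟩ with hg | ⟨i, j, hij, hi, hj, hl⟩
  · have e : t = fun _ : Fin n => 1 / (n : ℝ) := funext hg
    rw [e] at hlt
    exact hlt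
  · rw [G_pair hθ h1 hij hi hj hl] at hlt
    exact absurd hlt (not_lt.2 hm)

/-- the same for the ratios -/
theorem JJ_anti {p : ℝ} (hp : 4 / 3 ≤ p) (hp2 : p < 2) {m n : ℕ} (h3 : 3 ≤ m) (h : m < n)
    (hm : JJ p m ≤ (2 : ℝ) ^ (1 / 2 - 1 / p)) : JJ p n < JJ p m := by
  have hp1 : 1 < p := by linarith
  obtain ⟨b0, b1⟩ := th_bounds hp hp2
  have hs := sg_pos (by linarith : 0 < (p - 1) / p) (by linarith : (p - 1) / p < 1)
  have hpi := Real.pi_pos
  obtain ⟨m', rfl⟩ : ∃ m', m = m' + 1 := ⟨m - 1, by omega⟩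
  obtain ⟨n', rfl⟩ : ∃ n', n = n' + 1 := ⟨n - 1, by omega⟩
  have h5 := (lt_iff_V hp1 hp2 (n := m' + 1) (by omega)).1
  have h6 : V ((p - 1) / p) (m' + 1) ≤ V ((p - 1) / p) 2 := by
    rw [← not_lt, ← h5, not_lt]
    exact hm
  have h7 := V_anti b0 b1 h3 h h6
  rw [JJ_V hp1 hp2, JJ_V hp1 hp2]
  exact mul_lt_mul_of_pos_left h7 (by positivity)

/-- the critical dimension for `4/3 < p < 2` -/
theorem crit_dim {p : ℝ} (hp : 4 / 3 < p) (hp2 : p < 2) : ∃ N : ℕ, 3 ≤ N ∧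
    (∀ n, 3 ≤ n → n < N → (2 : ℝ) ^ (1 / 2 - 1 / p) < JJ p n) ∧ JJ p N ≤ (2 : ℝ) ^ (1 / 2 - 1 / p) ∧
    ∀ n, N < n → JJ p n < (2 : ℝ) ^ (1 / 2 - 1 / p) := by
  obtain ⟨n0, hn0⟩ := cltJ hp hp2
  have hex : ∃ n, 3 ≤ n ∧ JJ p n ≤ (2 : ℝ) ^ (1 / 2 - 1 / p) := by
    refine ⟨max n0 3 + 1, by omega, ?_⟩
    exact (hn0 (max n0 3) (le_max_left _ _)).le
  classical
  obtain ⟨h1, h2⟩ := Nat.find_spec hex
  refine ⟨Nat.find hex, h1, fun n hn hlt => ?_, h2, fun n hn => ?_⟩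
  · have := Nat.find_min hex hlt
    by_contra hcon
    exact this ⟨hn, not_lt.1 hcon⟩
  · exact lt_of_lt_of_le (JJ_anti hp.le hp2 h1 hn h2) h2

end Pool.Agent.Helper53.PT
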