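import Pool.Agent.Helper53.PT.Defs
import Pool.Agent.Helper53.Pq.Final

/-!
# MP_705522_gt, `q ∈ (2,4)`: goals, part A (analysis of the law, `G` and its derivative)
-/

namespace Pool.Agent.Helper53.PT

open MeasureTheory Set Filter Topology
open Pool.Agent.Helper28.NO (mu ph Lf)

/-- (MO).  Signs clear (`1 + (2j-1)θ > 0`).  With the Euler product
(`Real.BohrMollerup.tendsto_logGammaSeq` or `Real.GammaSeq_tendsto_Gamma`):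
`mo θ (j+1)/mo θ j = Γ(1+(2j+1)θ) Γ(1-θ)/(Γ(1+(2j-1)θ) Γ(1+θ))
= ∏_{k≥1} (k+(2j-1)θ)(k+θ)/((k+(2j+1)θ)(k-θ))` (limit of the finite products, the powers of `n`
cancel: `(2j+1) - 1 - (2j-1) - 1 = 0`).  Each factor is nondecreasing in `θ ∈ [0,1/2]`: with
`g(s) = s/(k+sθ)`, concave on `[-1,∞)`, the logarithmic derivative is
`(g(1) - g(-1)) - (g(2j+1) - g(2j-1)) ≥ 0` (for `j = 0` it is `0`).  (Or compare the factors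
algebraically: a polynomial inequality in `k ≥ 1`, `0 ≤ θ ≤ θ' ≤ 1/2`.)
Third: `Γ(z+1) = zΓ(z)`. -/
def GMO : Prop :=
  (∀ θ : ℝ, 0 < θ → θ < 1 → mo θ 0 = 1 ∧ mo θ 1 = 1 ∧ ∀ j, 0 < mo θ j) ∧
  (∀ θ θ' : ℝ, 0 < θ → θ ≤ θ' → θ' ≤ 1 / 2 → ∀ j, mo θ (j + 1) / mo θ j ≤ mo θ' (j + 1) / mo θ' j) ∧
  ∀ j : ℕ, mo (1 / 2) (j + 1) = (2 * j + 1) * mo (1 / 2) j

/-- (SER).  By `GMO`, `0 < mo θ j ≤ (2j-1)!!`, so the coefficients of the four series are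
`≤ C/(2^j j!) · (polynomial)`; power series with infinite radius may be differentiated termwise
(`hasDerivAt_tsum_of_isPreconnected`, `hasDerivAt_tsum`, or `FormalMultilinearSeries`):
`f0' = -f1/2`: `-(j+1)·2/(2j+2)! = -1/(2j+1)!`. -/
def GSER : Prop := GMO → ∀ θ : ℝ, 0 < θ → θ < 1 / 2 →
  (∀ x, HasDerivAt (f0 θ) (-(f1 θ x) / 2) x) ∧ (∀ x, HasDerivAt (f1 θ) (f2 θ x) x) ∧
  (∀ x, HasDerivAt (f2 θ) (f3 θ x) x) ∧ Continuous (f3 θ) ∧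
  f0 θ 0 = 1 ∧ f1 θ 0 = 1 ∧ f2 θ 0 = -(mo θ 2) / 6 ∧ f3 θ 0 = mo θ 3 / 60

/-- The kernels. `k2(w) = (sinc √v)'` etc.: `sinc(w) = ∫_0^1 cos(sw) ds`, `k2(w) = sinc'(w)/(2w)`,
`k3(w) = k2'(w)/(2w)`, `k4(w) = k3'(w)/(2w)` for `w ≠ 0`; power series
`k2(w) = ∑ (-1)^(j+1) (j+1) w^(2j)/(2j+3)!`, `k3(w) = ∑ (-1)^j (j+1)(j+2) w^(2j)/(2j+5)!`,
`k4(w) = ∑ (-1)^(j+1) (j+1)(j+2)(j+3) w^(2j)/(2j+7)!` (integrate termwise); bounds from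
`|sinc| ≤ 1`.  `k2(w) = (w cos w - sin w)/(2w³)` (derivative of `sinc`). -/
def GKER : Prop :=
  (∀ w, HasSum (fun j : ℕ => (-1) ^ (j + 1) * ((j : ℝ) + 1) / ((2 * j + 3).factorial : ℝ) * w ^ (2 * j)) (k2 w)) ∧
  (∀ w, HasSum (fun j : ℕ => (-1) ^ j * (((j : ℝ) + 1) * (j + 2)) / ((2 * j + 5).factorial : ℝ) * w ^ (2 * j))
    (k3 w)) ∧
  (∀ w, HasSum (fun j : ℕ => (-1) ^ (j + 1) * (((j : ℝ) + 1) * (j + 2) * (j + 3)) /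
    ((2 * j + 7).factorial : ℝ) * w ^ (2 * j)) (k4 w)) ∧
  (∀ w, |k2 w| ≤ 1 / 6 ∧ |k3 w| ≤ 1 / 60 ∧ |k4 w| ≤ 1 / 840) ∧
  (∀ w, w ≠ 0 → k2 w = (w * Real.cos w - Real.sin w) / (2 * w ^ 3)) ∧
  (∀ v, 0 < v → HasDerivAt (fun v => Real.sinc (√v)) (k2 (√v)) v ∧
    HasDerivAt (fun v => k2 (√v)) (k3 (√v)) v ∧ HasDerivAt (fun v => k3 (√v)) (k4 (√v)) v) ∧
  Continuous k2 ∧ Continuous k3 ∧ Continuous k4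

/-- (LAW).  `nu θ` is the image of `mu (1/θ)` (moments: `Helper53.Pq.GMom`, proved as
`Helper89.Pq.gMom`, positivity and probability: `Helper53.Pq.mu_basic`), `σ² = Γ(1+θ)Γ(1-θ)`:
`E Y^(2j) = Γ(1+(2j-1)θ) Γ(1-θ)^(2j-1)/σ^(2j) = mo θ j`.  The formulas for `f0, ..` : exchange sum
and integral (`∑ mo θ j x^j/(2j)! < ∞` by `mo θ j ≤ (2j-1)!!`), `cos(√x y) = ∑ (-1)^j x^j y^(2j)/(2j)!`,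
`GKER`. Last: `∫ cosh(λy) = ∑ λ^(2j) mo θ j/(2j)! ≤ ∑ (λ²/2)^j/j!`. -/
def GLAW : Prop := GMO → GKER → Pool.Agent.Helper53.Pq.GMom → ∀ θ : ℝ, 0 < θ → θ < 1 / 2 →
  IsProbabilityMeasure (nu θ) ∧ (∀ᵐ y ∂(nu θ), 0 < y) ∧
  (∀ k : ℕ, Integrable (fun y : ℝ => y ^ k) (nu θ)) ∧ (∀ j : ℕ, ∫ y, y ^ (2 * j) ∂(nu θ) = mo θ j) ∧
  ∫ y, y ^ 3 ∂(nu θ) = m3 θ ∧
  (∀ x, 0 ≤ x → f0 θ x = ∫ y, Real.cos (√x * y) ∂(nu θ) ∧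
    f1 θ x = ∫ y, y ^ 2 * Real.sinc (√x * y) ∂(nu θ) ∧
    f2 θ x = ∫ y, y ^ 4 * k2 (√x * y) ∂(nu θ) ∧ f3 θ x = ∫ y, y ^ 6 * k3 (√x * y) ∂(nu θ) ∧
    f0 θ x = ph (mu (1 / θ)) (√x / sg θ)) ∧
  (∀ l : ℝ, Integrable (fun y => Real.cosh (l * y)) (nu θ) ∧
    ∫ y, Real.cosh (l * y) ∂(nu θ) ≤ Real.exp (l ^ 2 / 2))

/-- (BD).  From the integral formulas of `GLAW`: `|cos| ≤ 1`, `cos w ≥ 1 - w²/2`,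
`cos w ≤ 1 - w²/2 + w⁴/24`, `|sinc w| ≤ min(1, 1/|w|)`, `E Y ≤ 1` (Cauchy-Schwarz), `GKER`;
`x f2(x) = (1/2) E Y² (cos w - sinc w)`, `|cos w - sinc w| ≤ 1.1` (`w = √x Y`): for `w ≤ 3.2`
`sinc w - cos w ≤ 1.1` and `≥ 0`.., for `w ≥ 3.2` it is `≤ √(1+1/w²) ≤ 1.05`.
The Lipschitz bound of `f3`: `f3' = E Y⁸ k4`, or `k3(√(ab))` Lipschitz in `a`. -/
def GBD : Prop := GMO → GKER → (∀ θ : ℝ, 0 < θ → θ < 1 / 2 →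
    IsProbabilityMeasure (nu θ) ∧ (∀ᵐ y ∂(nu θ), 0 < y) ∧
    (∀ k : ℕ, Integrable (fun y : ℝ => y ^ k) (nu θ)) ∧ (∀ j : ℕ, ∫ y, y ^ (2 * j) ∂(nu θ) = mo θ j) ∧
    (∀ x, 0 ≤ x → f0 θ x = ∫ y, Real.cos (√x * y) ∂(nu θ) ∧
    f1 θ x = ∫ y, y ^ 2 * Real.sinc (√x * y) ∂(nu θ) ∧
    f2 θ x = ∫ y, y ^ 4 * k2 (√x * y) ∂(nu θ) ∧ f3 θ x = ∫ y, y ^ 6 * k3 (√x * y) ∂(nu θ))) →
  ∀ θ : ℝ, 0 < θ → θ < 1 / 2 → ∀ x, 0 ≤ x →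
  |f0 θ x| ≤ 1 ∧ 1 - x / 2 ≤ f0 θ x ∧ f0 θ x ≤ 1 - x / 2 + mo θ 2 * x ^ 2 / 24 ∧
  |f1 θ x| ≤ 1 ∧ √x * |f1 θ x| ≤ 1 ∧ |f2 θ x| ≤ mo θ 2 / 6 ∧ x * |f2 θ x| ≤ 0.55 ∧
  |f3 θ x| ≤ mo θ 3 / 60 ∧ ∀ y, 0 ≤ y → |f3 θ x - f3 θ y| ≤ mo θ 4 / 840 * |x - y|

/-- (CX): `Y_θ² ≤ Y_θ'²` in the convex order, `θ ≤ θ'`.  The density of `nu θ` is
`g_θ(y) = c y^(q-2) exp(-(y/s)^q)`, `q = 1/θ`, with `s > 0` fixed by `E Y² = 1` (from the definition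
of `mu`, `muZ`).  For `θ < θ'` (`q > q'`) let `ρ = log(g_θ'/g_θ) = C - (q-q') log y + (y/s)^q - (y/s')^q'`;
`yρ'(y) = -(q-q') + q (y/s)^q - q' (y/s')^q'`, whose derivative is `1/y` times `q²(y/s)^q - q'²(y/s')^q'`,
first negative then positive; so `yρ'` is negative near `0`, decreases, then increases to `∞`:
`ρ` decreases and then increases, `ρ → ∞` at `0` and at `∞`.  So `{ρ < 0}` is an interval `(y₁,y₂)`,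
`0 < y₁ < y₂ < ∞` (not empty because both densities have integral `1` and `ρ` is not constant), and
`ρ ≥ 0` outside.  Let `ℓ` be the affine function with `ℓ(y_i²) = H(y_i²)`.  By convexity
`(H - ℓ)(y²)` is `≤ 0` on `(y₁,y₂)` and `≥ 0` outside, so `∫ (H-ℓ)(y²)(g_θ' - g_θ) dy ≥ 0`, and
`∫ ℓ(y²)(g_θ' - g_θ) = 0` because `∫ g = 1`, `∫ y² g = 1`. -/
def GCX : Prop := Pool.Agent.Helper53.Pq.GMom → ∀ θ θ' : ℝ, 0 < θ → θ ≤ θ' → θ' < 1 / 2 →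
  ∀ H : ℝ → ℝ, ConvexOn ℝ (Ici 0) H → ContinuousOn H (Ici 0) →
  (∃ (C : ℝ) (N : ℕ), ∀ s, 0 ≤ s → |H s| ≤ C * (1 + s) ^ N) →
  ∫ y, H (y ^ 2) ∂(nu θ) ≤ ∫ y, H (y ^ 2) ∂(nu θ')

/-- (LIP): dependence on `θ`.  If `|h''| ≤ Φ''` on `(0,∞)` then `Φ ± h` are convex, so by `GCX`
`|E' h(Y²) - E h(Y²)| ≤ E' Φ(Y²) - E Φ(Y²)`.  Here `h(s)` is, with `v = xs`, `w = √v`:
`f0`: `h = cos w`, `h'' = x² (sin w - w cos w)/(4w³)`; `|.| ≤ x²/12` (`Φ = x²s²/24`) and, as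
`|sin w - w cos w| ≤ .437 w²`, `|.| ≤ .1093 x^(3/2) s^(-1/2)` (`Φ = .1457 x^(3/2) s^(3/2)`).
`f1`: `h = s sinc w`, `h'' = (x/2)(k2(w) - sinc(w)/2)`; `|.| ≤ x/6` (as `|k2| ≤ 1/6`, `|sinc| ≤ 1`:
`(x/2)(1/6+1/2) = x/3`; so `Φ = x s²/6`) and `|.| ≤ (x/2)(.218 + .5)/w` (`w|k2(w)| ≤ .2185`), so
`Φ = .48 √x s^(3/2)`.
`f2`: `h = s² k2(w)`, `h'' = 2k2 + 4v k3 + v² k4 = -(5/16) ... `; claim `|h''| ≤ 1/3` (`Φ = s²/6`):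
`2k2 + 4vk3 + v²k4 = -(sin w)/(4w) - ... `: in closed form `(v² k2)'' ` with
`v²k2(w) = (w² cos w - w sin w)/2`, so `h''(v) = (1/(2w)) d/dw [(1/(2w)) d/dw ((w² cos w - w sin w)/2)]
= (1/(4w)) d/dw[(cos w - w sin w - sinc w .. )/2]`; series `∑ (-1)^(j+1)(j+1)·(j+2)(j+1) v^j/(2j+3)!`
`= -(1/3) + ..`, and `|h''| ≤ 1/3` (check `w ≤ 3` by the alternating series, `w ≥ 3` by the closed form,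
which tends to an oscillation of amplitude `1/8`).
`f3`: `h = s³ k3(w)`, `|h''| ≤ s/10`, `Φ = s³/60`: `(v³k3)'' /v = ∑ (-1)^j (j+1)(j+2)(j+3)(j+2)v^j/(2j+5)!`,
value `1/10` at `0` (closed form for large `w`: `v²·k5`-type terms are bounded by `1/16 + ..`).
(Integrals of `Φ`: `E Y⁴ = mo θ 2`, `E Y³ = m3 θ`, `E Y⁶ = mo θ 3`.) -/
def GLIP : Prop := GKER →
  (∀ θ : ℝ, 0 < θ → θ < 1 / 2 →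
    IsProbabilityMeasure (nu θ) ∧ (∀ᵐ y ∂(nu θ), 0 < y) ∧
    (∀ k : ℕ, Integrable (fun y : ℝ => y ^ k) (nu θ)) ∧ (∀ j : ℕ, ∫ y, y ^ (2 * j) ∂(nu θ) = mo θ j) ∧
    ∫ y, y ^ 3 ∂(nu θ) = m3 θ ∧
    (∀ x, 0 ≤ x → f0 θ x = ∫ y, Real.cos (√x * y) ∂(nu θ) ∧
    f1 θ x = ∫ y, y ^ 2 * Real.sinc (√x * y) ∂(nu θ) ∧
    f2 θ x = ∫ y, y ^ 4 * k2 (√x * y) ∂(nu θ) ∧ f3 θ x = ∫ y, y ^ 6 * k3 (√x * y) ∂(nu θ))) →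
  (∀ θ θ' : ℝ, 0 < θ → θ ≤ θ' → θ' < 1 / 2 →
    ∀ H : ℝ → ℝ, ConvexOn ℝ (Ici 0) H → ContinuousOn H (Ici 0) →
    (∃ (C : ℝ) (N : ℕ), ∀ s, 0 ≤ s → |H s| ≤ C * (1 + s) ^ N) →
    ∫ y, H (y ^ 2) ∂(nu θ) ≤ ∫ y, H (y ^ 2) ∂(nu θ')) →
  ∀ θ θ' : ℝ, 0 < θ → θ ≤ θ' → θ' < 1 / 2 → ∀ x, 0 ≤ x →
  |f0 θ' x - f0 θ x| ≤ x ^ 2 / 24 * (mo θ' 2 - mo θ 2) ∧
  |f0 θ' x - f0 θ x| ≤ 0.146 * (x * √x) * (m3 θ' - m3 θ) ∧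
  |f1 θ' x - f1 θ x| ≤ x / 6 * (mo θ' 2 - mo θ 2) ∧
  |f1 θ' x - f1 θ x| ≤ 0.48 * √x * (m3 θ' - m3 θ) ∧
  |f2 θ' x - f2 θ x| ≤ (mo θ' 2 - mo θ 2) / 6 ∧
  |f3 θ' x - f3 θ x| ≤ (mo θ' 3 - mo θ 3) / 60

/-- (LP): the law of `X = ∑ √t_i ε_i Y_i`.  Induction over `S` as in `Helper28.NO.IsLaw.mul`
(`cos a cos b = (cos(a+b)+cos(a-b))/2`, the same with `cosh`). -/
def GLP : Prop := (∀ θ : ℝ, 0 < θ → θ < 1 / 2 →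
    IsProbabilityMeasure (nu θ) ∧ (∀ᵐ y ∂(nu θ), 0 < y) ∧
    (∀ k : ℕ, Integrable (fun y : ℝ => y ^ k) (nu θ)) ∧ (∀ j : ℕ, ∫ y, y ^ (2 * j) ∂(nu θ) = mo θ j) ∧
    (∀ x, 0 ≤ x → f0 θ x = ∫ y, Real.cos (√x * y) ∂(nu θ)) ∧
    (∀ l : ℝ, Integrable (fun y => Real.cosh (l * y)) (nu θ) ∧
    ∫ y, Real.cosh (l * y) ∂(nu θ) ≤ Real.exp (l ^ 2 / 2))) →
  (∀ θ : ℝ, 0 < θ → θ < 1 / 2 → mo θ 1 = 1) →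
  ∀ θ : ℝ, 0 < θ → θ < 1 / 2 → ∀ (ι : Type) (S : Finset ι) (t : ι → ℝ), (∀ i ∈ S, 0 ≤ t i) →
  ∃ ρ : Measure ℝ, IsProbabilityMeasure ρ ∧
    (∀ ξ : ℝ, ∏ i ∈ S, f0 θ (t i * ξ ^ 2) = ∫ x, Real.cos (ξ * x) ∂ρ) ∧
    Integrable (fun x : ℝ => x ^ 2) ρ ∧ ∫ x, x ^ 2 ∂ρ = ∑ i ∈ S, t i ∧
    ∀ l : ℝ, Integrable (fun x => Real.cosh (l * x)) ρ ∧
      ∫ x, Real.cosh (l * x) ∂ρ ≤ Real.exp (l ^ 2 * (∑ i ∈ S, t i) / 2)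

/-- (HS).  `X` the variable of `GLP` (`E X² = 1`).  `∫_0^∞ (1 - cos ξx)/ξ² dξ = π|x|/2`
(`Helper65.Pq.gC0`, `Helper28.NO.Lf_cos`), Fubini (`Helper28.NO.mix`): `G = (π/2) E|X|`.
For real `x`: `∑_{i≥1} cos(ix)/i² = π²/6 - π|x|/2 + x²/4` if `|x| ≤ 2π` (Mathlib:
`hasSum_one_div_nat_pow_mul_cos`), and in general `D(x) := π²/6 + x²/4 - ∑ cos(ix)/i² - π|x|/2`
satisfies `0 ≤ D(x) ≤ (x²/4) 1_{|x| > 2π}` (write `|x| = 2πk + r`, `0 ≤ r < 2π`: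
`D = πkx - π²k(k+1) ≥ 0` for `k ≥ 1`; and `D ≤ π²/6 + x²/4 + π²/6 - π|x|/2 ≤ x²/4` for `|x| ≥ 2π`).
Hence `D(x) ≤ π² cosh(2πx)/cosh(4π²)` (`x²/cosh(2πx)` is decreasing for `x ≥ 2π`), `E D(X) ≤
π² exp(2π²)/cosh(4π²) ≤ 1e-7`.  (`∑ P(i)/i²` and expectation may be exchanged.) -/
def GHS : Prop := (∀ θ : ℝ, 0 < θ → θ < 1 / 2 → ∀ (ι : Type) (S : Finset ι) (t : ι → ℝ),
  (∀ i ∈ S, 0 ≤ t i) → ∃ ρ : Measure ℝ, IsProbabilityMeasure ρ ∧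
    (∀ ξ : ℝ, ∏ i ∈ S, f0 θ (t i * ξ ^ 2) = ∫ x, Real.cos (ξ * x) ∂ρ) ∧
    Integrable (fun x : ℝ => x ^ 2) ρ ∧ ∫ x, x ^ 2 ∂ρ = ∑ i ∈ S, t i ∧
    ∀ l : ℝ, Integrable (fun x => Real.cosh (l * x)) ρ ∧
      ∫ x, Real.cosh (l * x) ∂ρ ≤ Real.exp (l ^ 2 * (∑ i ∈ S, t i) / 2)) →
  ∀ θ : ℝ, 0 < θ → θ < 1 / 2 → ∀ (n : ℕ) (t : Fin n → ℝ), Sx t →
  IntegrableOn (fun ξ => (1 - PP θ t ξ) / ξ ^ 2) (Ioi 0) ∧ (∀ ξ, |PP θ t ξ| ≤ 1) ∧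
  Summable (fun i : ℕ => PP θ t (i + 1) / ((i : ℝ) + 1) ^ 2) ∧
  G θ t ≤ Real.pi ^ 2 / 6 + 1 / 4 - ∑' i : ℕ, PP θ t (i + 1) / ((i : ℝ) + 1) ^ 2 ∧
  Real.pi ^ 2 / 6 + 1 / 4 - ∑' i : ℕ, PP θ t (i + 1) / ((i : ℝ) + 1) ^ 2 - 1e-7 ≤ G θ t

/-- The `k`-th oscillating integral `∫_0^∞ y^(q-2+k) exp(-y^q + ity) dy`. -/
noncomputable def Ik (q : ℝ) (k : ℕ) (t : ℝ) : ℂ :=
  ∫ y in Ioi (0 : ℝ), ((y ^ (q - 2 + k) * Real.exp (-y ^ q) : ℝ) : ℂ) * Complex.exp (Complex.I * (t * y))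

/-- (ROT): rotation of the contour.  For `0 ≤ α ≤ π/(2q)` put
`J(α) = ∫_0^∞ g(ρe^{iα}) e^{iα} dρ`, `g(z) = z^(q-2+k) exp(-z^q + itz)` (principal powers).  Then
`d/dα [g(ρe^{iα})e^{iα}] = d/dρ [iρ g(ρe^{iα}) e^{iα}]`, and `ρ g → 0` at `0` and `∞` (for `α > 0`
because of `exp(-tρ sin α)`, for `α ≤ α₀ < π/(2q)` because of `exp(-ρ^q cos qα)`), so `J` is constant
on `[0, π/(2q))` (differentiate under the integral sign, uniform domination on compact subintervals)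
and, by dominated convergence (`|g| ≤ ρ^(q-2+k) exp(-tρ sin α)` for `α ≥ π/(4q)`), `J(0) = J(π/(2q))`.
At `α = π/(2q)`: `z^q = iρ^q`.  Write `exp(-z^q) = 1 + (exp(-iρ^q) - 1)`, `|exp(-iρ^q) - 1| ≤ ρ^q`:
the first part is `e^{iα(q-1+k)} ∫ ρ^(q-2+k) exp(-tρ(sin α - i cos α)) dρ =
Γ(q-1+k) t^(-(q-1+k)) e^{iπ(q-1+k)/2}` (`Complex.integral_cpow_mul_exp_neg_mul_Ioi`;
`sin α - i cos α = -i e^{iα}`), the second is at most `∫ ρ^(2q-2+k) exp(-tρ sin α) dρ`. -/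
def GROT : Prop := ∀ q : ℝ, 2 < q → q ≤ 4 → ∀ (k : ℕ) (t : ℝ), 0 < t →
  ‖Ik q k t‖ ≤ Real.Gamma (q - 1 + k) * (t * Real.sin (Real.pi / (2 * q))) ^ (-(q - 1 + k)) ∧
  ‖Ik q k t - ((Real.Gamma (q - 1 + k) * t ^ (-(q - 1 + k)) : ℝ) : ℂ) *
      Complex.exp (Complex.I * (Real.pi * (q - 1 + k) / 2))‖ ≤
    Real.Gamma (2 * q - 1 + k) * (t * Real.sin (Real.pi / (2 * q))) ^ (-(2 * q - 1 + k))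

/-- the numbers of `GTAIL` -/
noncomputable def tk (θ x : ℝ) : ℝ := √(x * Real.Gamma (1 - θ) / Real.Gamma (1 + θ))
noncomputable def Nn (θ : ℝ) : ℝ := θ * Real.Gamma (1 - θ)
noncomputable def AA (θ : ℝ) (k : ℕ) (t : ℝ) : ℝ :=
  (|Real.cos (Real.pi * (1 / θ - 1) / 2)| * Real.Gamma (1 / θ - 1 + k) * t ^ (-(1 / θ - 1 + k)) +
    Real.Gamma (2 / θ - 1 + k) * (t * Real.sin (Real.pi * θ / 2)) ^ (-(2 / θ - 1 + k))) / Nn θ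
noncomputable def AB (θ : ℝ) (k : ℕ) (t : ℝ) : ℝ :=
  Real.Gamma (1 / θ - 1 + k) * (t * Real.sin (Real.pi * θ / 2)) ^ (-(1 / θ - 1 + k)) / Nn θ

/-- (TAIL).  `f0 θ x = Φ(t)`, `Φ(t) = Re Ik q 0 t/N`, `t = tk θ x`, `N = Nn θ` (`∫ y^(q-2) e^(-y^q) =
Γ(1-θ)/q`; `f0 θ x = ph (mu (1/θ)) (√x/sg θ)` and the definition of `mu`), `κ = Γ(1+θ)/Γ(1-θ)`, `x = κt²`:
`f1 = -2 df0/dx = -Φ'(t)/(κt)`, `f2 = (1/(2κt)) d/dt(-Φ'/(κt)) = -(Φ'' - Φ'/t)/(2κ²t²)`;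
`Φ^(k)(t) = Re(i^k Ik q k t)/N`, and `i^k e^{iπ(q-1+k)/2} = (-1)^k e^{iπ(q-1)/2}`. -/
def GTAIL : Prop := GROT →
  (∀ θ : ℝ, 0 < θ → θ < 1 / 2 → (∀ x, HasDerivAt (f0 θ) (-(f1 θ x) / 2) x) ∧
    (∀ x, HasDerivAt (f1 θ) (f2 θ x) x) ∧ (∀ x, 0 ≤ x → f0 θ x = ph (mu (1 / θ)) (√x / sg θ))) →
  ∀ θ : ℝ, 1 / 4 ≤ θ → θ < 1 / 2 → ∀ x, 0 < x →
  |f0 θ x| ≤ AA θ 0 (tk θ x) ∧ |f0 θ x| ≤ AB θ 0 (tk θ x) ∧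
  |f1 θ x| ≤ AA θ 1 (tk θ x) * tk θ x / x ∧ |f1 θ x| ≤ AB θ 1 (tk θ x) * tk θ x / x ∧
  |f2 θ x| ≤ (AA θ 2 (tk θ x) + AA θ 1 (tk θ x) / tk θ x) * tk θ x ^ 2 / (2 * x ^ 2) ∧
  |f2 θ x| ≤ (AB θ 2 (tk θ x) + AB θ 1 (tk θ x) / tk θ x) * tk θ x ^ 2 / (2 * x ^ 2)

/-- Power decay, used only for integrability. -/
def Dec : Prop := ∀ θ : ℝ, 1 / 4 ≤ θ → θ < 1 / 2 → ∃ C : ℝ, ∀ x, 0 < x →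
  |f0 θ x| ≤ C * x ^ (-(1 / θ - 1) / 2) ∧ |f1 θ x| ≤ C * x ^ (-(1 / θ - 1) / 2)

/-- (DER).  (a) compactness of the simplex and continuity of `G` (dominated convergence:
`0 ≤ 1 - P ≤ min(2, ξ²/2)`).  (b) Let `t^s` be `t` with `t_i - s`, `t_j + s`, `0 ≤ s ≤ s₀ < t_i`.
`d/ds ∏ f0(t_l ξ²) = (ξ²/2) (f1(t_iξ²) f0(t_jξ²) - f0(t_iξ²) f1(t_jξ²)) ∏_{l≠i,j}`, so
`G(t^s) - G(t) = -(1/2) ∫_0^s K(t^u) du` (Fubini; the integrand of `K(t^u)` is bounded by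
`2`, and by `2C((t_i-s₀)ξ²)^(-(q-1)/2)`, integrable on `(1,∞)` as `q > 2`), `u ↦ K(t^u)` is continuous
on `[0,s₀]` (dominated), and minimality gives `∫_0^s K(t^u) du ≤ 0` for all small `s > 0`. -/
def GDER : Prop := Dec →
  (∀ θ : ℝ, 0 < θ → θ < 1 / 2 → (∀ x, HasDerivAt (f0 θ) (-(f1 θ x) / 2) x) ∧
    (∀ x, HasDerivAt (f1 θ) (f2 θ x) x) ∧ f0 θ 0 = 1 ∧ f1 θ 0 = 1) →
  (∀ θ : ℝ, 0 < θ → θ < 1 / 2 → ∀ x, 0 ≤ x → |f0 θ x| ≤ 1 ∧ 1 - x / 2 ≤ f0 θ x ∧ |f1 θ x| ≤ 1) →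
  ∀ θ : ℝ, 1 / 4 ≤ θ → θ < 1 / 2 → ∀ n : ℕ,
  (0 < n → ∃ t : Fin n → ℝ, Sx t ∧ ∀ s : Fin n → ℝ, Sx s → G θ t ≤ G θ s) ∧
  ∀ (t : Fin n → ℝ), Sx t → (∀ s : Fin n → ℝ, Sx s → G θ t ≤ G θ s) → ∀ i j : Fin n, t j < t i →
    IntegrableOn (fun ξ => (f1 θ (t i * ξ ^ 2) * f0 θ (t j * ξ ^ 2) -
    f0 θ (t i * ξ ^ 2) * f1 θ (t j * ξ ^ 2)) * ∏ l ∈ (Finset.univ.erase i).erase j, f0 θ (t l * ξ ^ 2))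
      (Ioi 0) ∧ K θ t i j ≤ 0

/-- (PAIR).  `Helper53.Pq.Lf_two_gen`: `Lf (ph μ (a·) ph μ (b·)) = (a^q + b^q)^(1/q)`, `c0 = π/2`
(`Helper65.Pq.gC0`), the scaling `t = ξ/sg θ`. -/
def GPAIR : Prop := Pool.Agent.Helper53.Pq.GC0 →
  (∀ θ : ℝ, 0 < θ → θ < 1 / 2 → ∀ x, 0 ≤ x → f0 θ x = ph (mu (1 / θ)) (√x / sg θ)) →
  ∀ θ : ℝ, 0 < θ → θ < 1 / 2 → ∀ a b : ℝ, 0 ≤ a → 0 ≤ b →
  IntegrableOn (fun ξ => (1 - f0 θ (a * ξ ^ 2) * f0 θ (b * ξ ^ 2)) / ξ ^ 2) (Ioi 0) ∧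
  ∫ ξ in Ioi (0 : ℝ), (1 - f0 θ (a * ξ ^ 2) * f0 θ (b * ξ ^ 2)) / ξ ^ 2 =
    Real.pi / 2 / sg θ * (a ^ (1 / (2 * θ)) + b ^ (1 / (2 * θ))) ^ θ

/-- The Stirling polynomial. -/
noncomputable def Lam (z : ℝ) : ℝ := (z - 1 / 2) * Real.log z - z + 1 / (12 * z) - 1 / (360 * z ^ 3) +
  1 / (1260 * z ^ 5) - 1 / (1680 * z ^ 7) + 1 / (1188 * z ^ 9) - 691 / (360360 * z ^ 11) +
  1 / (156 * z ^ 13) - 3617 / (122400 * z ^ 15)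

/-- (STIR).  `D(z) = log Γ(z) - Lam z`, `e(z) = D(z+1) - D(z) = log z - Lam(z+1) + Lam(z)`.
`e''(z) = -1/z² - Lam''(z+1) + Lam''(z)` is a rational function, `Lam''(z) = 1/z + 1/(2z²) + 1/(6z³)
- 1/(30z⁵) + 1/(42z⁷) - 1/(30z⁹) + 5/(66z¹¹) - 691/(2730z¹³) + 7/(6z¹⁵) - 3617/(510z¹⁷)`, and
`|e''(z)| ≤ 1100/z^20` for `z ≥ 32` (Bernoulli numbers: all terms up to `z^(-19)` cancel; leading term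
`(43867/798)·19/z^20 = 1044.5/z^20`).  `e, e' → 0` at `∞`, so `|e(z)| ≤ 1100/(18·19 z^18) ≤ 3.22/z^18`, and
`∑_{n≥0} |e(z+n)| ≤ 3.22 (z^(-18) + z^(-17)/17) ≤ .3 z^(-17)`.  Finally
`D(z+n) - D(w+n) → 0` (`n → ∞`, `Real.BohrMollerup.tendsto_logGammaSeq`).  (If it is convenient prove it
with a larger constant, at most `1`, in place of `.3`; a different route is welcome.) -/
def GSTIR : Prop := ∀ z w : ℝ, 32 ≤ z → 32 ≤ w →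
  |Real.log (Real.Gamma z) - Real.log (Real.Gamma w) - (Lam z - Lam w)| ≤ z⁻¹ ^ 17 + w⁻¹ ^ 17

end Pool.Agent.Helper53.PT
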