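import Pool.Agent.Helper53.PT.DefsB

/-!
# MP_705522_gt, `q ∈ (2,4)`: goals, part B (real analysis used by the tests)

Everything proved in part A is available without hypotheses in `Pool.Agent.Helper53.PT.A`
(`hasDerivAt_f0`, `hasDerivAt_f1`, `hasDerivAt_f2`, `aBD`, `aLAW`, `aHS`, `aDER`, `aPAIR`, `mo_mono`, ...).
-/

namespace Pool.Agent.Helper53.PT

open MeasureTheory Set Filter Topology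

/-- (FI), dependence on `θ` for large `x`.  With `q = 1/θ`, `k = 1-θ`, `σ² = Γ(1+θ)/Γ(1-θ)`, `Y = W^θ/σ`,
`W ~ Gamma(1-θ)`, the density of `nu θ` is `g_θ(y) = q σ^(q-1) y^(q-2) exp(-(σy)^q)/Γ(1-θ)` and
`∂_θ log g_θ(y) = U`, `U = q((W-1) log W - κ W) + c(θ)`, `W = (σy)^q`, `κ = σ'/σ = (ψ(1+θ)+ψ(1-θ))/2`,
`E U = 0` (differentiate `∫ g_θ = 1`).  So `|E' h(Y) - E h(Y)| ≤ ∫_θ^θ' E|h(Y) U|` and, by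
Cauchy-Schwarz, it is enough that `√(E U²) ≤ 16`: `f0 = E cos(√x Y)`, `√x f1 = E Y sin(√x Y)` (`E Y² = 1`),
`x f2 = E Y² (cos w - sinc w)/2`, `w = √x Y`, `|cos w - sinc w| ≤ 1.1` (proved inside `GBD`),
`E Y⁴ = mo θ 2`.  `√(E U²) ≤ q √(Var((W-1) log W - κW)) ≤ q (√(E (W-1)² log² W) + |κ| √(E W²))`,
`E W² = k(k+1)`, `|κ| ≤ 1.27` (`ψ` increasing, `ψ(1/2) = -γ - 2 log 2`, `ψ(1) = -γ`: `-1.27 ≤ κ ≤ 0`),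
`E (W-1)² log² W ≤ (∫_0^1 log² w w^(k-1) dw + ∫_1^∞ (w-1)⁴ w^(k-2) e^(-w) dw)/Γ(k) ≤ (2/k³ + 1.8)/Γ(k)`
(`log w ≤ (w-1)/√w`), `Γ(k) ≥ 1.22` (`k ∈ [1/2,3/4]`): for `θ = 1/4`: `4(2.3 + 1.46) = 15.1`; the bound
is smaller for larger `θ`.  (Any other proof is welcome.) -/
def GFI : Prop := ∀ θ θ' : ℝ, 1 / 4 ≤ θ → θ ≤ θ' → θ' < 1 / 2 → ∀ x, 0 < x →
  |f0 θ' x - f0 θ x| ≤ 16 * (θ' - θ) ∧ √x * |f1 θ' x - f1 θ x| ≤ 16 * (θ' - θ) ∧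
  x * |f2 θ' x - f2 θ x| ≤ 8.8 * √(mo θ' 2) * (θ' - θ)

/-- (TP).  From `aTAIL`: `tk θ x = √(x/64) tk θ 64`, and all terms of `AA`, `AB` are negative powers
of `t` with exponents at least `q-1` (`k=0`), so at least `q-1+k`, `(q-1)/2 ≥ g`, `64/x ≤ 1`. -/
def GTP : Prop := ∀ θ : ℝ, 1 / 4 ≤ θ → θ < 1 / 2 → ∀ g : ℝ, g ≤ (1 / θ - 1) / 2 → ∀ x, 64 ≤ x →
  |f0 θ x| ≤ AA θ 0 (tk θ 64) * (64 / x) ^ g ∧ |f0 θ x| ≤ AB θ 0 (tk θ 64) * (64 / x) ^ g ∧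
  |f1 θ x| ≤ AA θ 1 (tk θ 64) * tk θ 64 / 64 * (64 / x) ^ (g + 1) ∧
  |f1 θ x| ≤ AB θ 1 (tk θ 64) * tk θ 64 / 64 * (64 / x) ^ (g + 1) ∧
  |f2 θ x| ≤ (AA θ 2 (tk θ 64) + AA θ 1 (tk θ 64) / tk θ 64) * tk θ 64 ^ 2 / (2 * 64 ^ 2) * (64 / x) ^ (g + 1) ∧
  |f2 θ x| ≤ (AB θ 2 (tk θ 64) + AB θ 1 (tk θ 64) / tk θ 64) * tk θ 64 ^ 2 / (2 * 64 ^ 2) * (64 / x) ^ (g + 1)

/-- (SN).  Elementary: `|cos(π(q-1)/2)| = sin(πs/2)`, `s = q-2 ∈ (0,2)`. -/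
def GSN : Prop := ∀ q : ℝ, 2 ≤ q → q ≤ 4 →
  |Real.cos (Real.pi * (q - 1) / 2)| ≤ (q - 2) * (4 - q) ∧
  |Real.cos (Real.pi * (q - 1) / 2)| ≤ 1.5708 * (q - 2) ∧ |Real.cos (Real.pi * (q - 1) / 2)| ≤ 1.5708 * (4 - q)

/-- (CH), chords.  `g` with `g'` Lipschitz with constant `L` differs from its chord by at most
`h²/8 L`; `f0'' = -f2/2`, `f1'' = f3`, `f2' = f3`, `Wf' = f1 f2/2 + f0 f3`,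
`Wf'' = f2²/2 + f0 f4`, `|f4| ≤ mo θ 4/840` (`f4 = f3'`; `f3` is a power series, or use the Lipschitz
bound of `aBD`: `f3` is Lipschitz, so a.e. differentiable; `k4` of `GKER` gives `f4 = ∫ y⁸ k4(√x y)`).
Last: Taylor's formula. -/
def GCH : Prop := ∀ θ : ℝ, 0 < θ → θ < 1 / 2 → ∀ x0 h l S F : ℝ, 0 ≤ x0 → 0 < h → 0 ≤ l → l ≤ 1 →
  (|f2 θ (x0 + l * h)| ≤ max |f2 θ x0| |f2 θ (x0 + h)| + h ^ 2 / 8 * (mo θ 4 / 840)) ∧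
  ((∀ y, x0 ≤ y → y ≤ x0 + h → |f2 θ y| ≤ S) →
    |f0 θ (x0 + l * h) - ((1 - l) * f0 θ x0 + l * f0 θ (x0 + h))| ≤ h ^ 2 / 16 * S ∧
    |f1 θ (x0 + l * h) - ((1 - l) * f1 θ x0 + l * f1 θ (x0 + h))| ≤ h ^ 2 / 8 * (mo θ 3 / 60) ∧
    |f1 θ (x0 + l * h) - ((1 - l) * f1 θ x0 + l * f1 θ (x0 + h))| ≤ h / 2 * S ∧
    ((∀ y, x0 ≤ y → y ≤ x0 + h → |f0 θ y| ≤ F) →
      (1 - l) * Wf θ x0 + l * Wf θ (x0 + h) - h ^ 2 / 8 * (S ^ 2 / 2 + F * (mo θ 4 / 840)) ≤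
        Wf θ (x0 + l * h))) ∧
  ∀ d : ℝ, 0 ≤ x0 + d → |f0 θ (x0 + d) - (f0 θ x0 - f1 θ x0 / 2 * d - f2 θ x0 / 4 * d ^ 2)| ≤
    |d| ^ 3 / 12 * (mo θ 3 / 60)

/-- (RL).  `f0' = -f1/2 < 0` on `[0,m)`, `f0 z = 0`.  `rr' = Wf/f0²` (where `f0 ≠ 0`), `rr 0 = 1`,
`(-log f0)' = rr/2`, `(-log(-f0))' = rr/2`.  On `(0,z)`: `rr > 1`; on `[z,m)`: `f1 > 0 ≥ f0`; on
`[m,xD]`: field `D`. `f0 ≠ 0` on `(z,yN]`. `lam' = (rr-1)/2`.  `-log f0(x)/x ≤ rr x/2` (convexity, value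
`0` at `0`). -/
def GRL : Prop := ∀ θ z m xW xD yN : ℝ, FA θ z m xW xD yN →
  StrictAntiOn (f0 θ) (Icc 0 m) ∧ (∀ x, 0 ≤ x → x < z → 0 < f0 θ x) ∧
  (∀ x, z < x → x ≤ yN → f0 θ x < 0) ∧ (∀ x, 0 < x → x ≤ xD → f0 θ x < f1 θ x) ∧
  (∀ x, f0 θ x ≠ 0 → HasDerivAt (rr θ) (Wf θ x / f0 θ x ^ 2) x) ∧
  StrictMonoOn (rr θ) (Ico 0 z) ∧ StrictMonoOn (rr θ) (Ioc z xW) ∧
  ConvexOn ℝ (Ico 0 z) (fun x => -Real.log (f0 θ x)) ∧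
  ConcaveOn ℝ (Ioc z xW) (fun x => Real.log (-f0 θ x)) ∧
  (∀ x, 0 ≤ x → x < z → f0 θ x ≤ Real.exp (-x / 2)) ∧
  (∀ x, 0 < x → x < z → -Real.log (f0 θ x) ≤ x * rr θ x / 2) ∧
  ConvexOn ℝ (Ico 0 z) (lam θ) ∧ MonotoneOn (lam θ) (Ico 0 z) ∧ (∀ x, 0 ≤ x → x < z → 0 ≤ lam θ x) ∧ lam θ 0 = 0

/-- (PROD).  (1) from `f0 ≤ exp(-x/2)`.  (2), (3): Jensen for `log|f0|`: the product is at most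
`|f0(mean)|^k`; (2): the mean is `≥ Y`, if a factor vanishes the product is `0`; (3): the mean is in
`(z,xW]` and in `[Yl,Yu]`.  (4) Karamata for three terms, `L = -log f0` convex:
`L(a)+L(c)+L(b) ≥ L(A)+L(C)+L(B)`. -/
def GPROD : Prop := GRL → ∀ θ z m xW xD yN : ℝ, FA θ z m xW xD yN → ∀ (n : ℕ) (S : Finset (Fin n)) (y : Fin n → ℝ),
  ((∀ i ∈ S, 0 ≤ y i ∧ y i ≤ z) → 0 ≤ ∏ i ∈ S, f0 θ (y i) ∧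
    ∏ i ∈ S, f0 θ (y i) ≤ Real.exp (-(∑ i ∈ S, y i) / 2)) ∧
  ((∀ i ∈ S, 0 ≤ y i ∧ y i ≤ z) → ∀ Y p : ℝ, S.Nonempty → S.card * Y ≤ ∑ i ∈ S, y i → 0 ≤ p →
    (∀ x, 0 ≤ x → Y ≤ x → x < z → f0 θ x ≤ p) → ∏ i ∈ S, f0 θ (y i) ≤ p ^ S.card) ∧
  ((∀ i ∈ S, z < y i ∧ y i ≤ xW) → ∀ Yl Yu F : ℝ, S.Nonempty → S.card * Yl ≤ ∑ i ∈ S, y i →
    ∑ i ∈ S, y i ≤ S.card * Yu → (∀ x, z ≤ x → Yl ≤ x → x ≤ Yu → |f0 θ x| ≤ F) →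
    ∏ i ∈ S, |f0 θ (y i)| ≤ F ^ S.card) ∧
  (∀ a b c A B C : ℝ, 0 ≤ b → b ≤ c → c ≤ a → a < z → 0 ≤ B → B ≤ C → C ≤ A → A ≤ a → b ≤ B →
    a + b + c = A + B + C → f0 θ a * f0 θ b * f0 θ c ≤ f0 θ A * f0 θ B * f0 θ C)

/-- (TAU).  Let `A = ∑_J s`, suppose `A > jτ`.  `A ≤ j cap`, `A ≤ m1`, `A² ≤ j Q` contradict the first
three cases.  Fourth case: `A² ≤ jQ ≤ m0²`, so `A ≤ m0`; by Cauchy-Schwarz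
`Q ≥ A²/j + (m-A)²/(N-j) ≥ A²/j + (m0-A)²/(N-j)`, i.e. `(N-j)(NQ - m0²) ≥ j(NA/j - m0)²`. -/
def GTAU : Prop := ∀ (n : ℕ) (S J : Finset (Fin n)) (s : Fin n → ℝ) (N j : ℕ) (cap m0 m1 Q τ : ℝ),
  J ⊆ S → J.card = j → 1 ≤ j → (N = 0 ∨ S.card = N) → (∀ i ∈ S, 0 ≤ s i) → (∀ i ∈ S, s i ≤ cap) →
  0 ≤ m0 → m0 ≤ ∑ i ∈ S, s i → ∑ i ∈ S, s i ≤ m1 → ∑ i ∈ S, s i ^ 2 ≤ Q → 0 ≤ τ →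
  TauOK N j cap m0 m1 Q τ → ∑ i ∈ J, s i ≤ j * τ

/-- (REST1).  `J = {i ∈ S | z < s_i X}` has `j` elements, their mean is at most `τ` (`GTAU`), so
their arguments have mean in `[yl, τ X1]`: if `j yl ≤ m0 X0 - (N-j) z` because the other `N - j`
arguments are `≤ z`, otherwise trivially.  The largest argument is at least the mean and at least `ul X`
(some `s_i ≥ ul` as `∑ s > 0`), so at least `yu`.  `UOK` bounds the product over `J` (case 3: `GPROD` (3),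
`|f0| ≤ F` at the mean).  The others have sum at least `(m0 - jτ) X0` if `m0 ≥ jτ` (and if `m0 < jτ` the
exponential in `POK` is `≥ 1`; for the third case of `POK`: the sum of the others is `≥ 0`), use
`GPROD` (1), (2). -/
def GREST1 : Prop := GRL → GPROD → GTAU → ∀ θ z m xW xD yN : ℝ, FA θ z m xW xD yN →
  ∀ (n : ℕ) (S : Finset (Fin n)) (s : Fin n → ℝ) (N j : ℕ) (cap m0 m1 Q ul X0 X X1 x1 τ yl yu U P : ℝ),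
  (N = 0 ∨ S.card = N) → (∀ i ∈ S, 0 ≤ s i ∧ s i ≤ cap ∧ s i * X ≤ x1) → 0 ≤ m0 → m0 ≤ ∑ i ∈ S, s i →
  ∑ i ∈ S, s i ≤ m1 → ∑ i ∈ S, s i ^ 2 ≤ Q → (0 < ∑ i ∈ S, s i → ∃ i ∈ S, ul ≤ s i) →
  0 < X0 → X0 ≤ X → X ≤ X1 → 0 ≤ τ → TauOK N j cap m0 m1 Q τ →
  (yl ≤ z ∨ (0 < N ∧ j * yl ≤ m0 * X0 - ((N : ℝ) - j) * z)) → (yu ≤ yl ∨ yu ≤ z ∨ yu ≤ ul * X0) →
  1 ≤ j → (S.filter (fun i => z < s i * X)).card = j →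
  UOK θ z xW j yl yu (τ * X1) x1 U → POK θ z N j (m0 - j * τ) X0 P →
  |∏ i ∈ S, f0 θ (s i * X)| ≤ U * P

/-- (REST).  Let `j` be the number of `i ∈ S` with `s_i X > z`.  `j = 0`: the product is in
`[0, exp(-m0 X0/2)]` (`GPROD` (1)).  `1 ≤ j ≤ J`: `GREST1` if `al` or `j` odd; if `¬al` and `j` even the
product is `≥ 0` (all arguments are `≤ x1 ≤ yN`, so exactly the `j` factors are negative).  `j > J`: either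
impossible (`j z < m1 X1`, `j ≤ N`) or `|∏| ≤ M^j ≤ M^(J+1)`. -/
def GREST : Prop := GRL → GPROD → GREST1 → GTAU → ∀ θ z m xW xD yN : ℝ, FA θ z m xW xD yN →
  ∀ (N : ℕ) (cap m0 m1 Q ul X0 X1 x1 B : ℝ) (al : Prop) (J : ℕ), 0 ≤ m0 → 0 < X0 → 0 ≤ B →
  (al ∨ x1 ≤ yN) → (al → Real.exp (-(m0 * X0) / 2) ≤ B) →
  (∀ j : ℕ, 1 ≤ j → j ≤ J → (al ∨ Odd j) → ∃ τ yl yu U P : ℝ, 0 ≤ τ ∧ TauOK N j cap m0 m1 Q τ ∧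
    (yl ≤ z ∨ (0 < N ∧ j * yl ≤ m0 * X0 - ((N : ℝ) - j) * z)) ∧ (yu ≤ yl ∨ yu ≤ z ∨ yu ≤ ul * X0) ∧
    UOK θ z xW j yl yu (τ * X1) x1 U ∧ POK θ z N j (m0 - j * τ) X0 P ∧ U * P ≤ B) →
  (m1 * X1 ≤ ((J : ℝ) + 1) * z ∨ (1 ≤ N ∧ N ≤ J) ∨
    ∃ M : ℝ, (∀ y, z ≤ y → |f0 θ y| ≤ M) ∧ M ≤ 1 ∧ M ^ (J + 1) ≤ B) →
  RestB θ N cap m0 m1 Q ul X0 X1 x1 al B

/-- (LINE).  On `[x k, x (k+1)]`: `αy + βy²` is convex, so at most its chord; at the left end it is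
`≤ x_k e_k ≤ -log f0(x_k)`, at the right end `≤ x_{k+1} e_{k+1} ≤ Ll_k + rl_k (x_{k+1}-x_k)/2`; and
`-log f0(y) ≥ Ll_k + (rl_k/2)(y - x_k)` by convexity (`(-log f0)' = rr/2`).  Beyond `x K` (the last
point, `≤ z`): the derivatives: `α + 2βy ≤ α + 2βz ≤ rl_K/2 ≤ (−log f0)'`. -/
def GLINE : Prop := GRL → ∀ θ z m xW xD yN : ℝ, FA θ z m xW xD yN →
  ∀ (K : ℕ) (x e Ll rl : ℕ → ℝ) (α β : ℝ), x 0 = 0 → (∀ k < K, x k < x (k + 1)) → x K < z →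
  (∀ k ≤ K, Ll k ≤ -Real.log (f0 θ (x k)) ∧ rl k ≤ rr θ (x k)) → 0 ≤ β →
  (∀ k ≤ K, x k * (α + β * x k) ≤ Ll k) →
  (∀ k < K, x (k + 1) * (α + β * x (k + 1)) ≤ Ll k + rl k / 2 * (x (k + 1) - x k)) →
  α + 2 * β * z ≤ rl K / 2 →
  ∀ y, 0 ≤ y → y < z → f0 θ y ≤ Real.exp (-(α * y) - β * y ^ 2)

/-- (ENODE): one node of the energy test.  `a = t i`.  If `aX ≥ z`: `|f0(aX)| ≤ F`; if `¬al` then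
`f0(aX) ≤ 0` and the product of the others is `≥ -B`.  If `aX < z`: all factors are positive, the
product of the others is at most `exp(-α(1-a)X - βX² ∑ t_l²) ≤ exp(-(1-a)X(α + βuX))`; the function
`a ↦ f0(aX) exp(-(1-a)Xc)`, `c = α + βuX`, is nonincreasing for `a ≥ max a1 u`, because
`c ≤ rr(uX)/2 ≤ rr(aX)/2` (`uX c ≤ -log f0(uX)`, `GRL`; if `u = 0` then `α ≤ 1/2` by `y → 0`).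
`max a1 u ≤ a`: some `t_l ≥ u`, `l ≠ i`, if `a < 1`. -/
def GENODE : Prop := GRL → ∀ θ z m xW xD yN : ℝ, FA θ z m xW xD yN →
  ∀ (n N : ℕ) (t : Fin n → ℝ) (i : Fin n) (a1 a2 u v X α β p pB : ℝ), (N = 0 ∨ n = N + 1) → Sx t →
  (∀ l, t l ≤ t i) → 0 ≤ a1 → a1 ≤ t i → t i ≤ a2 → a2 ≤ 1 → 0 ≤ u → u ≤ 1 →
  u * (1 - t i) ≤ ∑ l ∈ Finset.univ.erase i, t l ^ 2 → ∑ l ∈ Finset.univ.erase i, t l ^ 2 ≤ v * (1 - t i) →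
  0 < X → 0 ≤ v → 0 ≤ β → (∀ y, 0 ≤ y → y < z → f0 θ y ≤ Real.exp (-(α * y) - β * y ^ 2)) → 0 ≤ pB →
  (z ≤ max a1 u * X ∨ (f0 θ (max a1 u * X) ≤ p ∧
    p * Real.exp (-((1 - max a1 u) * X * (α + β * (u * X)))) ≤ pB)) →
  (a2 * X ≤ z ∨ ∃ (F B : ℝ) (al : Prop), (∀ y, z ≤ y → a1 * X ≤ y → y ≤ a2 * X → |f0 θ y| ≤ F) ∧
    (al ∨ a2 * X ≤ yN) ∧ RestB θ N (min a2 (1 - a1)) (1 - a2) (1 - a1) ((1 - a1) * v) u X X (a2 * X) al B ∧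
    F * B ≤ pB) →
  ∏ l, f0 θ (t l * X) ≤ pB

/-- (ECMP).  `aHS` for `t` and for `s` = (`1/N'` repeated `N'` times, then zeros): `PP θ s ξ =
f0(ξ²/N')^N'` (`f0 θ 0 = 1`); `∑_{i≥16} 1/i² ≤ 0.0646`; `∑_{i≥12} 1/i² ≤ 0.09`. -/
def GECMP : Prop := ∀ θ : ℝ, 0 < θ → θ < 1 / 2 →
  (∀ (n N' : ℕ) (t : Fin n → ℝ), 1 ≤ N' → N' ≤ n → Sx t → ∀ (T : ℝ) (p : ℕ → ℝ),
    T ≤ ∑' i : ℕ, f0 θ (((i : ℝ) + 1) ^ 2 / N') ^ N' / ((i : ℝ) + 1) ^ 2 →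
    (∀ i : ℕ, 1 ≤ i → i ≤ 8 → PP θ t (i : ℝ) ≤ p i) → (∀ i : ℕ, 9 ≤ i → i ≤ 15 → |PP θ t (i : ℝ)| ≤ p i) →
    (∀ i : ℕ, 16 ≤ i → |PP θ t (i : ℝ)| ≤ p 16) →
    ∑ i ∈ Finset.Icc 1 15, p i / (i : ℝ) ^ 2 + 0.0646 * p 16 + 1e-7 < T → ¬ IsMinT θ t) ∧
  (∀ n : ℕ, 1 ≤ n → ∀ (L : ℕ → ℝ) (U : ℝ), (∀ i : ℕ, 1 ≤ i → i ≤ 11 → L i ≤ f0 θ ((i : ℝ) ^ 2 / (n : ℝ)) ^ n) →
    0 ≤ U → (Even n ∨ ∀ i : ℕ, 12 ≤ i → |f0 θ ((i : ℝ) ^ 2 / (n : ℝ))| ^ n ≤ U) →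
    ∑ i ∈ Finset.Icc 1 11, L i / (i : ℝ) ^ 2 - 0.09 * U ≤
      ∑' i : ℕ, f0 θ (((i : ℝ) + 1) ^ 2 / n) ^ n / ((i : ℝ) + 1) ^ 2) ∧
  G θ ![(1 / 2 : ℝ), 1 / 2] = Real.pi / 2 / sg θ * 2 ^ (θ - 1 / 2)

/-- (SIG).  (1) `|f0(t_l X)| ≤ exp(-σ t_l X)`, `∑ t_l = 1`.  (2): for `y' ≥ y`, `y ≤ Y`:
`|f0 y'| ≤ exp(-σ min(y',Y)) ≤ exp(-σ y)`; with `y = t_l X0`, `y' = t_l X`.
(3) `h(x) = -log(c0 (64/x)^g)/x` is nonincreasing for `x ≥ 64` if `-log c0 ≥ g`. -/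
def GSIG : Prop := ∀ θ : ℝ, (∀ (n : ℕ) (t : Fin n → ℝ) (σ Y X : ℝ), Sx t → 0 ≤ X →
    (∀ y, 0 ≤ y → y ≤ Y → |f0 θ y| ≤ Real.exp (-(σ * y))) → (∀ l, t l * X ≤ Y) →
    |∏ l, f0 θ (t l * X)| ≤ Real.exp (-(σ * X))) ∧
  (∀ (n : ℕ) (t : Fin n → ℝ) (σ Y X0 X : ℝ), Sx t → 0 ≤ σ → 0 ≤ X0 → X0 ≤ X →
    (∀ y, 0 ≤ y → y ≤ Y → |f0 θ y| ≤ Real.exp (-(σ * y))) →
    (∀ y, Y ≤ y → |f0 θ y| ≤ Real.exp (-(σ * Y))) → (∀ l, t l * X0 ≤ Y) →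
    |∏ l, f0 θ (t l * X)| ≤ Real.exp (-(σ * X0))) ∧
  (∀ g c0 c1 c2 : ℝ, FP θ g c0 c1 c2 → 0 < c0 → g ≤ -Real.log c0 →
    (∀ y, 0 ≤ y → y ≤ 64 → |f0 θ y| ≤ Real.exp (Real.log c0 / 64 * y)) →
    ∀ x, 64 ≤ x → ∀ y, 0 ≤ y → y ≤ x → |f0 θ y| ≤ Real.exp (Real.log (c0 * (64 / x) ^ g) / x * y))

/-- (KR), the kernel.  (1) definition of `rr`.  (2) `y < z ≤ x ≤ xD`: `kr = (f1 x - f0 x) f0 y +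
f0 x (f0 y - f1 y)`, `f0 x ≤ 0`; `y = z`: `kr = - f0 x f1 z`.  (3) by (1) and `rr` increasing.
(4), (5): `kr x y = f1 x (f0 y - f0 x) - f0 x (f1 y - f1 x)`; in (5) if `f1 x < 0` then `x ≥ m` and,
if `y ≤ z`, `f0 y ≥ 0 ≥ f0 x`, so the first term is `≤ 0`; if `y > z`: `f0 y - f0 x = (1/2)∫_y^x f1 ≥
-(V/2)(x-y)` as `f1 ≥ 0` on `[0,m]`, so it is at most `V²/2 (x-y)`. -/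
def GKR : Prop := GRL → ∀ θ z m xW xD yN : ℝ, FA θ z m xW xD yN →
  (∀ x y, 0 ≤ y → y < x → x < z → kr θ x y = f0 θ x * f0 θ y * (rr θ x - rr θ y) ∧ 0 < kr θ x y) ∧
  (∀ x y, 0 ≤ y → y ≤ z → z ≤ x → x ≤ xD → 0 ≤ kr θ x y) ∧
  (∀ x y, z ≤ y → y ≤ x → x ≤ xW → 0 ≤ kr θ x y) ∧
  (∀ x y A1 A2 F u1 : ℝ, 0 ≤ y → y < x → 0 ≤ A1 → 0 ≤ A2 → |f0 θ y - f0 θ x| ≤ A1 / 2 * (x - y) →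
    |f1 θ y - f1 θ x| ≤ A2 * (x - y) → |f0 θ x| ≤ F → |f1 θ x| ≤ u1 →
    |kr θ x y| ≤ (u1 * A1 / 2 + F * A2) * (x - y)) ∧
  (∀ x y A1 A2 F u1 V : ℝ, 0 ≤ y → y < x → z ≤ x → x ≤ yN → 0 ≤ A1 → 0 ≤ A2 → 0 ≤ u1 → 0 ≤ V →
    |f0 θ y - f0 θ x| ≤ A1 / 2 * (x - y) → |f1 θ y - f1 θ x| ≤ A2 * (x - y) → |f0 θ x| ≤ F → f1 θ x ≤ u1 →
    (y ≤ z ∨ x ≤ m ∨ ∀ x', m ≤ x' → |f1 θ x'| ≤ V) →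
    kr θ x y ≤ (u1 * A1 / 2 + F * A2 + (if y ≤ z ∨ x ≤ m then 0 else V ^ 2 / 2)) * (x - y))

/-- (KCC).  `lam` convex on `[0,z)`, `lam 0 = 0`, nondecreasing.  (1): `t_l ∈ [b1,a2]`, chord, sum;
then monotone in `X`.  (2): `lam(t_l X) ≤ (t_l/a2) lam(a2 X)`.  (3): `∏ f0 = exp(-X/2 - ∑ lam)`. -/
def GKCC : Prop := GRL → ∀ θ z m xW xD yN : ℝ, FA θ z m xW xD yN →
  ∀ (n : ℕ) (t : Fin n → ℝ) (X X1 : ℝ), Sx t → 0 ≤ X → X ≤ X1 →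
  (∀ b1 a2 l1 l2 C : ℝ, 0 ≤ b1 → b1 < a2 → (∀ l, b1 ≤ t l ∧ t l ≤ a2) → a2 * X1 < z →
    lam θ (b1 * X1) ≤ l1 → lam θ (a2 * X1) ≤ l2 → (n * a2 - 1) * l1 + (1 - n * b1) * l2 ≤ (a2 - b1) * C →
    Real.exp (-X / 2 - C) ≤ ∏ l, f0 θ (t l * X)) ∧
  (∀ a2 l2 C : ℝ, 0 < a2 → (∀ l, t l ≤ a2) → a2 * X1 < z → lam θ (a2 * X1) ≤ l2 → l2 ≤ a2 * C →
    Real.exp (-X / 2 - C) ≤ ∏ l, f0 θ (t l * X))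

/-- (KPOS).  Integrand `= (rr(aξ²) - rr(bξ²)) ∏_all f0 ≥ av (a-b) ξ² exp(-ξ²/2 - C)`; Jensen for
`exp` with the weight `ξ²`: `∫_{ξ0}^{ξ1} ξ² exp(-ξ²/2) ≥ w exp(-mq/2)`, `w = (ξ1³-ξ0³)/3`,
`mq = ∫ξ⁴/∫ξ²`. -/
def GKPOS : Prop := GRL → GKR → ∀ θ z m xW xD yN : ℝ, FA θ z m xW xD yN →
  ∀ (n : ℕ) (t : Fin n → ℝ) (i j : Fin n) (ξ0 ξ1 av C mq : ℝ), Sx t → t j < t i → (∀ l, t l ≤ t i) →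
  0 ≤ ξ0 → ξ0 < ξ1 → t i * ξ1 ^ 2 < z → 0 ≤ av →
  (∀ ξ, ξ0 < ξ → ξ ≤ ξ1 → av * ((t i - t j) * ξ ^ 2) ≤ rr θ (t i * ξ ^ 2) - rr θ (t j * ξ ^ 2)) →
  (∀ ξ, ξ0 < ξ → ξ ≤ ξ1 → Real.exp (-ξ ^ 2 / 2 - C) ≤ ∏ l, f0 θ (t l * ξ ^ 2)) →
  (ξ1 ^ 5 - ξ0 ^ 5) / 5 ≤ mq * ((ξ1 ^ 3 - ξ0 ^ 3) / 3) →
  IntervalIntegrable (KI θ t i j) volume ξ0 ξ1 ∧
  (t i - t j) * (av * ((ξ1 ^ 3 - ξ0 ^ 3) / 3) * Real.exp (-mq / 2 - C)) ≤ ∫ ξ in ξ0..ξ1, KI θ t i j ξ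

/-- (KNEG).  `x = aξ²`, `y = bξ²`, `a = t i`, `b = t j` (largest and smallest coordinate).  If
`x < z` the integrand is `≥ 0`.  Otherwise: `¬al`: `kr ≥ 0` (`GKR` (2), (3)) and the rest is `≥ -B`;
`kr ≤ E (x - y)` by `GKR` (5).  `al`: `|kr| ≤ E (x-y)`, `|rest| ≤ B`. The rest
(`S = univ.erase i.erase j`) has sum `1 - a - b`, `∑ t_l² ≤ (1-a1) t0 - b1²`. -/
def GKNEG : Prop := GRL → GKR → ∀ θ z m xW xD yN : ℝ, FA θ z m xW xD yN →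
  ∀ (n N : ℕ) (t : Fin n → ℝ) (i j : Fin n) (a1 a2 b1 b2 t0 ξ0 ξ1 A1 A2 F u1 V E m0 B : ℝ) (al : Prop),
  (N = 0 ∨ n = N + 2) → Sx t → t j < t i → (∀ l, t l ≤ t i ∧ t j ≤ t l) → 0 < a1 → a1 ≤ t i → t i ≤ a2 →
  0 ≤ b1 → b1 ≤ t j → t j ≤ b2 → ∑ l ∈ Finset.univ.erase i, t l ^ 2 ≤ t0 * (1 - t i) → 0 ≤ t0 →
  0 < ξ0 → ξ0 < ξ1 → 0 ≤ m0 → m0 ≤ 1 - a2 - b2 ∨ m0 = 0 → 0 ≤ A1 → 0 ≤ A2 → 0 ≤ u1 → 0 ≤ V → 0 ≤ B → 0 ≤ E →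
  (∀ x y, z ≤ x → a1 * ξ0 ^ 2 ≤ x → x ≤ a2 * ξ1 ^ 2 → b1 * ξ0 ^ 2 ≤ y → y < x →
    |f0 θ y - f0 θ x| ≤ A1 / 2 * (x - y) ∧ |f1 θ y - f1 θ x| ≤ A2 * (x - y)) →
  (∀ x, z ≤ x → a1 * ξ0 ^ 2 ≤ x → x ≤ a2 * ξ1 ^ 2 → |f0 θ x| ≤ F) →
  ((al ∧ (∀ x, z ≤ x → a1 * ξ0 ^ 2 ≤ x → x ≤ a2 * ξ1 ^ 2 → |f1 θ x| ≤ u1) ∧ u1 * A1 / 2 + F * A2 ≤ E) ∨
   (a2 * ξ1 ^ 2 ≤ xD ∧ (∀ x, z ≤ x → a1 * ξ0 ^ 2 ≤ x → x ≤ a2 * ξ1 ^ 2 → f1 θ x ≤ u1) ∧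
    ((b2 * ξ1 ^ 2 ≤ z ∧ u1 * A1 / 2 + F * A2 ≤ E) ∨
     (a2 * ξ1 ^ 2 ≤ xW ∧ a2 * ξ1 ^ 2 ≤ m ∧ u1 * A1 / 2 + F * A2 ≤ E) ∨
     (a2 * ξ1 ^ 2 ≤ xW ∧ (∀ x', m ≤ x' → |f1 θ x'| ≤ V) ∧ u1 * A1 / 2 + F * A2 + V ^ 2 / 2 ≤ E)))) →
  RestB θ N a2 m0 (1 - a1 - b1) ((1 - a1) * t0 - b1 ^ 2) 0 (ξ0 ^ 2) (ξ1 ^ 2) (a2 * ξ1 ^ 2) al B →
  IntervalIntegrable (KI θ t i j) volume ξ0 ξ1 ∧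
  -((t i - t j) * ((ξ1 ^ 3 - ξ0 ^ 3) / 3 * E * B)) ≤ ∫ ξ in ξ0..ξ1, KI θ t i j ξ

/-- (KTAIL).  `x = aξ²`: `|kr| ≤ |f1 x|(I1 x - I1 y)/2 + |f0 x|(I2 x - I2 y)`, and for concave `I`,
`I 0 = 0`: `(I x - I y)/(x-y) ≤ I x/x ≤ S/x`; so `|kr| ≤ (a-b)ξ² (c1 (64/x)^(g+1) S1/2 + c0 (64/x)^g S2)/x`,
`ξ²/x = 1/a ≤ 1/a1`.  Rest: `|f0(s)| ≤ exp(log(c0 (64/x)^g) s/x)` for `s ≤ x` (`GSIG` (3)), so the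
product is at most `(c0 (64/x)^g)^(R/a)`, `R = 1-a-b`, `R/a ≥ Ra`, `c0 (64/x)^g ≤ 1`.  With
`x ≥ xs (ξ/ξs)²`, `xs = a1 ξs² ≥ 64`: everything is `≤` (value at `xs`)·`(ξs/ξ)^(2g(1+Ra))`. -/
def GKTAIL : Prop := GSIG → ∀ θ z m xW xD yN g c0 c1 c2 S1 S2 : ℝ, ∀ I1 I2 : ℝ → ℝ,
  FA θ z m xW xD yN → FP θ g c0 c1 c2 → FM θ I1 I2 S1 S2 → 0 < c0 → 0 ≤ c1 → g ≤ -Real.log c0 →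
  (∀ y, 0 ≤ y → y ≤ 64 → |f0 θ y| ≤ Real.exp (Real.log c0 / 64 * y)) →
  ∀ (n : ℕ) (t : Fin n → ℝ) (i j : Fin n) (a1 ξs Ra d0 d1 T : ℝ), Sx t → t j < t i →
  (∀ l, t l ≤ t i ∧ t j ≤ t l) → 0 < a1 → a1 ≤ t i → 0 ≤ Ra → Ra * t i ≤ 1 - t i - t j → 0 < ξs →
  64 ≤ a1 * ξs ^ 2 → c0 * (64 / (a1 * ξs ^ 2)) ^ g ≤ d0 → c1 * (64 / (a1 * ξs ^ 2)) ^ (g + 1) ≤ d1 → 0 < d0 →
  1 < 2 * g * (1 + Ra) → (d1 * S1 / 2 + d0 * S2) / a1 * d0 ^ Ra * ξs ≤ T * (2 * g * (1 + Ra) - 1) →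
  IntegrableOn (KI θ t i j) (Ioi ξs) ∧ -((t i - t j) * T) ≤ ∫ ξ in Ioi ξs, KI θ t i j ξ

/-- (KSMALL): `K > 0` if the largest coordinate `a = t i` is `≤ 1/128`.  For `aξ² < z` the integrand
is `≥ 0`.  For `ξ ≤ 4` (`aξ² ≤ 1/8`): `∏ f0 ≥ exp(-ξ²/2 - 128 l8)` (`GKCC` (2), `a2 = 1/128`, `X1 = 16`),
`rr x - rr y ≥ ρ (x-y)`, `∫_0^4 ξ² exp(-ξ²/2) ≥ 1.2`: at least `(a-b) 1.2 ρ exp(-128 l8)`.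
For `X = ξ² ≥ z/a ≥ 128 z`: `|kr| ≤ (x-y) = (a-b) X` (`|f0|, |f1| ≤ 1`, `|f2| ≤ mo θ 2/6 ≤ 1/2`), and the
rest is at most (`R = 1-a-b ≥ 1-2a`): `exp(-σ1 R X)` if `aX ≤ 16`, `exp(-σ R X)` if `aX ≤ 64`, and
`(c0 (64/x)^g)^(R/a)`, `R/a ≥ 126`, if `x = aX ≥ 64` (`GSIG` (3); `c0 ≤ exp(-64σ)`).
With `κ = (63/64)σ1 ≥ 0.039`, `s0 = √(z/a)`, `κ s0² ≥ 12.6`: `∫_{s0}^∞ ξ² exp(-κξ²) dξ ≤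
(s0/(2κ) + 1/(4κ² s0)) exp(-κ s0²) ≤ 14 s0 exp(-κ s0²)`, decreasing in `s0`, so at most
`14 √(128 z) exp(-126 σ1 z)`; the other two parts are `≤ 1e-13`. -/
def GKSMALL : Prop := GRL → GKR → GKCC → GSIG → ∀ θ z m xW xD yN g c0 c1 c2 σ σ1 ρ l8 : ℝ,
  FA θ z m xW xD yN → FP θ g c0 c1 c2 → 0 < c0 → g ≤ -Real.log c0 →
  (∀ y, 0 ≤ y → y ≤ 64 → |f0 θ y| ≤ Real.exp (-(σ * y))) → σ * 64 ≤ -Real.log c0 → 1 / 50 ≤ σ →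
  (∀ y, 0 ≤ y → y ≤ 16 → |f0 θ y| ≤ Real.exp (-(σ1 * y))) → 1 / 25 ≤ σ1 → 5 / 2 ≤ z → z ≤ 16 →
  (∀ x y, 0 ≤ y → y ≤ x → x ≤ 1 / 8 → ρ * (x - y) ≤ rr θ x - rr θ y) → lam θ (1 / 8) ≤ l8 →
  100 * (128 * z) * Real.exp (-(126 * σ1 * z)) + 1e-12 ≤ ρ * Real.exp (-(128 * l8)) → 0 < ρ →
  ∀ (n : ℕ) (t : Fin n → ℝ) (i j : Fin n), 3 ≤ n → Sx t → t j < t i → (∀ l, t l ≤ t i ∧ t j ≤ t l) →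
  t i ≤ 1 / 128 → 0 < K θ t i j

/-- (HG).  As `GHS` (proof in `Helper39.PT.HS`), for `X = √a ε₁Y₁ + √c ε₂Y₂` (law: `aLP`) and `X + √e N`,
`N` standard normal: `(π/2) E|Z| = π²/6 + E Z²/4 - ∑ E cos(iZ)/i² - E D(Z)`, `D ≥ 0`,
`E D(X + √e N) ≤ π² exp(2π²(a+c+e))/cosh(4π²) ≤ 5e-7` as `a+c+e ≤ 1.102`; subtract. -/
def GHG : Prop := ∀ θ : ℝ, 0 < θ → θ < 1 / 2 → ∀ a c e : ℝ, 0 ≤ a → 0 ≤ c → a + c ≤ 1 → 0 < e → e ≤ 0.102 →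
  IntegrableOn (fun ξ => f0 θ (a * ξ ^ 2) * f0 θ (c * ξ ^ 2) * (1 - Real.exp (-(e * ξ ^ 2) / 2)) / ξ ^ 2) (Ioi 0) ∧
  Summable (fun i : ℕ => f0 θ (a * ((i : ℝ) + 1) ^ 2) * f0 θ (c * ((i : ℝ) + 1) ^ 2) *
    (1 - Real.exp (-(e * ((i : ℝ) + 1) ^ 2) / 2)) / ((i : ℝ) + 1) ^ 2) ∧
  e / 4 + ∑' i : ℕ, f0 θ (a * ((i : ℝ) + 1) ^ 2) * f0 θ (c * ((i : ℝ) + 1) ^ 2) *
    (1 - Real.exp (-(e * ((i : ℝ) + 1) ^ 2) / 2)) / ((i : ℝ) + 1) ^ 2 - 5e-7 ≤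
  ∫ ξ in Ioi (0 : ℝ), f0 θ (a * ξ ^ 2) * f0 θ (c * ξ ^ 2) * (1 - Real.exp (-(e * ξ ^ 2) / 2)) / ξ ^ 2

/-- (E2P): near the pair.  `a = t i ≥ c = t k`, `ε = 1 - a - c ∈ (0,e0]`, `R(ξ) = ∏_{others} f0`,
`P = f0(aξ²) f0(cξ²)`.  `G t - G(a,c) = ∫ P (1-R)/ξ²`, `G(a,c) ≥ √(1-ε) V2` (`aPAIR`, power means),
`V2 = G(½,½) ≤ V2u`.  So it is enough that `∫ P (1-R)/(ε ξ²) > V2/(1+√(1-e0))`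
(`(1-√(1-ε))/ε = 1/(1+√(1-ε))`).  Let `w(ξ) = (1 - exp(-e0 ξ²/2))/(e0 ξ²) ≤ 1/2`, nonincreasing.
(i) `aξ² < z`: `P > 0`, the others have arguments `< z` (`e0 ≤ a1`), `0 ≤ R ≤ exp(-εξ²/2)`, so
`(1-R)/(εξ²) ≥ w` (`x ↦ (1-e^{-xs})/x` decreasing).  (ii) `cξ² ≤ z ≤ aξ² (≤ yN)`: `P ≤ 0`,
`(1-R)/(εξ²) ≤ 1/2` (`1 - ∏ x_l ≤ ∑ (1 - x_l)` for `x_l ∈ [-1,1]`, `1 - f0 x ≤ x/2`): loss at most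
`|P|(1/2 - w) ≤ Pm (1/2 - w2)`, `ξ ∈ [ξ1,ξ2]`.  (iii) `cξ² > z`, `aξ² ≤ yN`: `P > 0`; if all other arguments
are `≤ z` (so if `e0 ξ² ≤ z`) then no loss, else `|R| ≤ M` and the loss is at most
`P (w - (1-M)/(e0 ξ²)) ≤ M P/(e0 ξ²)` (integral over `ξ ≥ ξ3`: `M P3/(e0 ξ3)`).
(iv) `ξ ≥ ξ5` (`a2 ξ5² ≤ yN`): loss at most `|P|/2`.  Main term: `GHG`. -/
def GE2P : Prop := GRL → GHG → GPROD → ∀ θ z m xW xD yN g c0 c1 c2 : ℝ, FA θ z m xW xD yN → FP θ g c0 c1 c2 →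
  ∀ (n : ℕ) (t : Fin n → ℝ) (i k : Fin n) (a1 a2 e0 M Pm w2 P3 P5 J1 J2 J3 U16 V2u ξ1 ξ2 ξ3 ξ5 ξ6 : ℝ) (L : ℕ → ℝ),
  Sx t → i ≠ k → (∀ l, t l ≤ t i) → 0 < a1 → a1 ≤ t i → t i ≤ a2 → 0 < 1 - t i - t k → 1 - t i - t k ≤ e0 →
  e0 ≤ 0.102 → e0 ≤ a1 → 0 < 1 - a2 - e0 →
  (∀ y, z ≤ y → |f0 θ y| ≤ M) → M ≤ 1 →
  0 < ξ1 → a2 * ξ1 ^ 2 ≤ z → ξ1 ≤ ξ2 → z ≤ (1 - a2 - e0) * ξ2 ^ 2 → a2 * ξ2 ^ 2 ≤ yN → ξ2 ≤ ξ5 →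
  a2 * ξ5 ^ 2 ≤ yN → ξ5 ≤ ξ6 → 64 ≤ (1 - a2 - e0) * ξ6 ^ 2 → 0 < ξ3 → e0 * ξ3 ^ 2 ≤ z →
  w2 * (e0 * ξ2 ^ 2) ≤ 1 - Real.exp (-(e0 * ξ2 ^ 2) / 2) →
  (∀ ξ, ξ1 ≤ ξ → ξ ≤ ξ2 → t k * ξ ^ 2 ≤ z → z ≤ t i * ξ ^ 2 → |f0 θ (t i * ξ ^ 2) * f0 θ (t k * ξ ^ 2)| ≤ Pm) →
  (1 / 2 - w2) * (ξ2 - ξ1) * Pm ≤ J1 →
  (ξ5 ≤ ξ3 ∨ ((∀ ξ, ξ3 ≤ ξ → |f0 θ (t i * ξ ^ 2) * f0 θ (t k * ξ ^ 2)| ≤ P3) ∧ M * P3 ≤ J3 * (e0 * ξ3))) → 0 ≤ J3 →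
  (∀ ξ, ξ5 ≤ ξ → |f0 θ (t i * ξ ^ 2) * f0 θ (t k * ξ ^ 2)| ≤ P5) →
  (P5 * (ξ6 - ξ5) + c0 ^ 2 * ξ6 / (4 * g - 1)) / 2 ≤ J2 →
  (∀ ξ, 16 ≤ ξ → |f0 θ (t i * ξ ^ 2) * f0 θ (t k * ξ ^ 2)| ≤ U16) →
  (∀ l : ℕ, 1 ≤ l → l ≤ 15 → L l ≤ f0 θ (t i * (l : ℝ) ^ 2) * f0 θ (t k * (l : ℝ) ^ 2) *
    ((1 - Real.exp (-(e0 * (l : ℝ) ^ 2) / 2)) / (e0 * (l : ℝ) ^ 2))) →
  G θ ![(1 / 2 : ℝ), 1 / 2] ≤ V2u →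
  V2u < (1 / 4 + ∑ l ∈ Finset.Icc 1 15, L l - U16 / (15.5 * e0) - 5e-7 / e0 - J1 - J2 - J3) * (1 + √(1 - e0)) →
  ¬ IsMinT θ t

/-- (ACOV).  The existence part of `Good`: if `t` is a minimiser with largest coordinate `t i` and
smallest coordinate `t j` and `t i = t j` then `t` is the diagonal; if `t i + t k = 1` (two
coordinates) then `G t` is given by `aPAIR` (`PP` with two nontrivial factors, `f0 θ 0 = 1`), and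
`a^r + (1-a)^r`, `r = 1/(2θ) > 1`, is strictly smallest at `a = 1/2` (compare with the pair, which is
in the simplex), so `t` is the pair. Also: if `b = min`, `m = 1 - a`, `n ≥ 3`:
`((m-b)²/(n-2) + b²) ≤ ∑_{l≠i} t_l²` (Cauchy-Schwarz on the other `n-2`), `m²/(n-1) ≤ ∑_{l≠i} t_l²`,
`∑_{l≠i} t_l² ≤ a m`, `≤ m²`; if the second largest is `≤ m - e`, `0 ≤ e ≤ m/2`:
`∑_{l≠i} t_l² ≤ (m-e)² + e²` if moreover the smallest is `≤ e`... -/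
def GACOV : Prop := ∀ θ : ℝ, 1 / 4 ≤ θ → θ < 1 / 2 → ∀ (n : ℕ) (t : Fin n → ℝ), Sx t →
  ((∀ l l', t l = t l') → Good t) ∧
  (IsMinT θ t → ∀ i k, i ≠ k → t i + t k = 1 → Good t) ∧
  (∀ i j : Fin n, i ≠ j → (∀ l, t l ≤ t i ∧ t j ≤ t l) →
    (1 - t i) ^ 2 ≤ ((n : ℝ) - 1) * ∑ l ∈ Finset.univ.erase i, t l ^ 2 ∧
    (1 - t i - t j) ^ 2 ≤ ((n : ℝ) - 2) * (∑ l ∈ Finset.univ.erase i, t l ^ 2 - t j ^ 2) ∧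
    ∑ l ∈ Finset.univ.erase i, t l ^ 2 ≤ t i * (1 - t i) ∧
    ∑ l ∈ Finset.univ.erase i, t l ^ 2 ≤ (1 - t i) ^ 2 ∧
    ((n : ℝ) - 1) * t j ≤ 1 - t i ∧ 1 ≤ n * t i ∧
    (∀ e : ℝ, 0 ≤ e → 2 * e ≤ 1 - t i → (∀ k, k ≠ i → t k ≤ 1 - t i - e) →
      ∑ l ∈ Finset.univ.erase i, t l ^ 2 ≤ (1 - t i - e) ^ 2 + e ^ 2) ∧
    (n = 3 → (∀ k, k ≠ i → t k ≤ 1 - t i - t j)))

/-- (FA).  Intermediate values; `f0` strictly decreasing on `[0,m]`. -/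
def GFA : Prop := ∀ θ zL zR m xW xD yN : ℝ, 1 / 4 ≤ θ → θ < 1 / 2 → 0 < zL → zL < zR → zR ≤ m →
  0 < f0 θ zL → f0 θ zR < 0 → (∀ x, 0 ≤ x → x < m → 0 < f1 θ x) → (∀ x, 0 ≤ x → x ≤ xW → 0 < Wf θ x) →
  zR ≤ xW → (∀ x, m ≤ x → x ≤ xD → f0 θ x < f1 θ x) → zR ≤ xD → (∀ x, m ≤ x → x ≤ yN → f0 θ x < 0) →
  m ≤ yN → xW ≤ yN → xD ≤ yN → ∃ z, zL < z ∧ z < zR ∧ FA θ z m xW xD yN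

/-- (FMG).  `I1` = integral of the step function `U1 k` on `[x k, x (k+1))`, continued by
`c1 (64/s)^(g+1)` beyond `64` (nonincreasing, `c1 ≤ U1 (K-1)`), `∫_64^∞ = 64 c1/g`. -/
def GFMG : Prop := ∀ θ : ℝ, 0 < θ → θ < 1 / 2 → ∀ (K : ℕ) (x U1 U2 J1 J2 : ℕ → ℝ) (g c0 c1 c2 : ℝ),
  FP θ g c0 c1 c2 → x 0 = 0 → (∀ k < K, x k < x (k + 1)) → x K = 64 → 1 ≤ K →
  (∀ k < K, ∀ y, x k ≤ y → |f1 θ y| ≤ U1 k ∧ |f2 θ y| ≤ U2 k) →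
  (∀ k, k + 1 < K → U1 (k + 1) ≤ U1 k ∧ U2 (k + 1) ≤ U2 k) → c1 ≤ U1 (K - 1) → c2 ≤ U2 (K - 1) →
  0 ≤ c1 → 0 ≤ c2 → J1 0 = 0 → J2 0 = 0 →
  (∀ k < K, J1 (k + 1) = J1 k + (x (k + 1) - x k) * U1 k ∧ J2 (k + 1) = J2 k + (x (k + 1) - x k) * U2 k) →
  ∃ I1 I2 : ℝ → ℝ, FM θ I1 I2 (J1 K + 64 * c1 / g) (J2 K + 64 * c2 / g) ∧
    ∀ k < K, ∀ y, x k ≤ y → y ≤ x (k + 1) → I1 y = J1 k + (y - x k) * U1 k ∧ I2 y = J2 k + (y - x k) * U2 k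

/-- (RHO): lower bound of `rr' = Wf/f0²` on a cell.  `Wf(x0+lh) ≥ (1-l)W0 + lW1 - s`,
`s = h²/8 (S²/2 + F mo4/840)` (`GCH`), `f0(x0+lh) ≤ f0(x0) exp(-r0 l h/2)` as `rr ≥ r0` on the cell,
so `1/f0² ≥ (1 + r0 l h)/pu²`; `((1-l)W0 + lW1)(1 + r0 l h) ≥ min(W0, W1(1+r0 h))` (concave in `l` if
`W1 ≤ W0`). -/
def GRHO : Prop := GCH → GRL → ∀ θ z m xW xD yN : ℝ, FA θ z m xW xD yN →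
  ∀ x0 h S F W0 W1 r0 pu ρ : ℝ, 0 ≤ x0 → 0 < h → x0 + h < z →
  (∀ y, x0 ≤ y → y ≤ x0 + h → |f2 θ y| ≤ S) → (∀ y, x0 ≤ y → y ≤ x0 + h → |f0 θ y| ≤ F) →
  0 ≤ W0 → W0 ≤ Wf θ x0 → W1 ≤ Wf θ (x0 + h) → 0 ≤ r0 → r0 ≤ rr θ x0 → f0 θ x0 ≤ pu →
  ρ * pu ^ 2 ≤ min W0 (W1 * (1 + r0 * h)) - h ^ 2 / 8 * (S ^ 2 / 2 + F * (mo θ 4 / 840)) * (1 + r0 * h) →
  ∀ x, x0 ≤ x → x ≤ x0 + h → ρ ≤ Wf θ x / f0 θ x ^ 2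

/-- (RG).  `R` = integral of the step function `ρ k` on `[x k, x (k+1))`, convex; `rr' ≥ ρ k` there. -/
def GRG : Prop := GRL → ∀ θ z m xW xD yN : ℝ, FA θ z m xW xD yN →
  ∀ (K : ℕ) (x ρ J : ℕ → ℝ), x 0 = 0 → (∀ k < K, x k < x (k + 1)) → x K < z → 1 ≤ K →
  (∀ k, k + 1 < K → ρ k ≤ ρ (k + 1)) → J 0 = 0 → (∀ k < K, J (k + 1) = J k + (x (k + 1) - x k) * ρ k) →
  (∀ k < K, ∀ y, x k ≤ y → y < x (k + 1) → ρ k ≤ Wf θ y / f0 θ y ^ 2) →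
  ∃ R : ℝ → ℝ, ConvexOn ℝ (Icc 0 (x K)) R ∧
    (∀ k < K, ∀ y, x k ≤ y → y ≤ x (k + 1) → R y = J k + (y - x k) * ρ k) ∧
    (∀ y y', 0 ≤ y → y ≤ y' → y' ≤ x K → R y' - R y ≤ rr θ y' - rr θ y) ∧
    (∀ k < K, ∀ y y', x k ≤ y → y ≤ y' → y' ≤ x K → ρ k * (y' - y) ≤ rr θ y' - rr θ y)

/-- (AV).  Slopes of concave / convex functions. -/
def GAV : Prop := (∀ I : ℝ → ℝ, ConcaveOn ℝ (Ici 0) I → ∀ y0 x0 y x : ℝ, 0 ≤ y0 → y0 < x0 → y0 ≤ y → x0 ≤ x →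
    y < x → (I x - I y) * (x0 - y0) ≤ (I x0 - I y0) * (x - y)) ∧
  (∀ (Z : ℝ) (R : ℝ → ℝ), ConvexOn ℝ (Icc 0 Z) R → ∀ y0 x0 y x : ℝ, 0 ≤ y0 → y0 < x0 → y0 ≤ y → x0 ≤ x →
    y < x → x ≤ Z → (R x0 - R y0) * (x - y) ≤ (R x - R y) * (x0 - y0))

end Pool.Agent.Helper53.PT
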