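import Pool.Agent.Helper53.PT.Base

/-!
# MP_705522_gt, `q ∈ (2,4)`: goals, part C (soundness of the checker `Chk.lean`)

Conventions: `aR x = x/2^26` (arguments), `vR v = v/2^40` (values), `xR k = aR (xgN k)` (grid).
The results of parts A and B are available without hypotheses in `Pool.Agent.Helper53.PT.A` and
`Pool.Agent.Helper53.PT.B` (`bRL : GRL`, `bPROD : GPROD`, ...): import these files.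
-/

namespace Pool.Agent.Helper53.PT

open MeasureTheory Set Filter Topology

/-! ## Elementary functions -/

/-- (SQ).  Newton: `succ ((r + y/r)/2) ≥ (r + y/r)/2 ≥ √y` for `r > 0`; `sqL y = y / sqU y`. -/
def GSQ : Prop := ∀ y : ℕ, √(y : ℝ) ≤ N.sqU y ∧ (N.sqL y : ℝ) ≤ √(y : ℝ) ∧ 0 < N.sqU y

/-- (EXP).  `v = 2^37 i + r`, `exp(-i/8)` from the tables (`e8L_k ≤ 2^40 e^(-k/8) ≤ e8U_k`: induction on `k`,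
`970315605868 ≤ 2^40 e^(-1/8) ≤ 970315605869`), `exp(-r/2^40)` by the Taylor polynomial of degree `6`
(`r/2^40 < 1/8`, it is `≥ e^(-r)` and at most `r^7/5040` too big), rounding errors `< 2` units. -/
def GEXP : Prop := ∀ v : ℕ, Real.exp (-(vR v)) ≤ vR (N.expUp v) ∧ vR (N.expLo v) ≤ Real.exp (-(vR v))

/-- (LN).  `v = 2^(-e) w`, `w ∈ [2^39,2^40)`, `-log(v/2^40) = e log 2 + 2 artanh((2^40-w)/(2^40+w))`,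
`762123384785 ≤ 2^40 log 2 < 762123384786`; every rounding in `lnL` is downwards, their sum is `< 80`. -/
def GLN : Prop := (∀ (v : ℕ) (w : ℝ), 0 < w → w ≤ 1 → w ≤ vR v → vR (N.lnL v) ≤ -Real.log w) ∧
  (∀ (v : ℕ) (w : ℝ), 0 < v → vR v ≤ w → -Real.log w ≤ vR (N.lnU v)) ∧
  (∀ v : ℕ, 2 ^ 20 ≤ v → N.lnU v < 2 ^ 44) ∧ (∀ v : ℕ, 0 < v → N.lnL v < 2 ^ 45)

/-- (POW). -/
def GPOW : Prop := (∀ v n : ℕ, vR (N.powL v n) ≤ vR v ^ n ∧ vR v ^ n ≤ vR (N.powU v n)) ∧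
  (∀ c gn x : ℕ, 0 < c → c ≤ 2 ^ 40 → 2 ^ 32 ≤ x →
    vR c * (64 / aR x) ^ ((gn : ℝ) / 32) ≤ Real.exp (-(vR (N.lC c gn x))))

/-- (FLD), fields of tables. -/
def GFLD : Prop :=
  (∀ (f : ℕ → ℕ) (n : ℕ), (∀ j < n, f j < 2 ^ 44) → ∀ k < n, N.fld (N.build f n) k = f k) ∧
  (∀ (f : ℕ → ℕ) (top n : ℕ), top < 2 ^ 44 → (∀ j < n, f j < 2 ^ 44) →
    N.fld (N.scanMax f top n) n = top ∧
    ∀ k < n, N.fld (N.scanMax f top n) k = max (N.fld (N.scanMax f top n) (k + 1)) (f k)) ∧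
  (∀ (f : ℕ → ℕ) (top n : ℕ), top < 2 ^ 44 → (∀ j < n, f j < 2 ^ 44) →
    N.fld (N.scanMin f top n) n = top ∧
    ∀ k < n, N.fld (N.scanMin f top n) k = min (N.fld (N.scanMin f top n) (k + 1)) (f k)) ∧
  (∀ (f : ℕ → ℕ) (n : ℕ), ∑ j ∈ Finset.range n, f j < 2 ^ 56 →
    ∀ k ≤ n, N.fld6 (N.scanSum f n) k = ∑ j ∈ Finset.range k, f j) ∧
  (∀ (p : ℕ → Bool) (n : ℕ), N.allB p n = true ↔ ∀ k < n, p k = true) ∧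
  (∀ (f : ℕ → ℕ) (c n : ℕ), c < 2 ^ 44 → ∀ k < n, N.fld (N.scanPre f c n) k =
    min (if k = 0 then c else N.fld (N.scanPre f c n) (k - 1)) (f k)) ∧
  (∀ (α : Type) (n : ℕ) (f : ℕ → α), N.frc n f = f n)

/-- (GRID). -/
def GGRID : Prop :=
  N.xgN 0 = 0 ∧ N.xgN 1152 = 2 ^ 32 ∧
  (∀ k < 1152, N.xgN (k + 1) = N.xgN k + 2 ^ N.shf k ∧ 17 ≤ N.shf k ∧ N.shf k ≤ 24) ∧
  (∀ j k, j < k → k ≤ 1152 → N.xgN j < N.xgN k) ∧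
  (∀ x < 2 ^ 32, ∃ k d : ℕ, k < 1152 ∧ d < 2 ^ N.shf k ∧ x = N.xgN k + d ∧ N.idx x = k ∧
    ∀ (α : Type) (f : ℕ → ℕ → ℕ → α), N.onCell x f = f k d (N.shf k)) ∧
  (∀ x, 2 ^ 32 ≤ x → N.idx x = 1152) ∧ (∀ x, N.xgN (N.idx x) ≤ x) ∧ (∀ k ≤ 1152, N.idx (N.xgN k) = k)

/-! ## The tables -/

/-- The bounds at the grid points and `sup |f2|` on the cells. -/
structure TBF (B : N.Base) (θ : ℝ) : Prop where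
  pl : ∀ k ≤ 1152, vR (N.fld (N.tPL B) k) - 1 ≤ f0 θ (xR k)
  pu : ∀ k ≤ 1152, f0 θ (xR k) ≤ vR (N.fld (N.tPU B) k) - 1
  lu : ∀ k ≤ 1152, N.fld (N.tPL B) k ≤ N.fld (N.tPU B) k
  sl : ∀ k ≤ 1152, vR (N.fld (N.tSL B) k) - 1 ≤ f1 θ (xR k)
  su : ∀ k ≤ 1152, f1 θ (xR k) ≤ vR (N.fld (N.tSU B) k) - 1
  tl : ∀ k ≤ 1152, vR (N.fld (N.tTL B) k) - 1 ≤ f2 θ (xR k)
  tu : ∀ k ≤ 1152, f2 θ (xR k) ≤ vR (N.fld (N.tTU B) k) - 1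
  st : ∀ k < 1152, ∀ y, xR k ≤ y → y ≤ xR (k + 1) → |f2 θ y| ≤ vR (N.fld (N.tST B) k)
  s1 : ∀ k < 1152, N.fld (N.tST B) k ≤ 2 ^ 40

/-- (TB).  `f_i θ (xR k)` is within `err_i B k` units of `fld B.T_i k` by `BaseFacts.t_i, l_i`: each of the
three terms of the minimum bounds the difference `f_i θ - f_i (A/8192)` (`17` units `≥ 2^-38 · 2^40 +`
rounding; `(B.h)/512 = (B.h 2^31)/2^40`; `sxg k ≥ 2^40 √(xR k)` by `GSQ`).  The entries of all tables are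
`< 2^44`; clamping `PU` etc. is harmless since `|f0|, |f1|, |f2| ≤ 1` (`aBD`, `mo θ 2 ≤ 3` or use the bound
`2^44 - 1` units `≥ 15`).  `ST`: `GCH` (first statement), `x |f2| ≤ 0.55`, `|f2| ≤ mo θ 2/6` (`aBD`). -/
def GTB : Prop := GSQ → GFLD → GGRID → ∀ (A : ℕ) (B : N.Base) (θ : ℝ), BaseFacts A B θ → TBF B θ

/-- (IXP): `ixOK` unfolded. -/
structure IxP (B : N.Base) (I : N.Ix) : Prop where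
  kzR : I.kz < I.kR
  RM : I.kR ≤ I.kM
  MN : I.kM < I.kN
  N1 : I.kN ≤ 1152
  RW : I.kR ≤ I.kW
  WN : I.kW ≤ I.kN
  RD : I.kR ≤ I.kD
  DN : I.kD ≤ I.kN
  W9 : I.kW ≤ 992
  z1 : 100 ≤ I.kz
  z7 : I.kz ≤ 736
  ni : B.ni = true → I.kN = 1152
  pl : ∀ k ≤ I.kz, 2 ^ 40 + 2 ^ 20 ≤ N.fld (N.tPL B) k
  pu : N.fld (N.tPU B) I.kR < 2 ^ 40
  s1 : ∀ k < I.kM, 2 ^ 40 + N.csF B.m3R (N.fld (N.tST B) k) (N.shf k) < N.fld (N.tSL B) k ∧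
    2 ^ 40 + N.csF B.m3R (N.fld (N.tST B) k) (N.shf k) < N.fld (N.tSL B) (k + 1)
  W : ∀ k < I.kW, 2 ^ 40 + N.wSl B k < N.fld (N.tW B) k ∧ 2 ^ 40 + N.wSl B k < N.fld (N.tW B) (k + 1)
  D : ∀ k, I.kM ≤ k → k < I.kD →
    N.fld (N.tPU B) k + (N.csF B.m3R (N.fld (N.tST B) k) (N.shf k) + N.cpF (N.fld (N.tST B) k) (N.shf k)) <
      N.fld (N.tSL B) k ∧
    N.fld (N.tPU B) (k + 1) + (N.csF B.m3R (N.fld (N.tST B) k) (N.shf k) +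
      N.cpF (N.fld (N.tST B) k) (N.shf k)) < N.fld (N.tSL B) (k + 1)
  N0 : ∀ k, I.kM ≤ k → k < I.kN → N.fld (N.tPU B) k + N.cpF (N.fld (N.tST B) k) (N.shf k) < 2 ^ 40 ∧
    N.fld (N.tPU B) (k + 1) + N.cpF (N.fld (N.tST B) k) (N.shf k) < 2 ^ 40
  kE : I.kE < I.kz
  f0 : I.f00 ≤ 2 ^ 39
  F0 : N.fld (N.tF I) 0 = I.f00
  FS : ∀ k < I.kz, N.fld (N.tF I) (k + 1) = N.fld (N.tF I) k + N.slp I k * 2 ^ (N.shf k - 16)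
  SM : ∀ k, k + 1 < I.kz → N.slp I k ≤ N.slp I (k + 1)
  L1 : ∀ k < I.kz, N.xgN (k + 1) * N.fld (N.tF I) (k + 1) ≤ N.fld (N.tLL B I.kz) (k + 1) * 2 ^ 26
  L2 : ∀ k < I.kz, N.xgN (k + 1) * N.fld (N.tF I) (k + 1) ≤
    (N.fld (N.tLL B I.kz) k + N.rLo B k / 2 ^ (27 - N.shf k)) * 2 ^ 26
  L3 : N.fld (N.tF I) I.kE * 2 ^ 16 + N.slp I I.kE * (2 * N.xgN I.kR - N.xgN I.kE) ≤ N.rLo B I.kz * 2 ^ 15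
  M1 : N.fld (N.tU0 B) I.kM < 2 ^ 40
  g0 : 16 ≤ B.gn
  g1 : B.gn ≤ 32
  gc : B.gn * 2 ^ 35 ≤ N.lnL B.c0
  c0 : 1 ≤ B.c0
  c1 : 1 ≤ B.c1
  c1' : B.c1 ≤ 2 ^ 40
  c2 : 1 ≤ B.c2
  c2' : B.c2 ≤ 2 ^ 40
  cc : N.lnU B.c0 / 2 ^ 6 < 2 ^ 39
  sc : ∀ r < 24, N.segC (N.mkTab B I) r = true

/-- (IXP).  Unfolding (`cond`, `Nat.ble`, shifts); fields of `mkTab B I` reduce by `rfl`. -/
def GIXP : Prop := GFLD → ∀ (B : N.Base) (I : N.Ix), N.ixOK (N.mkTab B I) = true → IxP B I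

/-- Bounds on the cell `[xR k, xR (k+1)]`. -/
structure CHF (B : N.Base) (θ : ℝ) : Prop where
  c0 : ∀ k < 1152, ∀ l : ℝ, 0 ≤ l → l ≤ 1 →
    |f0 θ ((1 - l) * xR k + l * xR (k + 1)) - ((1 - l) * f0 θ (xR k) + l * f0 θ (xR (k + 1)))| ≤
      vR (N.cpF (N.fld (N.tST B) k) (N.shf k))
  c1 : ∀ k < 1152, ∀ l : ℝ, 0 ≤ l → l ≤ 1 →
    |f1 θ ((1 - l) * xR k + l * xR (k + 1)) - ((1 - l) * f1 θ (xR k) + l * f1 θ (xR (k + 1)))| ≤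
      vR (N.csF B.m3R (N.fld (N.tST B) k) (N.shf k))
  b0 : ∀ k < 1152, ∀ y, xR k ≤ y → y ≤ xR (k + 1) → |f0 θ y| ≤ vR (N.u0F B k)
  b1 : ∀ k < 1152, ∀ y, xR k ≤ y → y ≤ xR (k + 1) → |f1 θ y| ≤ vR (N.u1F B k)
  p1 : ∀ k < 1152, ∀ y, xR k ≤ y → y ≤ xR (k + 1) → f1 θ y ≤ vR (N.p1F B k)
  w0 : ∀ k ≤ 992, vR (N.fld (N.tW B) k) - 1 ≤ Wf θ (xR k)
  w1 : ∀ k < 1152, ∀ l : ℝ, 0 ≤ l → l ≤ 1 →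
    (1 - l) * Wf θ (xR k) + l * Wf θ (xR (k + 1)) - vR (N.wSl B k) ≤
      Wf θ ((1 - l) * xR k + l * xR (k + 1))
  wS : ∀ k < 1152, ∃ S F : ℝ, (∀ y, xR k ≤ y → y ≤ xR (k + 1) → |f2 θ y| ≤ S) ∧
    (∀ y, xR k ≤ y → y ≤ xR (k + 1) → |f0 θ y| ≤ F) ∧
    (xR (k + 1) - xR k) ^ 2 / 8 * (S ^ 2 / 2 + F * (mo θ 4 / 840)) ≤ vR (N.wSl B k)

/-- (CHF).  `bCH` with `h = 2^(shf k - 26)`, `S = vR (ST k)`, `F = vR (u0F B k)`.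
`wLo`: `f0 f2 ≥ f0⁺f2⁺ + f0⁻f2⁻ - f0⁺f2⁻ - f0⁻f2⁺` with the bounds at the grid point. -/
def GCHF : Prop := GFLD → GGRID → ∀ (A : ℕ) (B : N.Base) (θ : ℝ), BaseFacts A B θ → TBF B θ → CHF B θ

/-- Suffix suprema. -/
structure UF (B : N.Base) (I : N.Ix) (θ : ℝ) : Prop where
  u0 : ∀ k ≤ 1152, ∀ y, xR k ≤ y → |f0 θ y| ≤ vR (N.fld (N.tU0 B) k)
  u1 : ∀ k ≤ 1152, ∀ y, xR k ≤ y → |f1 θ y| ≤ vR (N.fld (N.tU1 B) k)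
  u2 : ∀ k ≤ 1152, ∀ y, xR k ≤ y → |f2 θ y| ≤ vR (N.fld (N.tU2 B) k)
  a0 : ∀ k < 1152, N.fld (N.tU0 B) (k + 1) ≤ N.fld (N.tU0 B) k
  a1 : ∀ k < 1152, N.fld (N.tU1 B) (k + 1) ≤ N.fld (N.tU1 B) k
  a2 : ∀ k < 1152, N.fld (N.tU2 B) (k + 1) ≤ N.fld (N.tU2 B) k
  e0 : N.fld (N.tU0 B) 1152 = B.c0
  e1 : N.fld (N.tU1 B) 1152 = B.c1
  e2 : N.fld (N.tU2 B) 1152 = B.c2
  m0 : ∀ k ≤ 1152, N.fld (N.tU0 B) k ≤ 2 ^ 40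
  m1 : ∀ k ≤ 1152, N.fld (N.tU1 B) k ≤ 2 ^ 40
  m2 : ∀ k ≤ 1152, N.fld (N.tU2 B) k ≤ 2 ^ 40
  p1 : ∀ k < I.kD, ∀ y, xR k ≤ y → y ≤ xR I.kD → f1 θ y ≤ vR (N.fld (N.tP1 B I.kD) k)

/-- (UF).  Suffix maxima over the cells; beyond `64` use `BaseFacts.fp` (`c0 ≤ 2^40` units because
`gc : gn 2^35 ≤ lnL c0` and `lnL v = 0` for `v ≥ 2^40`). -/
def GUF : Prop := GFLD → GGRID → ∀ (A : ℕ) (B : N.Base) (I : N.Ix) (θ : ℝ), BaseFacts A B θ → TBF B θ →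
  IxP B I → CHF B θ → UF B I θ

/-- (FAN): the zero and the signs (`bFA`), `n0` (prefix minima of `-f0`). -/
def GFAN : Prop := GFLD → GGRID → ∀ (A : ℕ) (B : N.Base) (I : N.Ix) (θ : ℝ), BaseFacts A B θ → TBF B θ →
  IxP B I → CHF B θ → (∃ z, FA θ z (xR I.kM) (xR I.kW) (xR I.kD) (xR I.kN) ∧ xR I.kz < z ∧ z < xR I.kR) ∧
    (B.ni = true → ∀ x, xR I.kM ≤ x → f0 θ x < 0) ∧
    (∀ k, I.kM ≤ k → k < I.kN → ∀ y, xR I.kM ≤ y → y ≤ xR (k + 1) →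
      vR (N.fld (N.tN0 B I.kM I.kN) (k - I.kM)) ≤ -f0 θ y)

/-! ## What the tests use -/

/-- Everything the tests need to know about the tables `D`. -/
structure TF (D : N.Tab) (θ z : ℝ) : Prop where
  th0 : 1 / 4 ≤ θ
  th1 : θ < 1 / 2
  fa : FA θ z (xR D.I.kM) (xR D.I.kW) (xR D.I.kD) (xR D.I.kN)
  zl : xR D.I.kz < z
  zr : z < xR D.I.kR
  i1 : 100 ≤ D.I.kz ∧ D.I.kz ≤ 736 ∧ D.I.kz < D.I.kR ∧ D.I.kR ≤ D.I.kM ∧ D.I.kM < D.I.kN ∧ D.I.kN ≤ 1152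
  i2 : D.I.kR ≤ D.I.kW ∧ D.I.kW ≤ D.I.kN ∧ D.I.kR ≤ D.I.kD ∧ D.I.kD ≤ D.I.kN ∧ D.I.kW ≤ 992
  fp : FP θ ((D.B.gn : ℝ) / 32) (vR D.B.c0) (vR D.B.c1) (vR D.B.c2)
  gn : 16 ≤ D.B.gn ∧ D.B.gn ≤ 32
  cp : 0 < D.B.c0 ∧ D.B.c0 < 2 ^ 40 ∧ 0 < D.B.c1 ∧ D.B.c1 ≤ 2 ^ 40 ∧ 0 < D.B.c2 ∧ D.B.c2 ≤ 2 ^ 40
  gc : (D.B.gn : ℝ) / 32 ≤ -Real.log (vR D.B.c0)
  cc : ∀ y, 0 ≤ y → y ≤ 64 → |f0 θ y| ≤ Real.exp (Real.log (vR D.B.c0) / 64 * y)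
  ni : D.B.ni = true → ∀ x, xR D.I.kM ≤ x → f0 θ x < 0
  up0 : ∀ x : ℕ, x < 2 ^ 32 → f0 θ (aR x) ≤ vR (N.up0 D x) - 1
  lo0 : ∀ x : ℕ, x < 2 ^ 32 → vR (N.lo0 D x) - 1 ≤ f0 θ (aR x)
  tay : ∀ p x : ℕ, (p = 0 ∨ p = 14) → x < 2 ^ (32 + p) → ∃ v e : ℕ,
    (∀ (α : Type) (f : ℕ → ℕ → α), N.tay D p x f = f v e) ∧
    |f0 θ ((x : ℝ) / 2 ^ (26 + p)) - (vR v - 1)| ≤ vR e
  p1 : ∀ (x : ℕ) (y : ℝ), x < N.xgN D.I.kD → aR x ≤ y → y ≤ xR D.I.kD → f1 θ y ≤ vR (N.p1 D x)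
  u0 : ∀ k ≤ 1152, ∀ y, xR k ≤ y → |f0 θ y| ≤ vR (N.fld D.U0 k)
  u1 : ∀ k ≤ 1152, ∀ y, xR k ≤ y → |f1 θ y| ≤ vR (N.fld D.U1 k)
  u2 : ∀ k ≤ 1152, ∀ y, xR k ≤ y → |f2 θ y| ≤ vR (N.fld D.U2 k)
  uc : ∀ k ≤ 1152, D.B.c0 ≤ N.fld D.U0 k
  mM : N.mM D < 2 ^ 40
  mb : ∀ y, z ≤ y → |f0 θ y| ≤ vR (N.mM D)
  fst : ∀ (x0 x1 : ℕ) (y : ℝ), z ≤ y → aR x0 ≤ y → y ≤ aR x1 → |f0 θ y| ≤ vR (N.fst D x0 x1)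
  pos : ∀ (x : ℕ) (y : ℝ), 0 ≤ y → aR x ≤ y → y < z → f0 θ y ≤ vR (N.pos0 D x)
  av1 : ∀ (y0 x0 : ℕ) (x y : ℝ), aR y0 ≤ y → aR x0 ≤ x → y < x →
    |f0 θ y - f0 θ x| ≤ vR (N.avg D.I1 D.U1 y0 x0) / 2 * (x - y)
  av2 : ∀ (y0 x0 : ℕ) (x y : ℝ), aR y0 ≤ y → aR x0 ≤ x → y < x →
    |f1 θ y - f1 θ x| ≤ vR (N.avg D.I2 D.U2 y0 x0) * (x - y)
  fm : ∃ I1 I2 : ℝ → ℝ, FM θ I1 I2 ((N.kS1 D : ℝ) / 2 ^ 49) ((N.kS2 D : ℝ) / 2 ^ 49) ∧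
    ∀ x : ℕ, (N.iV D.I1 D.U1 x : ℝ) / 2 ^ 66 ≤ I1 (aR x) ∧ (N.iV D.I2 D.U2 x : ℝ) / 2 ^ 66 ≤ I2 (aR x)
  kav : ∀ (x0 y0 : ℕ) (x y : ℝ), aR x0 ≤ x → aR y0 ≤ y → y < x → x ≤ xR D.I.kz →
    (N.kAv D x0 y0 : ℝ) / 2 ^ 36 * (x - y) ≤ rr θ x - rr θ y
  rh0 : ∀ x y, 0 ≤ y → y ≤ x → x ≤ 1 / 8 → (N.fld D.RH 0 : ℝ) / 2 ^ 36 * (x - y) ≤ rr θ x - rr θ y
  lam : ∀ x : ℕ, x ≤ N.zL D → lam θ (aR x) ≤ vR (N.lamU D x)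
  ell : ∀ y : ℕ, ∃ α β : ℝ, 0 ≤ β ∧
    (∀ w, 0 ≤ w → w < z → f0 θ w ≤ Real.exp (-(α * w) - β * w ^ 2)) ∧ vR (N.ell D y) ≤ α + β * aR y
  sig : ∀ (Y : ℕ) (y : ℝ), 0 ≤ y → y ≤ aR Y → |f0 θ y| ≤ Real.exp (-(vR (N.sig D Y) * y))
  sgS : ∀ Y : ℕ, (∀ y, 0 ≤ y → y ≤ aR Y → |f0 θ y| ≤ Real.exp (-(vR (N.sigS D Y) * y))) ∧
    ∀ y, aR Y ≤ y → |f0 θ y| ≤ Real.exp (-(vR (N.sigS D Y) * aR Y))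
  s11 : ∀ y, 0 ≤ y → y ≤ 16 → |f0 θ y| ≤ Real.exp (-(vR (N.fld (N.tSG D) 11) * y))
  s23 : (∀ y, 0 ≤ y → y ≤ 64 → |f0 θ y| ≤ Real.exp (-(vR (N.fld (N.tSG D) 23) * y))) ∧
    vR (N.fld (N.tSG D) 23) * 64 ≤ -Real.log (vR D.B.c0)
  uu : ∀ (x : ℕ) (y : ℝ), aR x ≤ y → |f0 θ y| ≤ vR (N.uu D x) ∧ |f0 θ y| ≤ vR (N.u64 D x)
  n0 : ∀ (x : ℕ) (y : ℝ), N.mL D ≤ x → x + 1 ≤ N.xgN D.I.kN → xR D.I.kM ≤ y → y ≤ aR x →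
    vR (N.fld D.N0 (N.idx x - D.I.kM)) ≤ -f0 θ y
  tn : ∀ n, 2 ≤ n → n ≤ 60 →
    vR (N.tn D n) - 1 ≤ ∑' i : ℕ, f0 θ (((i : ℝ) + 1) ^ 2 / n) ^ n / ((i : ℝ) + 1) ^ 2

/-- the hypotheses of the packets on the fields of `TF` -/
structure TH (A : ℕ) (B : N.Base) (I : N.Ix) (θ z : ℝ) : Prop where
  bf : BaseFacts A B θ
  tb : TBF B θ
  ix : IxP B I
  ch : CHF B θ
  uf : UF B I θ
  fa : FA θ z (xR I.kM) (xR I.kW) (xR I.kD) (xR I.kN)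
  zl : xR I.kz < z
  zr : z < xR I.kR
  n0 : ∀ k, I.kM ≤ k → k < I.kN → ∀ y, xR I.kM ≤ y → y ≤ xR (k + 1) →
      vR (N.fld (N.tN0 B I.kM I.kN) (k - I.kM)) ≤ -f0 θ y

/-- (INT): interpolation.  `up0, lo0`: chord of the bounds plus `cpF` (`CHF.c0`); truncation of `Nat.sub` is
harmless as `f0 ≥ -1`.  `p1`: `f1 ≤` max of the chord at `x` and the value at `xR (k+1)`, plus `csF`, on the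
rest of the cell of `x`, and `UF.p1` beyond. -/
def GINT : Prop := GSQ → GFLD → GGRID → ∀ (A : ℕ) (B : N.Base) (I : N.Ix) (θ z : ℝ), TH A B I θ z →
  (∀ x : ℕ, x < 2 ^ 32 → f0 θ (aR x) ≤ vR (N.up0 (N.mkTab B I) x) - 1) ∧
  (∀ x : ℕ, x < 2 ^ 32 → vR (N.lo0 (N.mkTab B I) x) - 1 ≤ f0 θ (aR x)) ∧
  (∀ (x : ℕ) (y : ℝ), x < N.xgN I.kD → aR x ≤ y → y ≤ xR I.kD → f1 θ y ≤ vR (N.p1 (N.mkTab B I) x))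

/-- (TAY).  Taylor (`bCH`, last statement) at `A/8192` from the nearest grid point; errors: NUM
`2^-38 (1 + d/2 + d²/4)` (`4.3` units), `4` roundings and one in the cubic term, `|f0 θ - f0 (A/8192)|` at `x`, which
is at most `err0 B (k+1) - 17` units because the three bounds of `BaseFacts.l0` are nondecreasing in `x`.
`E = 6 + (PU (k+1) - T0 (k+1))`, and `PU (k+1) = T0 (k+1) + err0 B (k+1)` as `T0 ≤ 2^42`, `err0 ≤ 2^38`.  If the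
subtraction in `v` is truncated then use `f0 ≥ -1`. -/
def GTAY : Prop := GSQ → GFLD → GGRID → ∀ (A : ℕ) (B : N.Base) (I : N.Ix) (θ z : ℝ), TH A B I θ z →
  ∀ p x : ℕ, (p = 0 ∨ p = 14) → x < 2 ^ (32 + p) → ∃ v e : ℕ,
    (∀ (α : Type) (f : ℕ → ℕ → α), N.tay (N.mkTab B I) p x f = f v e) ∧
    |f0 θ ((x : ℝ) / 2 ^ (26 + p)) - (vR v - 1)| + 2 / 2 ^ 40 ≤ vR e

/-- (FST).  `f0` is decreasing on `[0,m]` (`bRL`), positive before `z`, `|f0| ≤ U0`.  `mM`: on `[z,m]`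
`|f0(y)| ≤ |f0(m)| ≤ U0 kM`. -/
def GFST : Prop := GEXP → GPOW → GGRID → GINT → GSQ → GFLD → ∀ (A : ℕ) (B : N.Base) (I : N.Ix) (θ z : ℝ),
  TH A B I θ z →
  (∀ y, z ≤ y → |f0 θ y| ≤ vR (N.mM (N.mkTab B I))) ∧
  (∀ (x0 x1 : ℕ) (y : ℝ), z ≤ y → aR x0 ≤ y → y ≤ aR x1 → |f0 θ y| ≤ vR (N.fst (N.mkTab B I) x0 x1)) ∧
  (∀ (x : ℕ) (y : ℝ), 0 ≤ y → aR x ≤ y → y < z → f0 θ y ≤ vR (N.pos0 (N.mkTab B I) x)) ∧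
  (∀ (x : ℕ) (y : ℝ), aR x ≤ y → |f0 θ y| ≤ vR (N.uu (N.mkTab B I) x) ∧ |f0 θ y| ≤ vR (N.u64 (N.mkTab B I) x)) ∧
  (∀ (x : ℕ) (y : ℝ), N.mL (N.mkTab B I) ≤ x → x + 1 ≤ N.xgN I.kN → xR I.kM ≤ y → y ≤ aR x →
    vR (N.fld (N.mkTab B I).N0 (N.idx x - I.kM)) ≤ -f0 θ y)

/-- (IVN).  `bFMG` with `K = 1152`, `U1 k = vR (U1 k)`, `J1 k = (fld6 I1 k)/2^49` (sums `≤ 64 · 2^49 < 2^56`);
`avg`: `bAV` (1) and `FM.h1, h2`, or `|f0(y) - f0(x)| ≤ U1(idx y0)/2 (x-y)` in the first branch. -/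
def GIVN : Prop := GFLD → GGRID → ∀ (A : ℕ) (B : N.Base) (I : N.Ix) (θ z : ℝ), TH A B I θ z →
  (∃ I1 I2 : ℝ → ℝ, FM θ I1 I2 ((N.kS1 (N.mkTab B I) : ℝ) / 2 ^ 49) ((N.kS2 (N.mkTab B I) : ℝ) / 2 ^ 49) ∧
    ∀ x : ℕ, (N.iV (N.tI1 B) (N.tU1 B) x : ℝ) / 2 ^ 66 ≤ I1 (aR x) ∧
      (N.iV (N.tI2 B) (N.tU2 B) x : ℝ) / 2 ^ 66 ≤ I2 (aR x)) ∧
  (∀ (y0 x0 : ℕ) (x y : ℝ), aR y0 ≤ y → aR x0 ≤ x → y < x →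
    |f0 θ y - f0 θ x| ≤ vR (N.avg (N.tI1 B) (N.tU1 B) y0 x0) / 2 * (x - y)) ∧
  (∀ (y0 x0 : ℕ) (x y : ℝ), aR y0 ≤ y → aR x0 ≤ x → y < x →
    |f1 θ y - f1 θ x| ≤ vR (N.avg (N.tI2 B) (N.tU2 B) y0 x0) * (x - y))

/-- (KAV).  `rhoF B k / 2^36 ≤ Wf/f0²` on the cell `k < kz` (`bRHO`, `CHF.wS`, `r0 = vR (rLo B k) ≤ rr`), suffix
minima, `bRG` with `K = kz`, `J k = (fld6 RI k)/2^45` (sum `≤ 8 · 250 · 2^45 < 2^56`), `bAV` (2). -/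
def GKAV : Prop := GFLD → GGRID → ∀ (A : ℕ) (B : N.Base) (I : N.Ix) (θ z : ℝ), TH A B I θ z →
  (∀ (x0 y0 : ℕ) (x y : ℝ), aR x0 ≤ x → aR y0 ≤ y → y < x → x ≤ xR I.kz →
    (N.kAv (N.mkTab B I) x0 y0 : ℝ) / 2 ^ 36 * (x - y) ≤ rr θ x - rr θ y) ∧
  (∀ x y, 0 ≤ y → y ≤ x → x ≤ 1 / 8 → (N.fld (N.tRH B I.kz) 0 : ℝ) / 2 ^ 36 * (x - y) ≤ rr θ x - rr θ y)

/-- (LAM).  `LU k ≥ -log f0(xR k)`, `LL k ≤ -log f0(xR k)` (`GLN`, entries `< 2^44` as `pp (PL k) ≥ 2^20`),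
`-log f0` convex: `lamU`.  `ell`: `bLINE` for the line through the segment `k0 = min (idx y) kE`:
`β = slp k0/2^30`, `α = vR (F k0) - β xR k0`; `F` is convex (`IxP.FS`, `SM`), so the line is `≤ F` at all grid
points `≤ xR kz`; `α + 2βz ≤ α_E + 2 β_E xR kR ≤ rLo/2 ≤ rr(xR kz)/2`. -/
def GLAM : Prop := GLN → GFLD → GGRID → ∀ (A : ℕ) (B : N.Base) (I : N.Ix) (θ z : ℝ), TH A B I θ z →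
  (∀ x : ℕ, x ≤ N.xgN I.kz → lam θ (aR x) ≤ vR (N.lamU (N.mkTab B I) x)) ∧
  (∀ y : ℕ, ∃ α β : ℝ, 0 ≤ β ∧ (∀ w, 0 ≤ w → w < z → f0 θ w ≤ Real.exp (-(α * w) - β * w ^ 2)) ∧
    vR (N.ell (N.mkTab B I) y) ≤ α + β * aR y)

/-- (SGN).  `brN r` are `3,4,..,12,14,16,20,24,..,64` (times `2^26`).  For `y < z`: `f0(y) ≤ exp(-y/2)`, all `σ ≤ 1/2`.
For `z ≤ y ≤ brN r`, `y` beyond `brN (r-1)`: `|f0(y)| ≤ vR (segV r) ≤ exp(-segF r · b) ≤ exp(-segF r · y)`.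
`Y ≥ 64`: `-log(c0 (64/y)^g)/y` is nonincreasing for `y ≥ 64` since `g ≤ -log c0`.  `cc`: `segC`.
(`GFST` gives the bounds of `|f0|`.) -/
def GSGN : Prop := GLN → GEXP → GPOW → GSQ → GFLD → GGRID → GINT → GFST → ∀ (A : ℕ) (B : N.Base) (I : N.Ix) (θ z : ℝ),
  TH A B I θ z →
  ((B.gn : ℝ) / 32 ≤ -Real.log (vR B.c0) ∧ B.c0 < 2 ^ 40 ∧
    ∀ y, 0 ≤ y → y ≤ 64 → |f0 θ y| ≤ Real.exp (Real.log (vR B.c0) / 64 * y)) ∧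
  (∀ (Y : ℕ) (y : ℝ), 0 ≤ y → y ≤ aR Y → |f0 θ y| ≤ Real.exp (-(vR (N.sig (N.mkTab B I) Y) * y))) ∧
  (∀ Y : ℕ, (∀ y, 0 ≤ y → y ≤ aR Y → |f0 θ y| ≤ Real.exp (-(vR (N.sigS (N.mkTab B I) Y) * y))) ∧
    ∀ y, aR Y ≤ y → |f0 θ y| ≤ Real.exp (-(vR (N.sigS (N.mkTab B I) Y) * aR Y))) ∧
  (∀ y, 0 ≤ y → y ≤ 16 → |f0 θ y| ≤ Real.exp (-(vR (N.fld (N.tSG (N.mkTab B I)) 11) * y))) ∧
  (∀ y, 0 ≤ y → y ≤ 64 → |f0 θ y| ≤ Real.exp (-(vR (N.fld (N.tSG (N.mkTab B I)) 23) * y))) ∧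
  vR (N.fld (N.tSG (N.mkTab B I)) 23) * 64 ≤ -Real.log (vR B.c0)

/-- (TNN).  `bECMP` (second statement).  `L i` from `tay` at `⌊i² 2^40/n⌋`, `|f0'| ≤ 1/2` (`aBD`), the difference of
the arguments is `< 2^-40`, so the slack `2/2^40` in `GTAY` covers it.  `tn` accumulates `2^40 (1 + ∑ L i/i²)`; `addS`
keeps the sum at `0` once it is `0`, so the invariant is: accumulator `= 0` or `≤` real value (the sum is `≥ -1`: its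
first term is positive and `∑_{i≥2} 1/i² < 1`). -/
def GTNN : Prop := GTAY → GSQ → GFLD → GGRID → GPOW → ∀ (A : ℕ) (B : N.Base) (I : N.Ix) (θ z : ℝ), TH A B I θ z →
  ∀ n, 2 ≤ n → n ≤ 60 →
    vR (N.tn (N.mkTab B I) n) - 1 ≤ ∑' i : ℕ, f0 θ (((i : ℝ) + 1) ^ 2 / n) ^ n / ((i : ℝ) + 1) ^ 2

end Pool.Agent.Helper53.PT
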