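import Pool.Agent.Helper53.PT.GoalsC

/-!
# MP_705522_gt, `q ∈ (2,4)`: goals, part D (soundness of the tests of `Chk.lean`)

`D : N.Tab` with `TF D θ z` (all that is known about the tables).  The functions are in `Chk.lean`.
Number of coordinates: `c = n`, or `c = 0` for the class of all `n ≥ NM`.
-/

namespace Pool.Agent.Helper53.PT

open MeasureTheory Set Filter Topology

/-- (TAUN).  The result is the minimum of three or four numbers, each satisfying one case of `TauOK`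
(for the last: `r τ ≥ m0 + √((r-j)(rQ-m0²)/j)`; if `r Q < m0²` the product is `≤ 0`). -/
def GTAUN : Prop := GSQ → ∀ r j cap m0 m1 Q : ℕ, 1 ≤ j →
  TauOK r j (aR cap) (aR m0) (aR m1) ((Q : ℝ) / 2 ^ 52) (aR (N.tau r j cap m0 m1 Q))

/-- (REST2).  As `GREST`, with one more possibility for each `j`: if `τ X1 ≤ z` then there is no configuration with
exactly `j` arguments `> z`: their coordinates `s_i > z/X ≥ z/X1 ≥ τ` have sum `> jτ`, against `GTAU`. -/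
def GREST2 : Prop := GRL → GPROD → GREST1 → GTAU → ∀ θ z m xW xD yN : ℝ, FA θ z m xW xD yN →
  ∀ (N : ℕ) (cap m0 m1 Q ul X0 X1 x1 B : ℝ) (al : Prop) (J : ℕ), 0 ≤ m0 → 0 < X0 → 0 ≤ B →
  (al ∨ x1 ≤ yN) → (al → Real.exp (-(m0 * X0) / 2) ≤ B) →
  (∀ j : ℕ, 1 ≤ j → j ≤ J → (al ∨ Odd j) →
    (∃ τ : ℝ, 0 ≤ τ ∧ TauOK N j cap m0 m1 Q τ ∧ τ * X1 ≤ z) ∨
    ∃ τ yl yu U P : ℝ, 0 ≤ τ ∧ TauOK N j cap m0 m1 Q τ ∧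
    (yl ≤ z ∨ (0 < N ∧ j * yl ≤ m0 * X0 - ((N : ℝ) - j) * z)) ∧ (yu ≤ yl ∨ yu ≤ z ∨ yu ≤ ul * X0) ∧
    UOK θ z xW j yl yu (τ * X1) x1 U ∧ POK θ z N j (m0 - j * τ) X0 P ∧ U * P ≤ B) →
  (m1 * X1 ≤ ((J : ℝ) + 1) * z ∨ (1 ≤ N ∧ N ≤ J) ∨
    ∃ M : ℝ, (∀ y, z ≤ y → |f0 θ y| ≤ M) ∧ M ≤ 1 ∧ M ^ (J + 1) ≤ B) →
  RestB θ N cap m0 m1 Q ul X0 X1 x1 al B

/-- (RSJ), one `j` in `rst` (`restJ`): the new value `b` is `≥ best`, and one of the two possibilities of `GREST2` holds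
with `B = vR b`.  `Mp` is an upper bound of `M^(j-1)`, `M = vR (mM D)`.  Cases: `mulU t X1 ≤ zL`: `τ X1 ≤ z`.
Else `U` by `UOK` (case 1 if `j = 1`; otherwise case 2 or 3) with `yl`, `yu` as in the code (`(r-j) zR ≥ (r-j) z`).
`U ≤ best`: `P = 1`.  Else `P` by `POK`: `exp(-μX0/2)` (if `m0 < jτ` then `rm = 0` and `E ≥ 1`), `1` if `r = j`,
`pos0^(r-j)`. -/
def GRSJ : Prop := GTAUN → GEXP → GPOW → ∀ (D : N.Tab) (θ z : ℝ), TF D θ z →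
  ∀ r cap m0 m1 Q ul X0 X1 x1 j Mp best : ℕ, 1 ≤ j → vR (N.mM D) ^ (j - 1) ≤ vR Mp →
  best ≤ N.restJ D r cap m0 m1 Q ul X0 X1 x1 j Mp best ∧
  ((∃ τ : ℝ, 0 ≤ τ ∧ TauOK r j (aR cap) (aR m0) (aR m1) ((Q : ℝ) / 2 ^ 52) τ ∧ τ * ((X1 : ℝ) / 64) ≤ z) ∨
    ∃ τ yl yu U P : ℝ, 0 ≤ τ ∧ TauOK r j (aR cap) (aR m0) (aR m1) ((Q : ℝ) / 2 ^ 52) τ ∧
    (yl ≤ z ∨ (0 < r ∧ j * yl ≤ aR m0 * ((X0 : ℝ) / 64) - ((r : ℝ) - j) * z)) ∧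
    (yu ≤ yl ∨ yu ≤ z ∨ yu ≤ aR ul * ((X0 : ℝ) / 64)) ∧
    UOK θ z (xR D.I.kW) j yl yu (τ * ((X1 : ℝ) / 64)) (aR x1) U ∧ POK θ z r j (aR m0 - j * τ) ((X0 : ℝ) / 64) P ∧
    U * P ≤ vR (N.restJ D r cap m0 m1 Q ul X0 X1 x1 j Mp best))

/-- (RST).  Induction on the fuel of `rst` (`j = 1, 2, ..`, at most `40`): the loop stops at `j = J+1` when
`M^(J+1) ≤ best`, or `m1 X1 ≤ (J+1) zL`, or `J = r ≥ 1`, or at the end (`Mp ≥ M^40 ≥ M^41`, `M < 1`).  The result is `≥`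
all intermediate `best`. -/
def GRST : Prop := GREST2 → GRSJ → GEXP → ∀ (D : N.Tab) (θ z : ℝ), TF D θ z →
  ∀ (al : Bool) (r cap m0 m1 Q ul X0 X1 x1 : ℕ), 0 < X0 → (al = true ∨ x1 ≤ N.xgN D.I.kN) →
  RestB θ r (aR cap) (aR m0) (aR m1) ((Q : ℝ) / 2 ^ 52) (aR ul) ((X0 : ℝ) / 64) ((X1 : ℝ) / 64) (aR x1)
    (al = true) (vR (N.rst D al r cap m0 m1 Q ul X0 X1 x1))

/-- (ENN).  `bENODE` with `α, β` from `TF.ell (u X)`, `p = vR (pp (tayU D (a X)))` (`TF.tay`, `p = 0`), `F` from `TF.fst`,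
`RestB` from `GRST` (`(1-a1) v = (oneA - a1) v / 2^52`). -/
def GENN : Prop := GRST → GEXP → ∀ (D : N.Tab) (θ z : ℝ), TF D θ z →
  ∀ (n r : ℕ) (t : Fin n → ℝ) (i : Fin n) (a1 a2 u v X : ℕ), (r = 0 ∨ n = r + 1) → Sx t → (∀ l, t l ≤ t i) →
  aR a1 ≤ t i → t i ≤ aR a2 → a1 ≤ a2 → a2 ≤ 2 ^ 26 → u ≤ 2 ^ 26 →
  aR u * (1 - t i) ≤ ∑ l ∈ Finset.univ.erase i, t l ^ 2 →
  ∑ l ∈ Finset.univ.erase i, t l ^ 2 ≤ aR v * (1 - t i) → 1 ≤ X → X ≤ 64 →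
  ∏ l, f0 θ (t l * X) ≤ vR (N.eNode D r a1 a2 u v X)

/-- tail bound: `eTail` bounds the contribution of the nodes `i ≥ 9` -/
def GETL : Prop := GEXP → ∀ (D : N.Tab) (θ z : ℝ), TF D θ z → ∀ (n : ℕ) (t : Fin n → ℝ) (a2 : ℕ), Sx t →
  (∀ l, t l ≤ aR a2) → ∃ p : ℕ → ℝ, (∀ i : ℕ, 9 ≤ i → i ≤ 15 → |PP θ t (i : ℝ)| ≤ p i) ∧
    (∀ i : ℕ, 16 ≤ i → |PP θ t (i : ℝ)| ≤ p 16) ∧
    ∑ i ∈ Finset.Icc 9 15, p i / (i : ℝ) ^ 2 + 0.0646 * p 16 ≤ vR (N.eTail D a2)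

/-- (EOK).  `bECMP` with `T` from `TF.tn` (`N' = 2` or `min nE 60`, `N' ≤ n`; for `c = 0`: `n ≥ 1 + m0/v` because
`(1-a)² ≤ (n-1) ∑ t_l² ≤ (n-1) v (1-a)` (`bACOV`); if `v = 0` or `a = 1` then `nE ≤ max NM 1`).  `110000 ≥ 1e-7 · 2^40`. -/
def GEOK : Prop := GENN → GETL → ∀ (D : N.Tab) (θ z : ℝ), TF D θ z →
  ∀ (n c NM : ℕ) (t : Fin n → ℝ) (i : Fin n) (a1 a2 u v : ℕ), (c = n ∨ (c = 0 ∧ 2 ≤ NM ∧ NM ≤ n)) → 2 ≤ n → Sx t →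
  (∀ l, t l ≤ t i) → aR a1 ≤ t i → t i ≤ aR a2 → a1 ≤ a2 → a2 ≤ 2 ^ 26 → u ≤ 2 ^ 26 →
  aR u * (1 - t i) ≤ ∑ l ∈ Finset.univ.erase i, t l ^ 2 →
  ∑ l ∈ Finset.univ.erase i, t l ^ 2 ≤ aR v * (1 - t i) →
  N.eOK D c NM a1 a2 u v (N.eTail D a2) = true → ¬ IsMinT θ t

/-- (E3N): one node of the test for `n = 3`: `e3Node` adds an upper bound of the product divided by `X`. -/
def GE3N : Prop := ∀ (D : N.Tab) (θ z : ℝ), TF D θ z →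
  ∀ (a b c : ℝ) (a1 a2 b1 b2 cl ch A B C X ih : ℕ), 0 ≤ b → b ≤ c → c ≤ a → a + b + c = 1 →
  aR a1 ≤ a → a ≤ aR a2 → aR b1 ≤ b → b ≤ aR b2 → aR cl ≤ c → c ≤ aR ch → ch ≤ a2 → a2 ≤ 2 ^ 26 → 1 ≤ X → X ≤ 64 →
  (∃ A' B' C' : ℝ, aR A ≤ A' ∧ aR B ≤ B' ∧ aR C ≤ C' ∧ 0 ≤ B' ∧ B' ≤ C' ∧ C' ≤ A' ∧ A' ≤ a ∧ b ≤ B' ∧
    A' + B' + C' = 1) →
  vR ih + f0 θ (a * X) * f0 θ (b * X) * f0 θ (c * X) / X ≤ vR (N.e3Node D a1 a2 b1 b2 cl ch A B C X ih)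

/-- (E3).  `n = 3`: largest `a = t i`, smallest `b = t j`, third `c = t k`, `c ∈ [cl, ch]`.  Nodes `X ≤ 64`: if
`a2 X ≤ zL`: `bPROD` (4) with `(A,B,C)` from `corner` (the least spread point of the region: `A ≤ a`, `b ≤ B`; the
numbers in `corner` are rounded down, which increases `f0`); otherwise the bounds `fac` of the three factors (`f0` is
decreasing and positive before `z`; negative with `-f0` log-concave on `(z, xR kW]`, so `-f0 ≥` the smaller of the end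
values).  Tail: `min` of `eTail` (`GETL`) and `tail3` (product of three bounds).  Then `bECMP`, `N' = 2` or `3`. -/
def GE3 : Prop := GE3N → GETL → ∀ (D : N.Tab) (θ z : ℝ), TF D θ z →
  ∀ (t : Fin 3 → ℝ) (i j : Fin 3) (a1 a2 b1 b2 : ℕ), i ≠ j → Sx t → (∀ l, t l ≤ t i ∧ t j ≤ t l) →
  aR a1 ≤ t i → t i ≤ aR a2 → aR b1 ≤ t j → t j ≤ aR b2 → a2 ≤ 2 ^ 26 → b2 ≤ 2 ^ 26 →
  N.e3OK D a1 a2 b1 b2 (N.eTail D a2) = true → ¬ IsMinT θ t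

/-! ## Kernel test -/

/-- (XI): the nodes. -/
def GXI : Prop := ∀ md k : ℕ, N.xiN md 0 = 0 ∧ N.xiN md k < N.xiN md (k + 1)

/-- (KP).  `bKPOS` with `ξ0 = m0/8`, `ξ1 = m1/8`, `av = kAv/2^36` (`TF.kav`), `C` from `bKCC` (1) or (2) and `TF.lam`
(`lam` is nondecreasing on `[0,z)`: `bRL`; `x2 = mulU a2 (m1²) ≥ a2 ξ1² 2^26`), `mq`. -/
def GKP : Prop := GEXP → ∀ (D : N.Tab) (θ z : ℝ), TF D θ z →
  ∀ (n c : ℕ) (t : Fin n → ℝ) (i j : Fin n) (a1 a2 b1 m0 m1 : ℕ), (c = 0 ∨ c = n) → Sx t → t j < t i →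
  (∀ l, t l ≤ t i ∧ t j ≤ t l) → aR a1 ≤ t i → t i ≤ aR a2 → aR b1 ≤ t j → b1 < a2 → a2 ≤ 2 ^ 26 → m0 < m1 →
  N.mulU a2 (m1 * m1) ≤ N.zL D →
  IntervalIntegrable (KI θ t i j) volume ((m0 : ℝ) / 8) ((m1 : ℝ) / 8) ∧
  (t i - t j) * vR (N.kPos D c a1 a2 b1 m0 m1 (N.mulU a2 (m1 * m1))) ≤
    ∫ ξ in ((m0 : ℝ) / 8)..((m1 : ℝ) / 8), KI θ t i j ξ

/-- (KN).  `bKNEG` with `RestB` from `GRST` (monotone in `Q`, `x1`, `m1`, antitone...: `RestB` is stated for the rounded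
values `x2 ≥ a2 ξ1²`, `Q`, pass to the exact ones).  `par = 1`: `al = false`. -/
def GKN : Prop := GRST → ∀ (D : N.Tab) (θ z : ℝ), TF D θ z →
  ∀ (n c : ℕ) (t : Fin n → ℝ) (i j : Fin n) (a1 a2 b1 b2 t0 m0 m1 : ℕ), (c = 0 ∨ (c = n ∧ 3 ≤ n)) → Sx t →
  t j < t i → (∀ l, t l ≤ t i ∧ t j ≤ t l) → 0 < a1 → aR a1 ≤ t i → t i ≤ aR a2 → aR b1 ≤ t j → t j ≤ aR b2 →
  a1 ≤ a2 → a2 ≤ 2 ^ 26 → ∑ l ∈ Finset.univ.erase i, t l ^ 2 ≤ aR t0 * (1 - t i) → 0 < m0 → m0 < m1 →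
  N.zL D < N.mulU a2 (m1 * m1) →
  IntervalIntegrable (KI θ t i j) volume ((m0 : ℝ) / 8) ((m1 : ℝ) / 8) ∧
  -((t i - t j) * vR (N.kNeg D (c - 2) a1 a2 b1 b2 (N.oneA - (a2 + b2)) (N.oneA - (a1 + b1))
      ((N.oneA - a1) * t0 - b1 * b1) m0 m1 (N.mulU a2 (m1 * m1)))) ≤
    ∫ ξ in ((m0 : ℝ) / 8)..((m1 : ℝ) / 8), KI θ t i j ξ

/-- (KT).  `GKTAIL2` with `ξs = m/8`, `d0 = exp(-vR l0)`, `d1 = exp(-vR l1)` (`GPOW`), `D1`, `D2` from `kD`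
(`TF.fm`), `Ra = vR Ra` (`R/a ≥ (1-a2-b2)/a2`, resp. `(1-2a)/a ≥ (1-2a2)/a2`), `1 < 2g(1+Ra)` as
`ex1 = ⌊gn (1+Ra)/16⌋ ≥ 1 + 10^6 2^-40`. -/
def GKT : Prop := GEXP → GPOW → GKTAIL2 → ∀ (D : N.Tab) (θ z : ℝ), TF D θ z →
  ∀ (n c : ℕ) (t : Fin n → ℝ) (i j : Fin n) (a1 a2 b1 b2 m : ℕ), (c = 0 ∨ c = n) → Sx t → t j < t i →
  (∀ l, t l ≤ t i ∧ t j ≤ t l) → 2 ^ 16 ≤ a1 → aR a1 ≤ t i → t i ≤ aR a2 → aR b1 ≤ t j → t j ≤ aR b2 → a2 ≤ 2 ^ 26 →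
  0 < m → N.kTail D c a1 a2 b1 b2 m < 2 ^ 60 →
  IntegrableOn (KI θ t i j) (Ioi ((m : ℝ) / 8)) ∧
  -((t i - t j) * vR (N.kTail D c a1 a2 b1 b2 m)) ≤ ∫ ξ in Ioi ((m : ℝ) / 8), KI θ t i j ξ

/-- (KOK).  Sum over the nodes (`kSum` starts at `2^60`; `addS`: once the accumulator is `0` it stays `0` and the test
fails; otherwise accumulator `≤ 2^60 + 2^40 ∑`), `GKP` if `x2 ≤ zL`, else `GKN` (then `m0 > 0`: for `m0 = 0`, `m1 = 1`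
`x2 ≤ 2^20 + 1 ≤ zL` as `kz ≥ 100`), tail `GKT`.  `K θ t i j` is the integral over `(0,∞)` of `KI`. -/
def GKOK : Prop := GXI → GKP → GKN → GKT → ∀ (D : N.Tab) (θ z : ℝ), TF D θ z →
  ∀ (n c md Kn : ℕ) (t : Fin n → ℝ) (i j : Fin n) (a1 a2 b1 b2 t0 : ℕ), (c = 0 ∨ c = n) → 3 ≤ n → Sx t →
  t j < t i → (∀ l, t l ≤ t i ∧ t j ≤ t l) → 2 ^ 16 ≤ a1 → a1 ≤ a2 → a2 ≤ 2 ^ 26 → aR a1 ≤ t i → t i ≤ aR a2 →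
  aR b1 ≤ t j → t j ≤ aR b2 → ∑ l ∈ Finset.univ.erase i, t l ^ 2 ≤ aR t0 * (1 - t i) →
  N.kOK D c md a1 a2 b1 b2 t0 Kn = true → 0 < K θ t i j

/-! ## Near the pair -/

/-- (PSM): the sum `pSum` (accumulator `= 0` or `≤` real value). -/
def GPSM : Prop := GEXP → ∀ (D : N.Tab) (θ z : ℝ), TF D θ z → ∀ (a c : ℝ) (a1 a2 cm c2 e0 : ℕ), 0 < e0 →
  aR a1 ≤ a → a ≤ aR a2 → aR cm ≤ c → c ≤ aR c2 → c ≤ a → a2 ≤ 2 ^ 26 → c2 ≤ 2 ^ 26 →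
  N.pSum D a1 a2 cm c2 e0 = 0 ∨ ∃ L : ℕ → ℝ, (∀ l : ℕ, 1 ≤ l → l ≤ 15 → L l ≤ f0 θ (a * (l : ℝ) ^ 2) *
      f0 θ (c * (l : ℝ) ^ 2) * ((1 - Real.exp (-(aR e0 * (l : ℝ) ^ 2) / 2)) / (aR e0 * (l : ℝ) ^ 2))) ∧
    vR (N.pSum D a1 a2 cm c2 e0) ≤ 1 + ∑ l ∈ Finset.Icc 1 15, L l

/-- (POK).  `bE2P2` with the parameters of the code: `c = t k ∈ [cm, c2]` (`c ≥ 1 - a - e0`), `ξ1 = x1/2^26`, ...; if
`a2 < (1-e0)/2` no such `t` exists (`a ≥ c`), otherwise `cm ≤ a2` and `ξ1 ≤ ξ2`.  `V2u`: `G ≤ π²/6 + 1/4 - T_2`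
(`aHS`, `TF.tn`), `(π²/6 + 5/4) 2^40 ≤ 3183013668145`.  `ξ6 = (x5 + 4 st)/2^26`.  `D.B.ni`: first alternative of `bE2P2`
(`TF.ni`), `J2 = 0`, `U16 = 0` (`256 cm ≥ zR`). -/
def GPOKS : Prop := GPSM → GEXP → GSQ → ∀ (D : N.Tab) (θ z : ℝ), TF D θ z →
  ∀ (n : ℕ) (t : Fin n → ℝ) (i k : Fin n) (a1 a2 e0 : ℕ), Sx t → i ≠ k → (∀ l, t l ≤ t i) → a2 ≤ 2 ^ 26 →
  0 < e0 → aR a1 ≤ t i → t i ≤ aR a2 → 0 < 1 - t i - t k → 1 - t i - t k ≤ aR e0 →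
  N.pOK D a1 a2 e0 = true → ¬ IsMinT θ t

/-! ## Small coordinates, coverage -/

/-- (SMK). -/
def GSMK : Prop := GEXP → ∀ (D : N.Tab) (θ z : ℝ), TF D θ z → N.smOK D = true →
  ∀ (n : ℕ) (t : Fin n → ℝ) (i j : Fin n), 3 ≤ n → Sx t → t j < t i → (∀ l, t l ≤ t i ∧ t j ≤ t l) →
  t i ≤ 1 / 128 → 0 < K θ t i j

/-- the conclusion of the tests for one interval of the largest coordinate -/
def AGood (θ : ℝ) (n : ℕ) (a1 a2 : ℝ) : Prop := ∀ (t : Fin n → ℝ) (i : Fin n), IsMinT θ t → (∀ l, t l ≤ t i) →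
  a1 ≤ t i → t i ≤ a2 → Good t

/-- (AOK).  Let `t` be a minimiser, `a = t i` largest, `b = t j` smallest, `t* = ∑_{l≠i} t_l²/(1-a)` (`a = 1`: `Good` is
impossible for a minimiser, see `bACOV` (2): `t i + t k = 1`).  If `t j = t i`: `bACOV` (1).  Otherwise `K θ t i j ≤ 0`
(`aDER`), so the kernel test cannot hold.  If `ep > 0`: either some `t k ≥ 1 - a - ep`: `GPOKS`, or `bACOV` (2) if
`t i + t k = 1`; or all `t k < 1 - a - ep`: then `t* ≤ ((m-ep)²+ep²)/m` (`m = 1 - a`; nondecreasing in `m ≥ 2 ep`), and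
`b ≥ ep` if `n = 3`.  So `t* ≤ v0`.  `vAll`: `GEOK` for `t* ∈ [u,v]`; at the end of the list either `t* ≥ m/(n-1) ≥ v`
(`bACOV`; `v = 0` if `c = 0`) or `t* ≤ t0 = v` and the `b` cells: type `0`: `(m-b)² + (n-2) b² ≤ (n-2) t0 m` (`bACOV`)
fails for `b ≤ b2` (`b ↦` decreasing for `b ≤ m/(n-1)`; after division by `m`, nondecreasing in `m`); type `1`: `GE3`;
otherwise `GKOK`.  Coverage: invariant for `bAll .. cs b'`: `b > b'`, or `b ≥ b'` and the list is not empty; at the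
end `b > b'` contradicts `b ≤ 1/n`, `(n-1) b ≤ 1 - a`, `b ≤ a`; the start is `b' = 0` (if the list is empty and `b = 0` then
`a1 ≥ 1`, `a = 1`, `bACOV` (2)) or, if `c = 3`, `b' = ep < b`.  `u > 2^26` in `vAll`: impossible as `t* ≤ 1`. -/
def GAOK : Prop := GEOK → GE3 → GKOK → GPOKS → ∀ (D : N.Tab) (θ z : ℝ), TF D θ z →
  ∀ (n c NM a1 a2 ep v0 : ℕ) (vs bs : List ℕ), (c = n ∨ (c = 0 ∧ 2 ≤ NM ∧ NM ≤ n)) → 3 ≤ n →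
  2 ^ 16 ≤ a1 → a1 ≤ a2 → a2 ≤ 2 ^ 26 → N.aOK D c NM a1 a2 ep v0 vs bs = true → AGood θ n (aR a1) (aR a2)

/-- (CLS).  Lists; `n = 2`: `bACOV` (2) with `i ≠ k`, `t i + t k = 1`; `1/n ≤ max t ≤ 1`; `t i ≤ 1/128` for `c = 0`
(`A0 ≤ 8`): `GSMK` and `aDER`. -/
def GCLS : Prop := GAOK → GSMK → ∀ (D : N.Tab) (θ z : ℝ), TF D θ z → N.smOK D = true →
  (∀ c : N.Cl, N.clOK D c = true → ∀ n : ℕ, 3 ≤ n → (c.n = n ∨ (c.n = 0 ∧ 2 ≤ c.NM ∧ c.NM ≤ n)) →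
    ∀ t : Fin n → ℝ, IsMinT θ t → Good t) ∧
  (∀ cs : List N.Cl, N.clAll D cs 3 = true → GT θ)

end Pool.Agent.Helper53.PT
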