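import Pool.Agent.Helper53.PT.DefsB
import Pool.Agent.Helper53.Pq.Final
import Pool.Agent.Helper63.Pq.AGVOL
import Pool.Agent.Helper65.Pq.C0

/-!
# MP_705522_gt, `q ∈ (2,4)`: volumes of projections in terms of `G`
-/

namespace Pool.Agent.Helper53.PT

open MeasureTheory Set Filter Topology
open Pool.Agent.Helper28.NO (mu ph Lf Lf_scale ph_abs ph_zero)
open Pool.Agent.Helper7.Proj (Bp projVol)

theorem c0_eq : Pool.Agent.Helper13.Proj.c0 = Real.pi / 2 := by
  have := Pool.Agent.Helper65.Pq.gC0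
  exact this.1

theorem sg_pos {θ : ℝ} (h0 : 0 < θ) (h1 : θ < 1) : 0 < sg θ :=
  Real.sqrt_pos.2 (mul_pos (Real.Gamma_pos_of_pos (by linarith)) (Real.Gamma_pos_of_pos (by linarith)))

/-- `G` in terms of `Lf` -/
theorem G_eq {θ : ℝ} (h0 : 0 < θ) (h1 : θ < 1 / 2) {n : ℕ} (u : Fin n → ℝ) :
    G θ (fun i => u i ^ 2) = Real.pi / 2 / sg θ * Lf (fun t => ∏ i, ph (mu (1 / θ)) (u i * t)) := by
  have hs := sg_pos h0 (by linarith : θ < 1)
  have hprob : IsProbabilityMeasure (mu (1 / θ)) :=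
    (Pool.Agent.Helper53.Pq.mu_basic (by rw [lt_div_iff₀ h0]; linarith)).1
  have e := Lf_scale (fun t => ∏ i, ph (mu (1 / θ)) (u i * t)) (β := 1 / sg θ) (by positivity)
    (by simp only [mul_zero]; exact Finset.prod_eq_one fun i _ => ph_zero)
  have e2 : Lf (fun t => ∏ i, ph (mu (1 / θ)) (u i * (1 / sg θ * t))) =
      G θ (fun i => u i ^ 2) / (Real.pi / 2) := by
    unfold Lf G
    rw [c0_eq]
    congr 1
    refine setIntegral_congr_fun measurableSet_Ioi fun ξ hξ => ?_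
    have hξ0 : (0 : ℝ) < ξ := hξ
    have e3 : PP θ (fun i => u i ^ 2) ξ = ∏ i, ph (mu (1 / θ)) (u i * (1 / sg θ * ξ)) := by
      unfold PP
      refine Finset.prod_congr rfl fun i _ => ?_
      have e4 : |u i * (1 / sg θ * ξ)| = |u i * ξ| / sg θ := by
        rw [abs_mul, abs_mul, abs_mul, abs_of_pos hξ0, abs_of_pos (one_div_pos.2 hs)]
        ring
      rw [((aLAW h0 h1).2.2.2.2.2.1 _ (by positivity)).2.2.2.2, ← mul_pow, Real.sqrt_sq_eq_abs,
        show ph (mu (1 / θ)) (u i * (1 / sg θ * ξ)) = ph (mu (1 / θ)) (|u i * (1 / sg θ * ξ)|) by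
          rw [← mul_one (|u i * (1 / sg θ * ξ)|), ph_abs, mul_one], e4]
    simp only [e3]
  rw [e] at e2
  have hpi := Real.pi_pos
  field_simp at e2 ⊢
  linarith

/-- the volume of the projection -/
theorem vol_eq {p : ℝ} (hp : 1 < p) (hp2 : p < 2) {n : ℕ} (u : EuclideanSpace ℝ (Fin (n + 1)))
    (hu : ‖u‖ = 1) : projVol p (n + 1) u = (volume : Measure (EuclideanSpace ℝ (Fin n))).real (Bp p n) *
      (2 / Real.pi * sg ((p - 1) / p) * G ((p - 1) / p) (fun i => u i ^ 2)) := by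
  have hp0 : 0 < p := by linarith
  have h0 : 0 < (p - 1) / p := div_pos (by linarith) hp0
  have h1 : (p - 1) / p < 1 / 2 := by rw [div_lt_div_iff₀ hp0 (by norm_num)]; linarith
  rw [Pool.Agent.Helper63.Pq.gVol p hp hp2 n u hu, G_eq h0 h1, Pool.Agent.Helper53.Pq.q_inv hp]
  have hs := sg_pos h0 (by linarith : (p - 1) / p < 1)
  have hpi := Real.pi_pos
  field_simp

end Pool.Agent.Helper53.PT
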