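import Pool.Agent.Helper53.PT.Chk

/-!
# MP_705522_gt: the checks of one cell, one piece at a time (saves memory)
-/

namespace Pool.Agent.Helper53.PT.N

/-- the intervals of the list cover from `A` to `B` -/
def acPre (D : Tab) (n NM : Nat) : List AC → Nat → Nat → Bool
  | [], A, B => Nat.beq A B
  | x :: xs, A, B => cond (cond (Nat.ble (Nat.succ A) x.a2)
        (aOK D n NM (mx (Nat.shiftLeft A 16) (cond (Nat.beq n 0) 0 (Nat.div oneA n))) (Nat.shiftLeft x.a2 16)
          (Nat.shiftLeft x.ep 16) (Nat.shiftLeft x.v0 12) x.vs x.bs) false) (acPre D n NM xs x.a2 B) false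

theorem cond_ff {a b : Bool} : (cond a b false) = true ↔ a = true ∧ b = true := by
  cases a <;> simp

theorem acPre_spec {D : Tab} {n NM : Nat} {ys : List AC} {B : Nat} (hy : acAll D n NM ys B = true) :
    ∀ (xs : List AC) (A : Nat), acPre D n NM xs A B = true → acAll D n NM (xs ++ ys) A = true
  | [], A, h => by
    have h1 : A = B := Nat.eq_of_beq_eq_true h
    rw [h1]
    exact hy
  | x :: xs, A, h => by
    rw [acPre, cond_ff] at h
    rw [List.cons_append, acAll, cond_ff]
    exact ⟨h.1, acPre_spec hy xs x.a2 h.2⟩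

theorem acPre_last {D : Tab} {n NM : Nat} :
    ∀ (xs : List AC) (A : Nat), acPre D n NM xs A 1024 = true → acAll D n NM xs A = true
  | [], A, h => h
  | x :: xs, A, h => by
    rw [acPre, cond_ff] at h
    rw [acAll, cond_ff]
    exact ⟨h.1, acPre_last xs x.a2 h.2⟩

theorem clOK_mk {D : Tab} {c : Cl}
    (h1 : (cond (Nat.ble 1 c.A0) (cond (Nat.beq c.n 0) (Nat.ble c.A0 8) (Nat.ble (Nat.mul c.n c.A0) 1024)) false) = true)
    (h2 : acAll D c.n c.NM c.cells c.A0 = true) : clOK D c = true := by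
  rw [clOK, cond_ff]
  exact ⟨h1, h2⟩

theorem clAll_cons {D : Tab} {c : Cl} {cs : List Cl} {k : Nat} (h0 : (Nat.beq c.n 0) = false)
    (h1 : Nat.beq c.n k = true) (h2 : clOK D c = true) (h3 : clAll D cs (Nat.succ k) = true) :
    clAll D (c :: cs) k = true := by
  rw [clAll, h0]
  show (cond (Nat.beq c.n k) (cond (clOK D c) (clAll D cs (Nat.succ k)) false) false) = true
  rw [cond_ff, cond_ff]
  exact ⟨h1, h2, h3⟩

theorem clAll_last {D : Tab} {c : Cl} {k : Nat} (h0 : (Nat.beq c.n 0) = true)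
    (h1 : (cond (Nat.beq c.NM k) (Nat.ble 4 k) false) = true) (h2 : clOK D c = true) :
    clAll D [c] k = true := by
  rw [clAll, h0]
  show (cond (Nat.beq c.NM k) (cond (Nat.ble 4 k) (clOK D c) false) false) = true
  rw [cond_ff] at h1
  rw [cond_ff, cond_ff]
  exact ⟨h1.1, h1.2, h2⟩

/-- all classes of the list -/
def clsOK (D : Tab) : List Cl → Bool
  | [] => true
  | c :: cs => cond (clOK D c) (clsOK D cs) false

theorem clsOK_cons {D : Tab} {c : Cl} {cs : List Cl} (h : clsOK D (c :: cs) = true) :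
    clOK D c = true ∧ clsOK D cs = true := by
  rw [clsOK, cond_ff] at h
  exact h

theorem chk_mk {B : Base} {I : Ix} {cs : List Cl} (h1 : ixOK (mkTab B I) = true)
    (h2 : smOK (mkTab B I) = true) (h3 : clAll (mkTab B I) cs 3 = true) : chk B I cs = true := by
  rw [chk, cond_ff, cond_ff]
  exact ⟨h1, h2, h3⟩

end Pool.Agent.Helper53.PT.N
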